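import Pool.Agent.P.MP_33127d_an.Lower

namespace Pool.Agent.P.MP_33127d_an

open MeasureTheory Finset Filter

theorem cmp_rpow {x y K : ℝ} (hx : 0 < x) (hy : 0 < y) (h1 : x ≤ K * y) (h2 : y ≤ K * x)
    (G : ℝ) : x ^ G ≤ K ^ |G| * y ^ G := by
  have hK : 0 < K := by
    by_contra hc
    nlinarith [mul_nonneg (neg_nonneg.mpr (not_lt.mp hc)) hy.le]
  rcases le_total 0 G with hG | hG
  · rw [abs_of_nonneg hG, ← Real.mul_rpow hK.le hy.le]
    exact Real.rpow_le_rpow hx.le h1 hG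
  · rw [abs_of_nonpos hG]
    have h3 : y / K ≤ x := by rw [div_le_iff₀ hK]; linarith
    refine (Real.rpow_le_rpow_of_nonpos (by positivity) h3 hG).trans (le_of_eq ?_)
    rw [Real.div_rpow hy.le hK.le, Real.rpow_neg hK.le, div_eq_inv_mul]

noncomputable def om (a γ : ℝ) (l : ℕ) : ℝ := (2 : ℝ) ^ (-a * l) * (max (l : ℝ) 1) ^ γ

theorem om_pos (a γ : ℝ) (l : ℕ) : 0 < om a γ l := by unfold om; positivity

theorem W_eq (n : ℕ) (a b : ℝ) : W (n + 1) a b = Wom (n + 1) (om a (n * b)) := by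
  ext f
  refine and_congr_right fun _ => forall_congr' fun l => ?_
  have h := eLpNorm_eq_Np one_pos (continuous_layer l f)
  rw [ENNReal.ofReal_one] at h
  rw [h, ENNReal.ofReal_le_ofReal_iff (by positivity)]
  simp [om]

theorem lam_le {l L K : ℝ} (hl : 1 ≤ l) (hL : 0 < L) (h1 : l ≤ K * L) (h2 : L ≤ K * l) (γ : ℝ) :
    (max l 1) ^ γ ≤ K ^ |γ| * L ^ γ := by
  rw [max_eq_left hl]
  exact cmp_rpow (by linarith) hL h1 h2 γ

theorem le_lam {l L K : ℝ} (hl : 1 ≤ l) (hL : 0 < L) (h1 : l ≤ K * L) (h2 : L ≤ K * l) (γ : ℝ) :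
    L ^ γ ≤ K ^ |γ| * (max l 1) ^ γ := by
  rw [max_eq_left hl]
  exact cmp_rpow hL (by linarith) h2 h1 γ

theorem summable_aux {δ : ℝ} (hδ : 0 < δ) (g : ℝ) :
    Summable fun l : ℕ => (2 : ℝ) ^ (-δ * l) * (1 + l : ℝ) ^ g := by
  have h1 := two_rpow_neg_lt_one hδ
  have h0 : (0 : ℝ) < 2 ^ (-δ) := by positivity
  have h2 := summable_pow_mul_geometric_of_norm_lt_one (R := ℝ) ⌈g⌉₊ (r := 2 ^ (-δ))
    (by rwa [Real.norm_of_nonneg h0.le])
  have h3 := ((summable_nat_add_iff 1).mpr h2).mul_left (2 ^ (-δ))⁻¹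
  refine Summable.of_nonneg_of_le (fun l => by positivity) (fun l => ?_) h3
  rw [Real.rpow_mul_natCast (by norm_num), pow_succ]
  have h4 : (1 + l : ℝ) ^ g ≤ ((l + 1 : ℕ) : ℝ) ^ ⌈g⌉₊ := by
    rw [← Real.rpow_natCast]
    push_cast
    rw [add_comm]
    exact Real.rpow_le_rpow_of_exponent_le (by simp) (Nat.le_ceil g)
  calc _ ≤ (2 ^ (-δ)) ^ l * ((l + 1 : ℕ) : ℝ) ^ ⌈g⌉₊ := by gcongr
    _ = _ := by field_simp

theorem om_tail {β a : ℝ} (ha : β < a) (γ : ℝ) :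
    Summable (fun l : ℕ => (2 : ℝ) ^ (β * l) * om a γ l) ∧ ∃ C : ℝ, 0 < C ∧ ∀ L : ℕ, 1 ≤ L →
      ∑' l : ℕ, (2 : ℝ) ^ (β * (l + L : ℕ)) * om a γ (l + L) ≤
        C * (2 ^ (-(a - β) * L) * (L : ℝ) ^ γ) := by
  have hs := summable_aux (sub_pos.mpr ha) |γ|
  have key : ∀ L : ℕ, 1 ≤ L → ∀ l : ℕ, (2 : ℝ) ^ (β * (l + L : ℕ)) * om a γ (l + L) ≤
      ((2 : ℝ) ^ (-(a - β) * l) * (1 + l : ℝ) ^ |γ|) * (2 ^ (-(a - β) * L) * (L : ℝ) ^ γ) := by
    intro L hL l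
    have hL' : (1 : ℝ) ≤ L := by exact_mod_cast hL
    have hl : (0 : ℝ) ≤ l := by positivity
    have h1 := lam_le (l := (l + L : ℕ)) (L := L) (K := 1 + l) (by push_cast; linarith)
      (by linarith) (by push_cast; nlinarith) (by push_cast; nlinarith) γ
    have h2 : (2 : ℝ) ^ (β * (l + L : ℕ)) * 2 ^ (-a * (l + L : ℕ)) =
        2 ^ (-(a - β) * l) * 2 ^ (-(a - β) * L) := by
      rw [← Real.rpow_add (by norm_num), ← Real.rpow_add (by norm_num)]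
      congr 1; push_cast; ring
    rw [om, ← mul_assoc, h2]
    calc _ ≤ 2 ^ (-(a - β) * l) * 2 ^ (-(a - β) * L) * ((1 + l) ^ |γ| * (L : ℝ) ^ γ) := by gcongr
      _ = _ := by ring
  have hsum : ∀ L : ℕ, 1 ≤ L →
      Summable fun l : ℕ => (2 : ℝ) ^ (β * (l + L : ℕ)) * om a γ (l + L) := fun L hL =>
    Summable.of_nonneg_of_le (fun l => by have := om_pos a γ (l + L); positivity) (key L hL)
      (hs.mul_right _)
  refine ⟨(summable_nat_add_iff 1).mp (hsum 1 le_rfl), _,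
    hs.tsum_pos (fun l => by positivity) 0 (by simp), fun L hL => ?_⟩
  rw [← tsum_mul_right]
  exact (hsum L hL).tsum_le_tsum (key L hL) (hs.mul_right _)

theorem geo_down {δ : ℝ} (hδ : 0 < δ) : ∃ C : ℝ, 0 < C ∧ ∀ (N : ℕ) (S : Finset ℕ),
    (∀ l ∈ S, N ≤ l) → ∑ l ∈ S, (2 : ℝ) ^ (-δ * (l - N)) ≤ C := by
  obtain ⟨C, hC, h⟩ := geo1' hδ
  refine ⟨C, hC, fun N S hS => le_trans (le_of_eq ?_) (h S N)⟩
  refine Finset.sum_congr rfl fun l hl => ?_
  rw [Nat.dist_eq_sub_of_le_right (hS l hl), Nat.cast_sub (hS l hl)]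

theorem geo_up {δ : ℝ} (hδ : 0 < δ) : ∃ C : ℝ, 0 < C ∧ ∀ (N : ℕ) (S : Finset ℕ),
    (∀ l ∈ S, l ≤ N) → ∑ l ∈ S, (2 : ℝ) ^ (-δ * (N - l)) ≤ C := by
  obtain ⟨C, hC, h⟩ := geo1' hδ
  refine ⟨C, hC, fun N S hS => le_trans (le_of_eq ?_) (h S N)⟩
  refine Finset.sum_congr rfl fun l hl => ?_
  rw [Nat.dist_eq_sub_of_le (hS l hl), Nat.cast_sub (hS l hl)]

theorem ev_log (c : ℝ) : ∀ᶠ L : ℕ in atTop, c ≤ Real.log L :=
  (Real.tendsto_log_atTop.comp tendsto_natCast_atTop_atTop).eventually_ge_atTop c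

theorem ev_nat (c : ℝ) : ∀ᶠ L : ℕ in atTop, c ≤ L :=
  tendsto_natCast_atTop_atTop.eventually_ge_atTop c

theorem ev_log_small {c : ℝ} (hc : 0 < c) : ∀ᶠ L : ℕ in atTop, c * Real.log L ≤ L := by
  have h := (Real.isLittleO_log_id_atTop.comp_tendsto tendsto_natCast_atTop_atTop).bound
    (inv_pos.mpr hc)
  filter_upwards [h] with L hL
  simp only [Function.comp_apply, Real.norm_eq_abs, id_eq, Nat.abs_cast] at hL
  rw [← le_inv_mul_iff₀ hc]
  exact (le_abs_self _).trans hL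

theorem exists_N (n : ℕ) : ∀ᶠ L : ℕ in atTop, ∃ N : ℕ, N < L ∧ L ≤ 2 * N ∧
    2 ^ (n + 2) * (2 ^ N * L ^ n) ≤ 2 ^ L ∧ 2 ^ L ≤ 2 ^ (2 * n + 2) * (2 ^ N * L ^ n) ∧
    ((L - N : ℕ) : ℝ) ≤ (5 * n + 2) * Real.log L := by
  filter_upwards [ev_log 1, ev_log_small (c := 2 * (5 * n + 2)) (by positivity),
    eventually_ge_atTop 2] with L h1 h2 h3
  have c1 : L ≤ 2 ^ Nat.clog 2 L := Nat.le_pow_clog (by norm_num) L
  have c2 : 2 ^ Nat.clog 2 L ≤ 2 * L := by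
    have h4 := Nat.pow_pred_clog_lt_self (b := 2) (by norm_num) (show 1 < L by omega)
    have h5 : 0 < Nat.clog 2 L := Nat.clog_pos (by norm_num) h3
    obtain ⟨j, hj⟩ : ∃ j, Nat.clog 2 L = j + 1 := ⟨_, (Nat.succ_pred_eq_of_pos h5).symm⟩
    rw [hj] at h4 ⊢
    simp only [Nat.pred_eq_sub_one, Nat.add_one_sub_one] at h4
    omega
  have c3 : (Nat.clog 2 L : ℝ) ≤ 4 * Real.log L := by
    have h4 : ((2 : ℝ) ^ Nat.clog 2 L) ≤ 2 * L := by exact_mod_cast c2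
    have hL : (0 : ℝ) < L := by positivity
    have h5 := Real.log_le_log (by positivity) h4
    rw [Real.log_pow, Real.log_mul (by norm_num) hL.ne'] at h5
    have h6 := Real.log_two_gt_d9
    have h7 := Real.log_two_lt_d9
    have : (0 : ℝ) ≤ Nat.clog 2 L := by positivity
    nlinarith
  set J := n * Nat.clog 2 L + n + 2 with hJ
  have c4 : (J : ℝ) ≤ (5 * n + 2) * Real.log L := by
    rw [hJ]; push_cast
    have : (0 : ℝ) ≤ n := by positivity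
    nlinarith
  have c5 : 2 * J ≤ L := by
    have : (2 * J : ℝ) ≤ L := by linarith
    exact_mod_cast this
  obtain ⟨N, hN⟩ : ∃ N, L = N + J := ⟨L - J, by omega⟩
  have e1 : 2 ^ L = 2 ^ (n + 2) * (2 ^ N * (2 ^ Nat.clog 2 L) ^ n) := by
    conv_lhs => rw [hN, hJ]
    ring
  refine ⟨N, by omega, by omega, ?_, ?_, ?_⟩
  · rw [e1]; gcongr
  · rw [e1]
    calc _ ≤ 2 ^ (n + 2) * (2 ^ N * (2 * L) ^ n) := by gcongr
      _ = _ := by ring
  · rwa [show L - N = J by omega]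

noncomputable def psi (A G κ : ℝ) (L : ℕ) : ℝ :=
  (2 : ℝ) ^ (A * L) * (L : ℝ) ^ G * Real.log L ^ κ

def UB (σ : ℕ → ENNReal) (A G κ : ℝ) : Prop :=
  ∃ C : ℝ, 0 < C ∧ ∀ᶠ L : ℕ in atTop, σ (2 ^ L) ≤ ENNReal.ofReal (C * psi A G κ L)

def LB (σ : ℕ → ENNReal) (A G κ : ℝ) : Prop :=
  ∃ c : ℝ, 0 < c ∧ ∀ᶠ L : ℕ in atTop, ENNReal.ofReal (c * psi A G κ L) ≤ σ (2 ^ L)

theorem cmp_psi (A G κ : ℝ) {m M : ℕ} (hM : 16 ≤ M) (h1 : 2 ^ M ≤ 2 * m) (h2 : m ≤ 2 * 2 ^ M) :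
    psi A G κ M ≤ 2 ^ |A| * 4 ^ |G| * 2 ^ |κ| *
      ((m : ℝ) ^ A * Real.log m ^ G * Real.log (Real.log m) ^ κ) ∧
    (m : ℝ) ^ A * Real.log m ^ G * Real.log (Real.log m) ^ κ ≤
      2 ^ |A| * 4 ^ |G| * 2 ^ |κ| * psi A G κ M := by
  have hM' : (16 : ℝ) ≤ M := by exact_mod_cast hM
  have a1 : (2 : ℝ) ^ M ≤ 2 * m := by exact_mod_cast h1
  have a2 : (m : ℝ) ≤ 2 * 2 ^ M := by exact_mod_cast h2
  have hm : (0 : ℝ) < m := by have : (0 : ℝ) < 2 ^ M := by positivity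
                              linarith
  have l6 := Real.log_two_gt_d9
  have l7 := Real.log_two_lt_d9
  have b1 := Real.log_le_log (by positivity) a1
  have b2 := Real.log_le_log hm a2
  rw [Real.log_pow, Real.log_mul (by norm_num) hm.ne'] at b1
  rw [Real.log_mul (by norm_num) (by positivity), Real.log_pow] at b2
  have b3 : (M : ℝ) ≤ 2 * Real.log m := by nlinarith
  have b4 : Real.log m ≤ M := by nlinarith
  have b5 : 0 < Real.log m := by linarith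
  have hM0 : (0 : ℝ) < M := by linarith
  have c1 := Real.log_le_log hM0 b3
  have c2 := Real.log_le_log b5 b4
  rw [Real.log_mul (by norm_num) b5.ne'] at c1
  have c3 : 4 * Real.log 2 ≤ Real.log M := by
    have := Real.log_le_log (by norm_num) hM'
    rw [show (16 : ℝ) = 2 ^ 4 by norm_num, Real.log_pow] at this
    simpa using this
  have c4 : 0 < Real.log M := by linarith
  have c5 : 0 < Real.log (Real.log m) := by linarith
  have e1 : (2 : ℝ) ^ (A * M) = ((2 : ℝ) ^ M) ^ A := by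
    rw [← Real.rpow_natCast, ← Real.rpow_mul (by norm_num), mul_comm]
  rw [psi, e1]
  constructor
  · have d1 := cmp_rpow (by positivity) hm a1 a2 A
    have d2 := cmp_rpow (K := 4) hM0 b5 (by linarith) (by linarith) G
    have d3 := cmp_rpow (K := 2) c4 c5 (by linarith) (by linarith) κ
    calc _ ≤ (2 ^ |A| * (m : ℝ) ^ A) * (4 ^ |G| * Real.log m ^ G) *
          (2 ^ |κ| * Real.log (Real.log m) ^ κ) := by gcongr
      _ = _ := by ring
  · have d1 := cmp_rpow hm (by positivity) a2 a1 A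
    have d2 := cmp_rpow (K := 4) b5 hM0 (by linarith) (by linarith) G
    have d3 := cmp_rpow (K := 2) c5 c4 (by linarith) (by linarith) κ
    calc _ ≤ (2 ^ |A| * ((2 : ℝ) ^ M) ^ A) * (4 ^ |G| * (M : ℝ) ^ G) *
          (2 ^ |κ| * Real.log M ^ κ) := by gcongr
      _ = _ := by ring

theorem transfer {σ : ℕ → ENNReal} (hσ : Antitone σ) {A G κ : ℝ} (hU : UB σ A G κ)
    (hL : LB σ A G κ) : ∃ c C : ℝ, 0 < c ∧ 0 < C ∧ ∀ᶠ m : ℕ in atTop,
    ENNReal.ofReal (c * ((m : ℝ) ^ A * Real.log m ^ G * Real.log (Real.log m) ^ κ)) ≤ σ m ∧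
    σ m ≤ ENNReal.ofReal (C * ((m : ℝ) ^ A * Real.log m ^ G * Real.log (Real.log m) ^ κ)) := by
  obtain ⟨C, hC, hU⟩ := hU
  obtain ⟨c, hc, hL⟩ := hL
  set K : ℝ := 2 ^ |A| * 4 ^ |G| * 2 ^ |κ| with hK
  have hK0 : 0 < K := by positivity
  refine ⟨c / K, C * K, by positivity, by positivity, ?_⟩
  have ht : Tendsto (Nat.log 2) atTop atTop := by
    refine tendsto_atTop_atTop.mpr fun b => ⟨2 ^ b, fun m hm => ?_⟩
    exact Nat.le_log_of_pow_le (by norm_num) hm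
  have ht1 : Tendsto (fun m => Nat.log 2 m + 1) atTop atTop := (tendsto_add_atTop_nat 1).comp ht
  filter_upwards [ht.eventually hU, ht1.eventually hL, ht.eventually_ge_atTop 16,
    eventually_ge_atTop 1] with m h1 h2 h3 h4
  have a1 : 2 ^ Nat.log 2 m ≤ m := Nat.pow_log_le_self 2 (by omega)
  have a2 : m < 2 ^ (Nat.log 2 m + 1) := Nat.lt_pow_succ_log_self (by norm_num) m
  constructor
  · refine le_trans (ENNReal.ofReal_le_ofReal ?_) (h2.trans (hσ a2.le))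
    have := (cmp_psi A G κ (m := m) (M := Nat.log 2 m + 1) (by omega) (by rw [pow_succ]; omega)
      (by omega)).2
    rw [div_mul_eq_mul_div, div_le_iff₀ hK0]
    nlinarith
  · refine ((hσ a1).trans h1).trans (ENNReal.ofReal_le_ofReal ?_)
    have := (cmp_psi A G κ (m := m) (M := Nat.log 2 m) h3 (by omega)
      (by rw [pow_succ] at a2; omega)).1
    rw [mul_assoc]
    gcongr

theorem sigmaClass_antitone {d : ℕ} (p : ℝ) (F : Set (TT d → ℂ)) :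
    Antitone fun m => sigmaClass m p F := by
  intro m m' h
  refine iSup₂_mono fun f _ => ?_
  exact iInf_mono fun K => iInf_mono' fun hK => ⟨hK.trans h, le_rfl⟩

theorem sigmaClass_mono_exp {d m : ℕ} {p q : ℝ} (hpq : p ≤ q) (ω : ℕ → ℝ) :
    sigmaClass m p (Wom d ω) ≤ sigmaClass m q (Wom d ω) := by
  refine iSup₂_mono fun f hf => iInf_mono fun K => iInf_mono fun _ => iInf_mono fun c => ?_
  exact eLpNorm_le_eLpNorm_of_exponent_le (ENNReal.ofReal_le_ofReal hpq)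
    (hf.1.aestronglyMeasurable.sub (continuous_tp K c).aestronglyMeasurable)

end Pool.Agent.P.MP_33127d_an
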