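import Pool.Agent.P.MP_33127d_an.Defs

namespace Pool.Agent.P.MP_33127d_an

open MeasureTheory UnitAddTorus Finset
open scoped ComplexConjugate

abbrev TT (d : ℕ) := UnitAddTorus (Fin d)
abbrev ZZ (d : ℕ) := Fin d → ℤ

variable {d : ℕ}

instance : IsProbabilityMeasure (haar d) := by unfold haar; infer_instance

noncomputable def e (k : ZZ d) (x : TT d) : ℂ := mFourier k x

noncomputable def coef (f : TT d → ℂ) (k : ZZ d) : ℂ := ∫ x, e (-k) x * f x ∂haar d

theorem coef_eq (f : TT d → ℂ) (k : ZZ d) : mFourierCoeff f k = coef f k := rfl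

noncomputable def tp (K : Finset (ZZ d)) (c : ZZ d → ℂ) (x : TT d) : ℂ := ∑ k ∈ K, c k * e k x

@[fun_prop] theorem continuous_e (k : ZZ d) : Continuous (e k) := (mFourier k).continuous

@[fun_prop] theorem continuous_tp (K : Finset (ZZ d)) (c : ZZ d → ℂ) : Continuous (tp K c) := by
  unfold tp; fun_prop

theorem e_add (k m : ZZ d) (x : TT d) : e (k + m) x = e k x * e m x := mFourier_add

theorem e_neg (k : ZZ d) (x : TT d) : e (-k) x = conj (e k x) := mFourier_neg

@[simp] theorem e_zero (x : TT d) : e 0 x = 1 := by simp [e, mFourier_zero]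

@[simp] theorem norm_e (k : ZZ d) (x : TT d) : ‖e k x‖ = 1 := by
  simp [e, mFourier, fourier_apply]

theorem e_eq_prod (k : ZZ d) (x : TT d) : e k x = ∏ j, fourier (k j) (x j) := rfl

theorem e_sub (k : ZZ d) (x y : TT d) : e k (x - y) = e k x * e (-k) y := by
  simp only [e_eq_prod, ← Finset.prod_mul_distrib]
  refine Finset.prod_congr rfl fun j _ => ?_
  simp only [fourier_apply, Pi.sub_apply, Pi.neg_apply, smul_sub, neg_smul]
  rw [sub_eq_add_neg, AddCircle.toCircle_add, Circle.coe_mul]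

theorem cint {E : Type*} [NormedAddCommGroup E] {f : TT d → E} (hf : Continuous f) :
    Integrable f (haar d) :=
  hf.integrable_of_hasCompactSupport (HasCompactSupport.of_compactSpace f)

theorem cmem {E : Type*} [NormedAddCommGroup E] {f : TT d → E} (hf : Continuous f) (p : ENNReal) :
    MemLp f p (haar d) :=
  hf.memLp_of_hasCompactSupport (HasCompactSupport.of_compactSpace f)

theorem integral_e (k : ZZ d) : ∫ x, e k x ∂haar d = if k = 0 then 1 else 0 := by
  have h := (orthonormal_iff_ite.mp (orthonormal_mFourier (d := Fin d))) 0 k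
  simp only [ContinuousMap.inner_toLp, ← mFourier_neg, ← mFourier_add] at h
  simp only [neg_zero, add_zero] at h
  rw [show (if k = 0 then (1 : ℂ) else 0) = if 0 = k then 1 else 0 by simp [eq_comm], ← h]
  rfl

theorem int_mul_e {h : TT d → ℂ} (hh : Integrable h (haar d)) (k : ZZ d) :
    Integrable (fun x => e k x * h x) (haar d) :=
  hh.bdd_mul (c := 1) (continuous_e k).aestronglyMeasurable (by simp)

theorem integral_tp_mul (K : Finset (ZZ d)) (c : ZZ d → ℂ) {h : TT d → ℂ}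
    (hh : Integrable h (haar d)) :
    ∫ x, tp K c x * h x ∂haar d = ∑ k ∈ K, c k * coef h (-k) := by
  simp only [tp, Finset.sum_mul, mul_assoc]
  rw [integral_finsetSum _ fun k _ => (int_mul_e hh k).const_mul _]
  simp only [integral_const_mul, coef, neg_neg]

theorem coef_e (k m : ZZ d) : coef (e k) m = if k = m then 1 else 0 := by
  simp only [coef, ← e_add, integral_e]
  congr 1
  rw [neg_add_eq_zero]
  exact propext eq_comm

theorem coef_tp (K : Finset (ZZ d)) (c : ZZ d → ℂ) (m : ZZ d) :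
    coef (tp K c) m = if m ∈ K then c m else 0 := by
  have := integral_tp_mul K c (cint (continuous_e (-m)))
  simp only [coef_e, neg_inj] at this
  rw [coef]
  simp_rw [mul_comm (e (-m) _)]
  rw [this]
  simp [Finset.sum_ite_eq]

theorem integral_tp (K : Finset (ZZ d)) (c : ZZ d → ℂ) :
    ∫ x, tp K c x ∂haar d = if 0 ∈ K then c 0 else 0 := by
  rw [← coef_tp]; simp [coef]

theorem norm_coef_le (h : TT d → ℂ) (k : ZZ d) : ‖coef h k‖ ≤ ∫ x, ‖h x‖ ∂haar d := by
  refine (norm_integral_le_integral_norm _).trans (le_of_eq ?_)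
  simp

theorem norm_tp_le (K : Finset (ZZ d)) (c : ZZ d → ℂ) (x : TT d) :
    ‖tp K c x‖ ≤ ∑ k ∈ K, ‖c k‖ := by
  refine (norm_sum_le _ _).trans (le_of_eq ?_)
  simp

theorem coef_conj (h : TT d → ℂ) (k : ZZ d) :
    coef (fun x => conj (h x)) (-k) = conj (coef h k) := by
  simp only [coef, ← integral_conj, map_mul, e_neg, neg_neg, Complex.conj_conj]

theorem parseval (K : Finset (ZZ d)) (c : ZZ d → ℂ) :
    ∫ x, ‖tp K c x‖ ^ 2 ∂haar d = ∑ k ∈ K, ‖c k‖ ^ 2 := by
  have h := integral_tp_mul K c (h := fun x => conj (tp K c x)) (cint (by fun_prop))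
  simp only [coef_conj, coef_tp, Complex.mul_conj, Complex.normSq_eq_norm_sq] at h
  rw [integral_complex_ofReal] at h
  have h2 : ∑ k ∈ K, c k * conj (if k ∈ K then c k else 0) = ((∑ k ∈ K, ‖c k‖ ^ 2 : ℝ) : ℂ) := by
    push_cast
    refine Finset.sum_congr rfl fun k hk => ?_
    simp [hk, Complex.mul_conj, Complex.normSq_eq_norm_sq]
  rw [h2] at h
  exact_mod_cast h

theorem tp_congr {K : Finset (ZZ d)} {c c' : ZZ d → ℂ} (h : ∀ k ∈ K, c k = c' k) :
    tp K c = tp K c' := by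
  funext x
  exact Finset.sum_congr rfl fun k hk => by rw [h k hk]

theorem tp_subset {K K' : Finset (ZZ d)} (hK : K ⊆ K') (c : ZZ d → ℂ) :
    tp K c = tp K' fun k => if k ∈ K then c k else 0 := by
  funext x
  simp only [tp, ite_mul, zero_mul]
  rw [Finset.sum_ite_mem, Finset.inter_eq_right.mpr hK]

theorem tp_subset' {K K' : Finset (ZZ d)} (hK : K ⊆ K') {c : ZZ d → ℂ}
    (h : ∀ k ∈ K', k ∉ K → c k = 0) : tp K c = tp K' c := by
  rw [tp_subset hK]
  refine tp_congr fun k hk => ?_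
  split_ifs with h1
  · rfl
  · exact (h k hk h1).symm

theorem coef_add {f g : TT d → ℂ} (hf : Integrable f (haar d)) (hg : Integrable g (haar d))
    (k : ZZ d) : coef (fun x => f x + g x) k = coef f k + coef g k := by
  simp only [coef, mul_add]
  exact integral_add (int_mul_e hf _) (int_mul_e hg _)

theorem coef_sub {f g : TT d → ℂ} (hf : Integrable f (haar d)) (hg : Integrable g (haar d))
    (k : ZZ d) : coef (fun x => f x - g x) k = coef f k - coef g k := by
  simp only [coef, mul_sub]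
  exact integral_sub (int_mul_e hf _) (int_mul_e hg _)

theorem coef_sum {ι : Type*} (S : Finset ι) {f : ι → TT d → ℂ}
    (hf : ∀ i ∈ S, Integrable (f i) (haar d)) (k : ZZ d) :
    coef (fun x => ∑ i ∈ S, f i x) k = ∑ i ∈ S, coef (f i) k := by
  simp only [coef, Finset.mul_sum]
  exact integral_finsetSum _ fun i hi => int_mul_e (hf i hi) _

/-- real `L_p` norm -/
noncomputable def Np (p : ℝ) (u : TT d → ℂ) : ℝ := (∫ x, ‖u x‖ ^ p ∂haar d) ^ p⁻¹

theorem Np_nonneg (p : ℝ) (u : TT d → ℂ) : 0 ≤ Np p u := by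
  unfold Np; positivity

theorem Np_rpow {p : ℝ} (hp : 0 < p) (u : TT d → ℂ) :
    Np p u ^ p = ∫ x, ‖u x‖ ^ p ∂haar d := by
  unfold Np
  exact Real.rpow_inv_rpow (by positivity) hp.ne'

theorem Np_one (u : TT d → ℂ) : Np 1 u = ∫ x, ‖u x‖ ∂haar d := by simp [Np]

theorem eLpNorm_eq_Np {p : ℝ} (hp : 0 < p) {u : TT d → ℂ} (hu : Continuous u) :
    eLpNorm u (ENNReal.ofReal p) (haar d) = ENNReal.ofReal (Np p u) := by
  rw [(cmem hu _).eLpNorm_eq_integral_rpow_norm (by simpa using hp) (by simp),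
    ENNReal.toReal_ofReal hp.le, Np]

theorem Np_eq_lpNorm {p : ℝ} (hp : 0 < p) {u : TT d → ℂ} (hu : Continuous u) :
    Np p u = lpNorm u (ENNReal.ofReal p) (haar d) := by
  rw [← toReal_eLpNorm hu.aestronglyMeasurable, eLpNorm_eq_Np hp hu,
    ENNReal.toReal_ofReal (Np_nonneg _ _)]

theorem Np_le_of_integral_le {p A : ℝ} (hp : 0 < p) (hA : 0 ≤ A) {u : TT d → ℂ}
    (h : ∫ x, ‖u x‖ ^ p ∂haar d ≤ A ^ p) : Np p u ≤ A := by
  rw [← Np_rpow hp] at h
  exact (Real.rpow_le_rpow_iff (Np_nonneg _ _) hA hp).mp h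

theorem Np_add_le {p : ℝ} (hp : 1 ≤ p) {u v : TT d → ℂ} (hu : Continuous u) (hv : Continuous v) :
    Np p (fun x => u x + v x) ≤ Np p u + Np p v := by
  have hp0 : 0 < p := by linarith
  rw [Np_eq_lpNorm hp0 hu, Np_eq_lpNorm hp0 hv, Np_eq_lpNorm hp0 (by fun_prop)]
  exact lpNorm_add_le (cmem hu _) (by simpa using hp)

theorem Np_sub_le {p : ℝ} (hp : 1 ≤ p) {u v : TT d → ℂ} (hu : Continuous u) (hv : Continuous v) :
    Np p (fun x => u x - v x) ≤ Np p u + Np p v := by
  have hp0 : 0 < p := by linarith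
  rw [Np_eq_lpNorm hp0 hu, Np_eq_lpNorm hp0 hv, Np_eq_lpNorm hp0 (by fun_prop)]
  exact lpNorm_sub_le (cmem hu _) (by simpa using hp)

theorem Np_sum_le {p : ℝ} (hp : 1 ≤ p) {ι : Type*} (S : Finset ι) {u : ι → TT d → ℂ}
    (hu : ∀ i, Continuous (u i)) :
    Np p (fun x => ∑ i ∈ S, u i x) ≤ ∑ i ∈ S, Np p (u i) := by
  have hp0 : 0 < p := by linarith
  rw [Np_eq_lpNorm hp0 (by fun_prop)]
  simp_rw [fun i => Np_eq_lpNorm hp0 (hu i)]
  have := lpNorm_sum_le (μ := haar d) (p := ENNReal.ofReal p) (s := S) (f := u)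
    (fun i _ => cmem (hu i) _) (by simpa using hp)
  convert this using 2
  funext x; simp

theorem Np_const_mul {p : ℝ} (hp : 0 < p) (c : ℂ) (u : TT d → ℂ) :
    Np p (fun x => c * u x) = ‖c‖ * Np p u := by
  simp only [Np, norm_mul, Real.mul_rpow (norm_nonneg _) (norm_nonneg _), integral_const_mul]
  rw [Real.mul_rpow (by positivity) (by positivity), Real.rpow_rpow_inv (norm_nonneg _) hp.ne']

theorem Np_mono_exp {p q : ℝ} (hp : 0 < p) (hpq : p ≤ q) {u : TT d → ℂ} (hu : Continuous u) :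
    Np p u ≤ Np q u := by
  have h := eLpNorm_le_eLpNorm_of_exponent_le (μ := haar d) (f := u)
    (ENNReal.ofReal_le_ofReal hpq) hu.aestronglyMeasurable
  rw [eLpNorm_eq_Np hp hu, eLpNorm_eq_Np (hp.trans_le hpq) hu] at h
  exact (ENNReal.ofReal_le_ofReal_iff (Np_nonneg _ _)).mp h

theorem holder {p q : ℝ} (hpq : p.HolderConjugate q) {f g : TT d → ℝ} (hf : Continuous f)
    (hg : Continuous g) (hf0 : ∀ x, 0 ≤ f x) (hg0 : ∀ x, 0 ≤ g x) :
    ∫ x, f x * g x ∂haar d ≤
      (∫ x, f x ^ p ∂haar d) ^ p⁻¹ * (∫ x, g x ^ q ∂haar d) ^ q⁻¹ := by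
  have := integral_mul_le_Lp_mul_Lq_of_nonneg (μ := haar d) hpq (ae_of_all _ hf0)
    (ae_of_all _ hg0) (cmem hf _) (cmem hg _)
  simpa only [one_div] using this

theorem norm_integral_mul_le {p q : ℝ} (hpq : p.HolderConjugate q) {f g : TT d → ℂ}
    (hf : Continuous f) (hg : Continuous g) :
    ‖∫ x, f x * g x ∂haar d‖ ≤ Np p f * Np q g := by
  refine (norm_integral_le_integral_norm _).trans ?_
  simp only [norm_mul]
  exact holder hpq hf.norm hg.norm (fun _ => norm_nonneg _) fun _ => norm_nonneg _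

theorem jensen {θ A B : ℝ} (h0 : 0 < θ) (h1 : θ ≤ 1) {w H : TT d → ℝ} (hw : Continuous w)
    (hH : Continuous H) (hw0 : ∀ x, 0 ≤ w x) (hH0 : ∀ x, 0 ≤ H x)
    (hA : ∫ x, w x ∂haar d ≤ A) (hB : ∫ x, w x * H x ∂haar d ≤ B) :
    ∫ x, w x * H x ^ θ ∂haar d ≤ A ^ (1 - θ) * B ^ θ := by
  rcases h1.eq_or_lt with rfl | h1
  · simpa using hB
  have hpq : (1 - θ)⁻¹.HolderConjugate θ⁻¹ := by
    rw [Real.holderConjugate_iff]
    refine ⟨?_, by simp⟩
    rw [one_lt_inv₀] <;> linarith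
  have h := holder hpq (f := fun x => w x ^ (1 - θ)) (g := fun x => (w x * H x) ^ θ)
    (hw.rpow_const fun _ => Or.inr (by linarith))
    ((hw.mul hH).rpow_const fun _ => Or.inr h0.le)
    (fun x => Real.rpow_nonneg (hw0 x) _)
    (fun x => Real.rpow_nonneg (mul_nonneg (hw0 x) (hH0 x)) _)
  have e1 : ∀ x, w x ^ (1 - θ) * (w x * H x) ^ θ = w x * H x ^ θ := by
    intro x
    rw [Real.mul_rpow (hw0 x) (hH0 x), ← mul_assoc, ← Real.rpow_add' (hw0 x) (by linarith)]
    simp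
  have e2 : ∀ x, (w x ^ (1 - θ)) ^ (1 - θ)⁻¹ = w x := fun x =>
    Real.rpow_rpow_inv (hw0 x) (by linarith)
  have e3 : ∀ x, ((w x * H x) ^ θ) ^ θ⁻¹ = w x * H x := fun x =>
    Real.rpow_rpow_inv (mul_nonneg (hw0 x) (hH0 x)) h0.ne'
  simp only [e1, e2, e3, inv_inv] at h
  refine h.trans ?_
  have i1 : 0 ≤ ∫ x, w x ∂haar d := integral_nonneg hw0
  have i2 : 0 ≤ ∫ x, w x * H x ∂haar d := integral_nonneg fun x => mul_nonneg (hw0 x) (hH0 x)
  have : 0 ≤ 1 - θ := by linarith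
  have : 0 ≤ A := i1.trans hA
  gcongr

end Pool.Agent.P.MP_33127d_an
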