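import Pool.Agent.P.MP_33127d_an.Layer

namespace Pool.Agent.P.MP_33127d_an

open MeasureTheory Finset Filter Topology UnitAddTorus

variable {d : ℕ}

theorem int_cm (φ : C(TT d, ℂ)) {h : TT d → ℂ} (hh : Integrable h (haar d)) :
    Integrable (fun x => φ x * h x) (haar d) :=
  hh.bdd_mul (c := ‖φ‖) φ.continuous.aestronglyMeasurable (ae_of_all _ φ.norm_coe_le_norm)

theorem uniq {h : TT d → ℂ} (hh : Integrable h (haar d)) (h0 : ∀ k, coef h k = 0) :
    h =ᵐ[haar d] 0 := by
  let L0 : C(TT d, ℂ) →ₗ[ℂ] ℂ :=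
    { toFun := fun φ => ∫ x, φ x * h x ∂haar d
      map_add' := fun φ ψ => by
        simp only [ContinuousMap.add_apply, add_mul]
        exact integral_add (int_cm φ hh) (int_cm ψ hh)
      map_smul' := fun c φ => by
        simp only [ContinuousMap.smul_apply, smul_eq_mul, mul_assoc, RingHom.id_apply]
        exact integral_const_mul _ _ }
  let L : C(TT d, ℂ) →L[ℂ] ℂ := L0.mkContinuous (∫ x, ‖h x‖ ∂haar d) fun φ => by
    refine (norm_integral_le_integral_norm _).trans ?_
    rw [mul_comm, ← integral_const_mul]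
    refine integral_mono (int_cm φ hh).norm (hh.norm.const_mul _) fun x => ?_
    simp only [norm_mul]
    exact mul_le_mul_of_nonneg_right (φ.norm_coe_le_norm x) (norm_nonneg _)
  have hL : ∀ φ, L φ = 0 := by
    have h1 : Submodule.span ℂ (Set.range (mFourier (d := Fin d))) ≤ L.ker := by
      rw [Submodule.span_le]
      rintro _ ⟨k, rfl⟩
      have := h0 (-k)
      rw [coef, neg_neg] at this
      exact this
    have h2 := Submodule.topologicalClosure_minimal _ h1 L.isClosed_ker
    rw [span_mFourier_closure_eq_top] at h2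
    exact fun φ => h2 Submodule.mem_top
  refine ae_eq_zero_of_forall_setIntegral_isClosed_eq_zero hh fun F hF => ?_
  have hlim : Tendsto (fun n => ∫ x, ((hF.apprSeq n x : ℝ) : ℂ) * h x ∂haar d) atTop
      (𝓝 (∫ x, F.indicator h x ∂haar d)) := by
    refine tendsto_integral_of_dominated_convergence (fun x => ‖h x‖) (fun n => ?_) hh.norm
      (fun n => ae_of_all _ fun x => ?_) (ae_of_all _ fun x => ?_)
    · exact (Continuous.aestronglyMeasurable (by fun_prop)).mul hh.aestronglyMeasurable
    · rw [norm_mul, Complex.norm_real, Real.norm_of_nonneg (by positivity)]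
      have : (hF.apprSeq n x : ℝ) ≤ 1 := by
        exact_mod_cast HasOuterApproxClosed.apprSeq_apply_le_one hF n x
      exact mul_le_of_le_one_left (norm_nonneg _) this
    · have h1 := tendsto_pi_nhds.mp (HasOuterApproxClosed.tendsto_apprSeq hF) x
      have h2 := ((Complex.continuous_ofReal.comp NNReal.continuous_coe).tendsto _).comp h1
      have h3 := h2.mul_const (h x)
      convert h3 using 2
      · rfl
      · by_cases hx : x ∈ F <;> simp [hx]
  have hz : ∀ n, ∫ x, ((hF.apprSeq n x : ℝ) : ℂ) * h x ∂haar d = 0 := fun n =>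
    hL ⟨fun x => ((hF.apprSeq n x : ℝ) : ℂ), by fun_prop⟩
  simp only [hz, tendsto_const_nhds_iff] at hlim
  rw [← integral_indicator hF.measurableSet, ← hlim]

noncomputable def psum (N : ℕ) (f : TT d → ℂ) (x : TT d) : ℂ := ∑ l ∈ range N, layer l f x

@[fun_prop] theorem continuous_psum (N : ℕ) (f : TT d → ℂ) : Continuous (psum N f) := by
  unfold psum; fun_prop

theorem coef_psum (f : TT d → ℂ) (k : ZZ d) : ∀ᶠ N in atTop, coef (psum N f) k = coef f k := by
  obtain ⟨l, hl⟩ := exists_Delta k
  filter_upwards [eventually_gt_atTop l] with N hN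
  unfold psum
  rw [coef_sum _ fun i _ => cint (continuous_layer i f), Finset.sum_eq_single l]
  · simp [layer_eq, coef_tp, hl]
  · intro i _ hi
    rw [layer_eq, coef_tp, if_neg fun hc => hi (Delta_unique hc hl)]
  · intro hc
    exact absurd (Finset.mem_range.mpr hN) hc

theorem tail_est {p : ℝ} (hp : 1 ≤ p) {f : TT d → ℂ} (hf : Integrable f (haar d)) {τ : ℕ → ℝ}
    (hτ : Summable τ) (h : ∀ l, Np p (layer l f) ≤ τ l) (L : ℕ) {t : TT d → ℂ}
    (ht : Continuous t) :
    eLpNorm (fun x => f x - t x) (ENNReal.ofReal p) (haar d) ≤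
      ENNReal.ofReal (Np p (fun x => psum L f x - t x) + ∑' l, τ (l + L)) := by
  have hp0 : 0 < p := by linarith
  have hP : 1 ≤ ENNReal.ofReal p := by simpa using hp
  have : Fact (1 ≤ ENNReal.ofReal p) := ⟨hP⟩
  let g : ℕ → Lp ℂ (ENNReal.ofReal p) (haar d) := fun l => (cmem (continuous_layer l f) _).toLp
  have hg : ∀ l, ‖g l‖ ≤ τ l := fun l => by
    rw [Lp.norm_toLp, eLpNorm_eq_Np hp0 (continuous_layer l f),
      ENNReal.toReal_ofReal (Np_nonneg _ _)]
    exact h l
  have hτ0 : ∀ l, 0 ≤ τ l := fun l => (norm_nonneg _).trans (hg l)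
  have hgs : Summable g := Summable.of_norm_bounded hτ hg
  have hS : ∀ N, (∑ l ∈ range N, g l : Lp ℂ _ _) =ᵐ[haar d] psum N f := by
    intro N
    induction N with
    | zero =>
      filter_upwards [Lp.coeFn_zero ℂ (ENNReal.ofReal p) (haar d)] with x hx
      simpa [psum] using hx
    | succ N ih =>
      rw [Finset.sum_range_succ]
      filter_upwards [Lp.coeFn_add (∑ l ∈ range N, g l) (g N), ih,
        (cmem (continuous_layer N f) (ENNReal.ofReal p)).coeFn_toLp] with x h1 h2 h3
      rw [h1, Pi.add_apply, h2, h3, psum, psum, Finset.sum_range_succ]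
  set G := ∑' l, g l with hG
  have hGS : ∀ N, eLpNorm (fun x => G x - psum N f x) (ENNReal.ofReal p) (haar d) ≤
      ENNReal.ofReal (∑' l, τ (l + N)) := by
    intro N
    have e1 : G - ∑ l ∈ range N, g l = ∑' l, g (l + N) := by
      rw [hG, ← hgs.sum_add_tsum_nat_add N]; simp
    have e2 : ‖G - ∑ l ∈ range N, g l‖ ≤ ∑' l, τ (l + N) := by
      rw [e1]
      exact tsum_of_norm_bounded ((summable_nat_add_iff N).mpr hτ).hasSum fun l => hg _
    have e3 : (fun x => G x - psum N f x) =ᵐ[haar d] (G - ∑ l ∈ range N, g l : Lp ℂ _ _) := by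
      filter_upwards [Lp.coeFn_sub G (∑ l ∈ range N, g l), hS N] with x h1 h2
      rw [h1, Pi.sub_apply, h2]
    rw [eLpNorm_congr_ae e3, ← Lp.enorm_def, ← ofReal_norm]
    exact ENNReal.ofReal_le_ofReal e2
  have hGi : Integrable G (haar d) := (Lp.memLp G).integrable hP
  have hGf : (fun x => G x - f x) =ᵐ[haar d] 0 := by
    refine uniq (hGi.sub hf) fun k => ?_
    rw [coef_sub hGi hf, ← norm_le_zero_iff]
    refine ge_of_tendsto (tendsto_sum_nat_add τ) ?_
    filter_upwards [coef_psum f k] with N hN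
    have hi : Integrable (fun x => G x - psum N f x) (haar d) :=
      hGi.sub (cint (continuous_psum N f))
    rw [← hN, ← coef_sub hGi (cint (continuous_psum N f))]
    refine (norm_coef_le _ _).trans ?_
    have h1 := (eLpNorm_le_eLpNorm_of_exponent_le hP hi.aestronglyMeasurable).trans (hGS N)
    rw [eLpNorm_one_eq_lintegral_enorm, ← ofReal_integral_norm_eq_lintegral_enorm hi] at h1
    exact (ENNReal.ofReal_le_ofReal_iff (tsum_nonneg fun l => hτ0 _)).mp h1
  have e4 : (fun x => f x - t x) =ᵐ[haar d]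
      (fun x => psum L f x - t x) + fun x => G x - psum L f x := by
    filter_upwards [hGf] with x hx
    simp only [Pi.zero_apply, sub_eq_zero] at hx
    simp [hx]
  rw [eLpNorm_congr_ae e4, ENNReal.ofReal_add (Np_nonneg _ _) (tsum_nonneg fun l => hτ0 _),
    ← eLpNorm_eq_Np hp0 (by fun_prop)]
  refine (eLpNorm_add_le (Continuous.aestronglyMeasurable (by fun_prop))
    (hGi.sub (cint (continuous_psum L f))).aestronglyMeasurable hP).trans ?_
  exact add_le_add le_rfl (hGS L)

end Pool.Agent.P.MP_33127d_an
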