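import Mathlib

namespace Pool.Agent.P.MP_33127d_an

open MeasureTheory

/-- Normalized Lebesgue (Haar probability) measure on the torus. -/
noncomputable def haar (d : ℕ) : Measure (UnitAddTorus (Fin d)) :=
  Measure.pi fun _ => AddCircle.haarAddCircle

/-- The dyadic block `ρ(s)`. -/
noncomputable def rho {d : ℕ} (s : Fin d → ℕ) : Finset (Fin d → ℤ) :=
  Fintype.piFinset fun j =>
    (Finset.Ioo (-(2 : ℤ) ^ s j) (2 ^ s j)).filter fun k => 2 ^ s j / 2 ≤ |k|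

/-- `δ_s(f)`. -/
noncomputable def delta {d : ℕ} (s : Fin d → ℕ) (f : UnitAddTorus (Fin d) → ℂ)
    (x : UnitAddTorus (Fin d)) : ℂ :=
  ∑ k ∈ rho s, UnitAddTorus.mFourierCoeff f k * UnitAddTorus.mFourier k x

/-- `f_l`. -/
noncomputable def layer {d : ℕ} (l : ℕ) (f : UnitAddTorus (Fin d) → ℂ)
    (x : UnitAddTorus (Fin d)) : ℂ :=
  ∑ s ∈ Finset.Nat.antidiagonalTuple d l, delta s f x

/-- The class `W_1^{a,b}`. -/
def W (d : ℕ) (a b : ℝ) : Set (UnitAddTorus (Fin d) → ℂ) :=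
  {f | Integrable f (haar d) ∧ ∀ l : ℕ, eLpNorm (layer l f) 1 (haar d) ≤
    ENNReal.ofReal ((2 : ℝ) ^ (-a * l) * (max (l : ℝ) 1) ^ (((d : ℝ) - 1) * b))}

/-- Best `m`-term trigonometric approximation of `f` in `L_p`. -/
noncomputable def sigma {d : ℕ} (m : ℕ) (p : ℝ) (f : UnitAddTorus (Fin d) → ℂ) : ENNReal :=
  ⨅ (K : Finset (Fin d → ℤ)) (_ : K.card ≤ m) (c : (Fin d → ℤ) → ℂ),
    eLpNorm (fun x => f x - ∑ k ∈ K, c k * UnitAddTorus.mFourier k x) (ENNReal.ofReal p) (haar d)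

/-- Best `m`-term trigonometric approximation of a class. -/
noncomputable def sigmaClass {d : ℕ} (m : ℕ) (p : ℝ) (F : Set (UnitAddTorus (Fin d) → ℂ)) :
    ENNReal :=
  ⨆ f ∈ F, sigma m p f

/-- The order of `σ_m(W_1^{a,b})_p`. -/
noncomputable def order (d : ℕ) (p a b : ℝ) (m : ℝ) : ℝ :=
  if p ≤ 2 then
    if 2 * (1 - 1 / p) < a then
      m ^ (-a + (1 - 1 / p)) * Real.log m ^ (((d : ℝ) - 1) * (a + b - 2 * (1 - 1 / p)))
    else if a < 2 * (1 - 1 / p) then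
      m ^ (-a + (1 - 1 / p)) * Real.log m ^ (((d : ℝ) - 1) * b)
    else
      m ^ (-a + (1 - 1 / p)) * Real.log m ^ (((d : ℝ) - 1) * b) * Real.log (Real.log m)
  else
    if 1 < a then
      m ^ (-a + 1 / 2) * Real.log m ^ (((d : ℝ) - 1) * (a - 1 + b))
    else if a < 1 then
      m ^ (-(a - (1 - 1 / p)) * p / 2) * Real.log m ^ (((d : ℝ) - 1) * b)
    else
      m ^ (-(1 / 2 : ℝ)) * Real.log m ^ (((d : ℝ) - 1) * b + 1)

end Pool.Agent.P.MP_33127d_an
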