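import Pool.Agent.P.MP_33127d_an.Basic

namespace Pool.Agent.P.MP_33127d_an

open MeasureTheory UnitAddTorus Finset
open scoped ComplexConjugate

noncomputable def fej (N : ℕ) (k : ℤ) : ℝ := max 0 (1 - |(k : ℝ)| / N)

theorem fej_nonneg (N : ℕ) (k : ℤ) : 0 ≤ fej N k := le_max_left _ _

theorem fej_le_one (N : ℕ) (k : ℤ) : fej N k ≤ 1 :=
  max_le zero_le_one (by have : 0 ≤ |(k : ℝ)| / N := by positivity
                         linarith)

theorem fej_neg (N : ℕ) (k : ℤ) : fej N (-k) = fej N k := by simp [fej]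

theorem fej_zero (N : ℕ) : fej N 0 = 1 := by simp [fej]

theorem fej_eq_zero {N : ℕ} (hN : 0 < N) {k : ℤ} (hk : (N : ℤ) ≤ |k|) : fej N k = 0 := by
  have h1 : (N : ℝ) ≤ |(k : ℝ)| := by exact_mod_cast hk
  have h2 : (0 : ℝ) < N := by exact_mod_cast hN
  apply max_eq_left
  rw [sub_nonpos, one_le_div h2]; exact h1

theorem fej_eq {N : ℕ} (hN : 0 < N) {k : ℤ} (hk : |k| ≤ (N : ℤ)) :
    fej N k = 1 - |(k : ℝ)| / N := by
  have h1 : |(k : ℝ)| ≤ (N : ℝ) := by exact_mod_cast hk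
  have h2 : (0 : ℝ) < N := by exact_mod_cast hN
  apply max_eq_right
  rw [sub_nonneg, div_le_one h2]; exact h1

theorem fej_count {N : ℕ} (hN : 0 < N) (k : ℤ) :
    (((Finset.Ico (0 : ℤ) N).filter fun i => i - k ∈ Finset.Ico (0 : ℤ) N).card : ℝ) =
      N * fej N k := by
  have h : ((Finset.Ico (0 : ℤ) N).filter fun i => i - k ∈ Finset.Ico (0 : ℤ) N) =
      Finset.Ico (max 0 k) (min N (N + k)) := by
    ext i; simp only [mem_filter, mem_Ico, max_le_iff, lt_min_iff]; omega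
  rw [h, Int.card_Ico]
  have h2 : (0 : ℝ) < N := by exact_mod_cast hN
  rcases le_total (N : ℤ) |k| with hk | hk
  · rw [fej_eq_zero hN hk]
    have : (min (N : ℤ) (N + k) - max 0 k).toNat = 0 := by
      rcases abs_cases k with h | h <;> omega
    simp [this]
  · rw [fej_eq hN hk]
    have : ((min (N : ℤ) (N + k) - max 0 k).toNat : ℤ) = N - |k| := by
      rcases abs_cases k with h | h <;> omega
    have h3 : ((min (N : ℤ) (N + k) - max 0 k).toNat : ℝ) = N - |(k : ℝ)| := by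
      exact_mod_cast this
    rw [h3]; field_simp

theorem fejer_identity {N : ℕ} (hN : 0 < N) {I : Finset ℤ}
    (hI : ∀ k : ℤ, |k| < N → k ∈ I) (t : UnitAddCircle) :
    ∑ k ∈ I, (fej N k : ℂ) * fourier k t =
      ((‖∑ i ∈ Finset.Ico (0 : ℤ) N, fourier i t‖ ^ 2 / N : ℝ) : ℂ) := by
  have h2 : (N : ℂ) ≠ 0 := by exact_mod_cast hN.ne'
  have e1 : ((‖∑ i ∈ Finset.Ico (0 : ℤ) N, fourier i t‖ ^ 2 : ℝ) : ℂ) =
      ∑ i ∈ Finset.Ico (0 : ℤ) N, ∑ j ∈ Finset.Ico (0 : ℤ) N, fourier (i - j) t := by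
    rw [← Complex.normSq_eq_norm_sq, ← Complex.mul_conj, map_sum, Finset.sum_mul_sum]
    refine Finset.sum_congr rfl fun i _ => Finset.sum_congr rfl fun j _ => ?_
    rw [sub_eq_add_neg, fourier_add, fourier_neg]
  have e2 : ∀ i ∈ Finset.Ico (0 : ℤ) N, ∑ j ∈ Finset.Ico (0 : ℤ) N, fourier (i - j) t =
      ∑ k ∈ I, if i - k ∈ Finset.Ico (0 : ℤ) N then fourier k t else 0 := by
    intro i hi
    rw [← Finset.sum_filter]
    refine Finset.sum_nbij' (fun j => i - j) (fun k => i - k) ?_ ?_ ?_ ?_ ?_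
    · intro j hj
      simp only [mem_filter, mem_Ico] at hi hj ⊢
      refine ⟨hI _ ?_, by omega⟩
      rw [abs_lt]; omega
    · intro k hk
      exact (Finset.mem_filter.mp hk).2
    · intro j _; simp
    · intro j _; simp
    · intro j _; rfl
  rw [Complex.ofReal_div, e1, Finset.sum_congr rfl e2, Finset.sum_comm, Finset.sum_div]
  refine Finset.sum_congr rfl fun k _ => ?_
  rw [← Finset.sum_filter, Finset.sum_const, nsmul_eq_mul]
  have := congrArg (fun x : ℝ => (x : ℂ)) (fej_count hN k)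
  simp only [Complex.ofReal_natCast, Complex.ofReal_mul] at this
  rw [this, Complex.ofReal_natCast]
  field_simp

/-- the Fejer kernel -/
noncomputable def FK (N : ℕ) (t : UnitAddCircle) : ℝ :=
  ‖∑ i ∈ Finset.Ico (0 : ℤ) N, fourier i t‖ ^ 2 / N

theorem FK_nonneg (N : ℕ) (t : UnitAddCircle) : 0 ≤ FK N t := by unfold FK; positivity

theorem sum_fej {N : ℕ} (hN : 0 < N) {I : Finset ℤ} (hI : ∀ k : ℤ, |k| < N → k ∈ I) :
    ∑ k ∈ I, fej N k = N := by
  have h := fejer_identity hN hI 0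
  simp only [fourier_eval_zero, mul_one, sum_const, Int.card_Ico, sub_zero, Int.toNat_natCast,
    nsmul_eq_mul, Complex.norm_natCast] at h
  have h2 : (N : ℝ) ≠ 0 := by exact_mod_cast hN.ne'
  have h3 : (N : ℝ) ^ 2 / N = N := by field_simp
  rw [h3] at h
  exact_mod_cast h

noncomputable def I1 (j : ℕ) : Finset ℤ := Finset.Ioo (-(2 : ℤ) ^ (j + 2)) (2 ^ (j + 2))

theorem mem_I1 {j : ℕ} {k : ℤ} : k ∈ I1 j ↔ |k| < 2 ^ (j + 2) := by
  simp [I1, abs_lt]

theorem card_I1 (j : ℕ) : (I1 j).card ≤ 8 * 2 ^ j := by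
  have : ((I1 j).card : ℤ) ≤ 8 * 2 ^ j := by
    have h : (0 : ℤ) < 2 ^ j := by positivity
    rw [I1, Int.card_Ioo, pow_add]
    omega
  exact_mod_cast this

/-- one-dimensional domination -/
def Dom1 (j : ℕ) (C : ℝ) (a : ℤ → ℝ) : Prop :=
  ∃ φ : ℤ → ℝ, ∃ Φ : UnitAddCircle → ℝ, (∀ k, |φ k| ≤ C) ∧
    (∀ t, (Φ t : ℂ) = ∑ k ∈ I1 j, (φ k : ℂ) * fourier k t) ∧
    ∀ t, ‖∑ k ∈ I1 j, (a k : ℂ) * fourier k t‖ ≤ Φ t

theorem dom1_fej {j i : ℕ} (hi : i ≤ j + 2) : Dom1 j 1 (fej (2 ^ i)) := by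
  have hI : ∀ k : ℤ, |k| < (2 ^ i : ℕ) → k ∈ I1 j := by
    intro k hk
    rw [mem_I1]
    refine hk.trans_le ?_
    push_cast
    exact pow_le_pow_right₀ (by norm_num) hi
  refine ⟨fej (2 ^ i), FK (2 ^ i), fun k => ?_, fun t => ?_, fun t => ?_⟩
  · rw [abs_of_nonneg (fej_nonneg _ _)]; exact fej_le_one _ _
  · rw [fejer_identity (by positivity) hI]; rfl
  · rw [fejer_identity (by positivity) hI, Complex.norm_real, Real.norm_of_nonneg (by positivity)]
    rfl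

theorem Dom1.sub {j : ℕ} {C C' : ℝ} {a a' : ℤ → ℝ} (h : Dom1 j C a) (h' : Dom1 j C' a') :
    Dom1 j (C + C') fun k => a k - a' k := by
  obtain ⟨φ, Φ, h1, h2, h3⟩ := h
  obtain ⟨φ', Φ', h1', h2', h3'⟩ := h'
  refine ⟨fun k => φ k + φ' k, fun t => Φ t + Φ' t, fun k => ?_, fun t => ?_, fun t => ?_⟩
  · exact (abs_add_le _ _).trans (add_le_add (h1 k) (h1' k))
  · push_cast
    simp only [h2, h2', add_mul, Finset.sum_add_distrib]
  · push_cast
    simp only [sub_mul, Finset.sum_sub_distrib]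
    exact (norm_sub_le _ _).trans (add_le_add (h3 t) (h3' t))

theorem Dom1.two_mul {j : ℕ} {C : ℝ} {a : ℤ → ℝ} (h : Dom1 j C a) :
    Dom1 j (2 * C) fun k => 2 * a k := by
  obtain ⟨φ, Φ, h1, h2, h3⟩ := h
  refine ⟨fun k => 2 * φ k, fun t => 2 * Φ t, fun k => ?_, fun t => ?_, fun t => ?_⟩
  · rw [abs_mul, abs_two]; linarith [h1 k]
  · push_cast
    simp only [h2, mul_assoc, Finset.mul_sum]
  · push_cast
    simp only [mul_assoc, ← Finset.mul_sum, norm_mul, Complex.norm_two]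
    linarith [h3 t]

theorem Dom1.mono {j : ℕ} {C C' : ℝ} {a : ℤ → ℝ} (h : Dom1 j C a) (hC : C ≤ C') :
    Dom1 j C' a := by
  obtain ⟨φ, Φ, h1, h2, h3⟩ := h
  exact ⟨φ, Φ, fun k => (h1 k).trans hC, h2, h3⟩

/-- de la Vallee Poussin symbol -/
noncomputable def vp (i : ℕ) (k : ℤ) : ℝ := 2 * fej (2 ^ (i + 1)) k - fej (2 ^ i) k

theorem vp_neg (i : ℕ) (k : ℤ) : vp i (-k) = vp i k := by simp [vp, fej_neg]

theorem vp_eq_one {i : ℕ} {k : ℤ} (hk : |k| ≤ 2 ^ i) : vp i k = 1 := by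
  have h1 : |k| ≤ ((2 ^ i : ℕ) : ℤ) := by exact_mod_cast hk
  have h2 : |k| ≤ ((2 ^ (i + 1) : ℕ) : ℤ) := by
    push_cast
    exact hk.trans (pow_le_pow_right₀ (by norm_num) (by omega))
  rw [vp, fej_eq (by positivity) h1, fej_eq (by positivity) h2]
  push_cast
  field_simp
  ring

theorem vp_eq_zero {i : ℕ} {k : ℤ} (hk : 2 ^ (i + 1) ≤ |k|) : vp i k = 0 := by
  have h1 : ((2 ^ (i + 1) : ℕ) : ℤ) ≤ |k| := by exact_mod_cast hk
  have h2 : ((2 ^ i : ℕ) : ℤ) ≤ |k| := by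
    push_cast
    exact (pow_le_pow_right₀ (by norm_num) (by omega)).trans hk
  rw [vp, fej_eq_zero (by positivity) h1, fej_eq_zero (by positivity) h2]
  simp

theorem dom1_vp {j i : ℕ} (hi : i ≤ j + 1) : Dom1 j 3 (vp i) := by
  have := ((dom1_fej (j := j) (i := i + 1) (by omega)).two_mul).sub
    (dom1_fej (j := j) (i := i) (by omega))
  exact this.mono (by norm_num)

/-- smooth dyadic block symbol -/
noncomputable def ab : ℕ → ℤ → ℝ
  | 0, k => vp 0 k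
  | i + 1, k => vp (i + 1) k - vp i k

theorem ab_neg (i : ℕ) (k : ℤ) : ab i (-k) = ab i k := by
  cases i <;> simp [ab, vp_neg]

theorem dom1_ab (j : ℕ) : Dom1 j 6 (ab j) := by
  cases j with
  | zero => exact (dom1_vp (j := 0) (i := 0) (by omega)).mono (by norm_num)
  | succ i =>
    exact ((dom1_vp (j := i + 1) (i := i + 1) (by omega)).sub
      (dom1_vp (j := i + 1) (i := i) (by omega))).mono (by norm_num)

theorem sum_ab (n : ℕ) (k : ℤ) : ∑ i ∈ range (n + 1), ab i k = vp n k := by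
  induction n with
  | zero => simp [ab]
  | succ n ih => rw [Finset.sum_range_succ, ih, ab]; ring

theorem ab_eq_zero_of_large {i : ℕ} {k : ℤ} (hk : 2 ^ (i + 1) ≤ |k|) : ab i k = 0 := by
  cases i with
  | zero => exact vp_eq_zero hk
  | succ i =>
    rw [ab, vp_eq_zero hk, vp_eq_zero ((pow_le_pow_right₀ (by norm_num) (by omega)).trans hk)]
    simp

theorem ab_eq_zero_of_small {i : ℕ} {k : ℤ} (hk : |k| ≤ 2 ^ i) : ab (i + 1) k = 0 := by
  rw [ab, vp_eq_one hk, vp_eq_one (hk.trans (pow_le_pow_right₀ (by norm_num) (by omega)))]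
  simp

theorem ab_ne_zero {i s : ℕ} {k : ℤ} (h1 : 2 ^ s / 2 ≤ |k|) (h2 : |k| < 2 ^ s)
    (h : ab i k ≠ 0) : i ≤ s ∧ s ≤ i + 1 := by
  constructor
  · by_contra hc
    obtain ⟨j, rfl⟩ : ∃ j, i = j + 1 := ⟨i - 1, by omega⟩
    exact h (ab_eq_zero_of_small
      (h2.le.trans (pow_le_pow_right₀ (by norm_num) (by omega))))
  · by_contra hc
    obtain ⟨j, rfl⟩ : ∃ j, s = j + 1 := ⟨s - 1, by omega⟩
    apply h (ab_eq_zero_of_large _)
    refine le_trans ?_ h1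
    rw [pow_succ (2 : ℤ) j, Int.mul_ediv_cancel _ (by norm_num)]
    exact pow_le_pow_right₀ (by norm_num) (by omega)

end Pool.Agent.P.MP_33127d_an
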