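import Pool.Agent.P.MP_33127d_an.Kernel

namespace Pool.Agent.P.MP_33127d_an

open Finset

variable {d : ℕ}

def dst (s t : Fin d → ℕ) : ℕ := ∑ j, Nat.dist (s j) (t j)

theorem dst_comm (s t : Fin d → ℕ) : dst s t = dst t s := by simp [dst, Nat.dist_comm]

theorem wt_inf (s t : Fin d → ℕ) : 2 * wt (s ⊓ t) + dst s t = wt s + wt t := by
  simp only [wt, dst, Finset.mul_sum, ← Finset.sum_add_distrib, Pi.inf_apply]
  refine Finset.sum_congr rfl fun j _ => ?_
  unfold Nat.dist; omega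

theorem wt_inf_le_left (s t : Fin d → ℕ) : wt (s ⊓ t) ≤ wt s :=
  Finset.sum_le_sum fun j _ => min_le_left _ _

theorem wt_inf_le_right (s t : Fin d → ℕ) : wt (s ⊓ t) ≤ wt t :=
  Finset.sum_le_sum fun j _ => min_le_right _ _

theorem geo0 {ρ : ℝ} (h0 : 0 ≤ ρ) (h1 : ρ < 1) (S : Finset ℕ) (g : ℕ → ℕ)
    (hg : Set.InjOn g S) : ∑ i ∈ S, ρ ^ g i ≤ (1 - ρ)⁻¹ := by
  rw [← Finset.sum_image (f := fun n => ρ ^ n) hg, ← tsum_geometric_of_lt_one h0 h1]
  exact (summable_geometric_of_lt_one h0 h1).sum_le_tsum _ fun _ _ => by positivity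

theorem geo1 {ρ : ℝ} (h0 : 0 ≤ ρ) (h1 : ρ < 1) (S : Finset ℕ) (t : ℕ) :
    ∑ i ∈ S, ρ ^ Nat.dist i t ≤ 2 * (1 - ρ)⁻¹ := by
  rw [← Finset.sum_filter_add_sum_filter_not S (fun i => i ≤ t), two_mul]
  refine add_le_add (geo0 h0 h1 _ _ ?_) (geo0 h0 h1 _ _ ?_)
  · intro i hi j hj hij
    simp only [coe_filter, Set.mem_ofPred_eq, Nat.dist] at hi hj hij
    omega
  · intro i hi j hj hij
    simp only [coe_filter, Set.mem_ofPred_eq, Nat.dist] at hi hj hij
    omega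

theorem two_rpow_neg_lt_one {ε : ℝ} (hε : 0 < ε) : (2 : ℝ) ^ (-ε) < 1 :=
  Real.rpow_lt_one_of_one_lt_of_neg (by norm_num) (by linarith)

theorem geo1' {ε : ℝ} (hε : 0 < ε) : ∃ C : ℝ, 0 < C ∧ ∀ (S : Finset ℕ) (t : ℕ),
    ∑ i ∈ S, (2 : ℝ) ^ (-ε * Nat.dist i t) ≤ C := by
  have h1 := two_rpow_neg_lt_one hε
  refine ⟨2 * (1 - 2 ^ (-ε))⁻¹, by have := sub_pos.mpr h1; positivity, fun S t => ?_⟩
  simp only [Real.rpow_mul_natCast (show (0 : ℝ) ≤ 2 by norm_num)]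
  exact geo1 (by positivity) h1 S t

theorem geo {ε : ℝ} (hε : 0 < ε) : ∃ C : ℝ, 0 < C ∧ ∀ (S : Finset (Fin d → ℕ)) (t : Fin d → ℕ),
    ∑ s ∈ S, (2 : ℝ) ^ (-ε * dst s t) ≤ C := by
  obtain ⟨C, hC, h⟩ := geo1' hε
  refine ⟨C ^ d, by positivity, fun S t => ?_⟩
  have hsub : S ⊆ Fintype.piFinset fun j => S.image fun s => s j := by
    intro s hs
    simp only [Fintype.mem_piFinset, mem_image]
    exact fun j => ⟨s, hs, rfl⟩
  refine (Finset.sum_le_sum_of_subset_of_nonneg hsub fun _ _ _ => by positivity).trans ?_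
  have : ∀ s : Fin d → ℕ, (2 : ℝ) ^ (-ε * dst s t) = ∏ j, (2 : ℝ) ^ (-ε * Nat.dist (s j) (t j)) := by
    intro s
    rw [← Real.rpow_sum_of_pos (by norm_num), dst]
    push_cast
    rw [Finset.mul_sum]
  simp only [this]
  rw [← Finset.prod_univ_sum (fun j => S.image fun s => s j)
    (fun j i => (2 : ℝ) ^ (-ε * Nat.dist i (t j)))]
  refine (Finset.prod_le_prod (fun j _ => by positivity) fun j _ => h _ (t j)).trans ?_
  simp

def Mult {ι : Type} (M : ℕ) (S : Finset ι) (σ : ι → Fin d → ℕ) : Prop :=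
  ∀ s, (S.filter fun i => σ i = s).card ≤ M

theorem mult_id (S : Finset (Fin d → ℕ)) : Mult 1 S id := by
  intro s
  rw [Finset.card_le_one]
  intro a ha b hb
  simp only [id_eq, mem_filter] at ha hb
  rw [ha.2, hb.2]

theorem geoM (M : ℕ) {ε : ℝ} (hε : 0 < ε) : ∃ C : ℝ, 0 < C ∧
    ∀ (ι : Type) (S : Finset ι) (σ : ι → Fin d → ℕ), Mult M S σ → ∀ t : Fin d → ℕ,
    ∑ i ∈ S, (2 : ℝ) ^ (-ε * dst (σ i) t) ≤ C := by
  obtain ⟨C, hC, h⟩ := geo (d := d) hε
  refine ⟨(M + 1) * C, by positivity, fun ι S σ hM t => ?_⟩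
  rw [Finset.sum_comp (fun s => (2 : ℝ) ^ (-ε * dst s t)) σ]
  refine le_trans ?_ (mul_le_mul_of_nonneg_left (h (S.image σ) t) (by positivity))
  rw [Finset.mul_sum]
  refine Finset.sum_le_sum fun s _ => ?_
  rw [nsmul_eq_mul]
  refine mul_le_mul_of_nonneg_right ?_ (by positivity)
  have := hM s
  exact_mod_cast this.trans (Nat.le_succ _)

theorem weighted_holder (M : ℕ) {ε r : ℝ} (hε : 0 < ε) (hr : 1 ≤ r) : ∃ C : ℝ, 0 < C ∧
    ∀ (ι : Type) (S : Finset ι) (σ : ι → Fin d → ℕ), Mult M S σ → ∀ (t : Fin d → ℕ) (G : ι → ℝ),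
    (∀ i, 0 ≤ G i) → (∑ i ∈ S, G i) ^ r ≤ C * ∑ i ∈ S, (2 : ℝ) ^ (ε * dst (σ i) t) * G i ^ r := by
  have hr0 : 0 < r := by linarith
  obtain ⟨C, hC, h⟩ := geoM (d := d) M (ε := ε / r) (by positivity)
  refine ⟨C ^ (r - 1), by positivity, fun ι S σ hM t G hG => ?_⟩
  have h1 := Real.inner_le_weight_mul_Lp_of_nonneg S hr
    (fun i => (2 : ℝ) ^ (-(ε / r) * dst (σ i) t)) (fun i => (2 : ℝ) ^ ((ε / r) * dst (σ i) t) * G i)
    (fun i => by positivity) (fun i => mul_nonneg (by positivity) (hG i))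
  have e1 : ∀ i, (2 : ℝ) ^ (-(ε / r) * dst (σ i) t) * ((2 : ℝ) ^ ((ε / r) * dst (σ i) t) * G i) =
      G i := by
    intro i
    rw [← mul_assoc, ← Real.rpow_add (by norm_num)]
    simp
  simp only [e1] at h1
  have e2 : ∑ i ∈ S, (2 : ℝ) ^ (-(ε / r) * dst (σ i) t) *
      ((2 : ℝ) ^ ((ε / r) * dst (σ i) t) * G i) ^ r ≤
      ∑ i ∈ S, (2 : ℝ) ^ (ε * dst (σ i) t) * G i ^ r := by
    refine Finset.sum_le_sum fun i _ => ?_
    have := hG i
    rw [Real.mul_rpow (by positivity) (hG i), ← Real.rpow_mul (by norm_num), ← mul_assoc,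
      ← Real.rpow_add (by norm_num)]
    refine mul_le_mul_of_nonneg_right (Real.rpow_le_rpow_of_exponent_le (by norm_num) ?_)
      (by positivity)
    have e3 : ε / r * (dst (σ i) t) * r = ε * dst (σ i) t := by field_simp
    have : 0 ≤ ε / r * (dst (σ i) t) := by positivity
    linarith
  have n1 : 0 ≤ ∑ i ∈ S, (2 : ℝ) ^ (-(ε / r) * dst (σ i) t) *
      ((2 : ℝ) ^ ((ε / r) * dst (σ i) t) * G i) ^ r :=
    Finset.sum_nonneg fun i _ => by have := hG i; positivity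
  have n2 : 0 ≤ 1 - r⁻¹ := by have := inv_le_one_of_one_le₀ hr; linarith
  have h2 : ∑ i ∈ S, G i ≤
      C ^ (1 - r⁻¹) * (∑ i ∈ S, (2 : ℝ) ^ (ε * dst (σ i) t) * G i ^ r) ^ r⁻¹ := by
    refine h1.trans ?_
    gcongr
    exact h ι S σ hM t
  refine (Real.rpow_le_rpow (Finset.sum_nonneg fun i _ => hG i) h2 hr0.le).trans (le_of_eq ?_)
  rw [Real.mul_rpow (by positivity) (Real.rpow_nonneg (n1.trans e2) _),
    Real.rpow_inv_rpow (n1.trans e2) hr0.ne', ← Real.rpow_mul hC.le]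
  congr 2
  field_simp

theorem card_antidiag_le (n l : ℕ) :
    (Finset.Nat.antidiagonalTuple (n + 1) l).card ≤ (l + 1) ^ n := by
  have : (l + 1) ^ n = (Fintype.piFinset fun _ : Fin n => range (l + 1)).card := by simp
  rw [this]
  refine Finset.card_le_card_of_injOn (fun s => Fin.tail s) ?_ ?_
  · intro s hs
    simp only [mem_coe, Finset.Nat.mem_antidiagonalTuple] at hs
    simp only [Fintype.coe_piFinset, Set.mem_pi, Set.mem_univ, coe_range, Set.mem_Iio, Fin.tail,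
      forall_const]
    intro j
    have := Finset.single_le_sum (f := s) (fun _ _ => Nat.zero_le _) (Finset.mem_univ j.succ)
    omega
  · intro s hs t ht hst
    simp only [mem_coe, Finset.Nat.mem_antidiagonalTuple, Fin.sum_univ_succ] at hs ht
    have h1 : ∀ j : Fin n, s j.succ = t j.succ := fun j => congrFun hst j
    funext j
    refine Fin.cases ?_ h1 j
    simp only [h1] at hs
    omega

theorem le_card_antidiag (n l : ℕ) :
    (l / n + 1) ^ n ≤ (Finset.Nat.antidiagonalTuple (n + 1) l).card := by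
  have : (l / n + 1) ^ n = (Fintype.piFinset fun _ : Fin n => range (l / n + 1)).card := by simp
  rw [this]
  refine Finset.card_le_card_of_injOn
    (fun t => Fin.cons (α := fun _ => ℕ) (l - ∑ j, t j) t) ?_ ?_
  · intro t ht
    simp only [Fintype.coe_piFinset, Set.mem_pi, Set.mem_univ, coe_range, Set.mem_Iio,
      forall_const] at ht
    simp only [mem_coe, Finset.Nat.mem_antidiagonalTuple, Fin.sum_cons]
    have h1 : ∑ j, t j ≤ n * (l / n) := by
      have := Finset.sum_le_card_nsmul Finset.univ t (l / n) fun j _ => Nat.lt_succ_iff.mp (ht j)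
      simpa using this
    have := Nat.mul_div_le l n
    omega
  · intro s _ t _ hst
    exact (Fin.cons_injective2.eq_iff.mp hst).2

end Pool.Agent.P.MP_33127d_an
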