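import Pool.Agent.P.MP_33127d_an.TLemma

namespace Pool.Agent.P.MP_33127d_an

open MeasureTheory Finset
open scoped ComplexConjugate

variable {d : ℕ}

noncomputable def nf (q : ℝ) (z : ℂ) : ℂ := (‖z‖ ^ (q - 2) : ℝ) * conj z

theorem norm_nf {q : ℝ} (hq : 1 < q) (z : ℂ) : ‖nf q z‖ = ‖z‖ ^ (q - 1) := by
  rw [nf, norm_mul, Complex.norm_real, Real.norm_of_nonneg (by positivity), Complex.norm_conj,
    ← Real.rpow_add_one' (norm_nonneg _) (by linarith)]
  congr 1; ring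

theorem mul_nf {q : ℝ} (hq : 1 < q) (z : ℂ) : z * nf q z = (‖z‖ ^ q : ℝ) := by
  have : ‖z‖ ^ q = ‖z‖ ^ (q - 2) * ‖z‖ ^ 2 := by
    rw [← Real.rpow_two, ← Real.rpow_add' (norm_nonneg _) (by linarith)]; simp
  rw [this, nf, mul_left_comm, Complex.mul_conj, Complex.normSq_eq_norm_sq]
  push_cast; rfl

theorem continuous_nf {q : ℝ} (hq : 1 < q) : Continuous (nf q) := by
  rw [continuous_iff_continuousAt]
  intro z
  rcases eq_or_ne z 0 with rfl | hz
  · have h0 : nf q 0 = 0 := by simp [nf]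
    rw [ContinuousAt, h0, tendsto_zero_iff_norm_tendsto_zero]
    simp only [norm_nf hq]
    have : Continuous fun z : ℂ => ‖z‖ ^ (q - 1) :=
      continuous_norm.rpow_const fun _ => Or.inr (by linarith)
    have h1 := this.tendsto 0
    rwa [norm_zero, Real.zero_rpow (by linarith)] at h1
  · unfold nf
    refine ContinuousAt.mul ?_ (by fun_prop)
    exact Complex.continuous_ofReal.continuousAt.comp
      (continuous_norm.continuousAt.rpow_const (Or.inl (norm_ne_zero_iff.mpr hz)))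

theorem exists_norming {q r : ℝ} (hqr : q.HolderConjugate r) {u : TT d → ℂ} (hu : Continuous u) :
    ∃ h : TT d → ℂ, Continuous h ∧ ∫ x, u x * h x ∂haar d = (Np q u : ℝ) ∧ Np r h ≤ 1 := by
  have hq : 1 < q := hqr.lt
  have hq0 : 0 < q := by linarith
  have hb := Np_nonneg q u
  refine ⟨fun x => (Np q u ^ (1 - q) : ℝ) * nf q (u x),
    continuous_const.mul ((continuous_nf hq).comp hu), ?_, ?_⟩
  · simp only [mul_left_comm (u _), mul_nf hq]
    rw [integral_const_mul, integral_complex_ofReal, ← Np_rpow hq0, ← Complex.ofReal_mul,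
      ← Real.rpow_add' hb (by simp)]
    simp
  · rw [Np_const_mul hqr.symm.pos, Complex.norm_real, Real.norm_of_nonneg (by positivity)]
    have e1 : Np r (fun x => nf q (u x)) = Np q u ^ (q - 1) := by
      have e2 : (q - 1) * r = q := hqr.sub_one_mul_conj
      rw [Np]
      simp only [norm_nf hq, ← Real.rpow_mul (norm_nonneg _), e2]
      rw [← Np_rpow hq0, ← Real.rpow_mul hb]
      congr 1
      have := hqr.symm.pos
      field_simp
      linarith
    rw [e1]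
    rcases hb.eq_or_lt with h0 | h0
    · rw [← h0, Real.zero_rpow (by linarith)]; simp
    · rw [← Real.rpow_add h0]; simp

theorem trilin {q r : ℝ} (hqr : q.HolderConjugate r) (hq2 : q ≤ 2) : ∃ K : ℝ, 0 < K ∧
    ∀ (s t : Fin d → ℕ) (U G : TT d → ℝ) (A B : ℝ), Continuous U → Continuous G →
    (∀ x, 0 ≤ U x) → (∀ x, 0 ≤ G x) → 0 ≤ A → 0 ≤ B →
    Maj t (fun x => U x ^ q) (A ^ q) → Maj s (fun x => G x ^ r) (B ^ r) →
    ∫ x, U x * G x ^ 2 ∂haar d ≤ K * (2 : ℝ) ^ (r⁻¹ * wt (t ⊓ s)) * (A * B ^ 2) := by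
  have hq : 1 < q := hqr.lt
  have hq0 : 0 < q := by linarith
  have hr0 : 0 < r := hqr.symm.pos
  have e2 : (q - 1) * r = q := hqr.sub_one_mul_conj
  refine ⟨(8 ^ d) ^ r⁻¹, by positivity, ?_⟩
  intro s t U G A B hU hG hU0 hG0 hA hB hMU hMG
  have hUq : Continuous fun x => U x ^ q := hU.rpow_const fun _ => Or.inr hq0.le
  have hGr : Continuous fun x => G x ^ r := hG.rpow_const fun _ => Or.inr hr0.le
  have hUq0 : ∀ x, 0 ≤ U x ^ q := fun x => Real.rpow_nonneg (hU0 x) _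
  have hGr0 : ∀ x, 0 ≤ G x ^ r := fun x => Real.rpow_nonneg (hG0 x) _
  have j := jensen (θ := q - 1) (by linarith) (by linarith) hUq hGr hUq0 hGr0
    (hMU.integral_le hUq) (hMU.bilin hMG hUq hGr hUq0 hGr0)
  have h := holder hqr (f := fun x => U x * G x) (g := G) (hU.mul hG) hG
    (fun x => mul_nonneg (hU0 x) (hG0 x)) hG0
  have e3 : ∀ x, U x * G x * G x = U x * G x ^ 2 := fun x => by ring
  have e4 : ∀ x, (U x * G x) ^ q = U x ^ q * (G x ^ r) ^ (q - 1) := fun x => by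
    rw [Real.mul_rpow (hU0 x) (hG0 x), ← Real.rpow_mul (hG0 x), mul_comm r, e2]
  simp only [e3, e4] at h
  refine h.trans ?_
  have n1 : 0 ≤ ∫ x, U x ^ q * (G x ^ r) ^ (q - 1) ∂haar d :=
    integral_nonneg fun x => mul_nonneg (hUq0 x) (Real.rpow_nonneg (hGr0 x) _)
  have n2 : 0 ≤ ∫ x, G x ^ r ∂haar d := integral_nonneg hGr0
  have i2 := hMG.integral_le hGr
  calc _ ≤ ((A ^ q) ^ (1 - (q - 1)) * (8 ^ d * 2 ^ wt (t ⊓ s) * (A ^ q * B ^ r)) ^ (q - 1)) ^ q⁻¹
        * (B ^ r) ^ r⁻¹ := by gcongr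
    _ = _ := by
      have a0 : (q - 1) * q⁻¹ = r⁻¹ := by field_simp; linarith
      have a1 : (A ^ q) ^ ((1 - (q - 1)) * q⁻¹) * (A ^ q) ^ r⁻¹ = A := by
        have a4 : (1 - (q - 1)) * q⁻¹ + r⁻¹ = q⁻¹ := by rw [← a0]; ring
        rw [← Real.rpow_add' (by positivity) (by rw [a4]; positivity), a4,
          Real.rpow_rpow_inv hA hq0.ne']
      have a2 : (B ^ r) ^ r⁻¹ = B := Real.rpow_rpow_inv hB hr0.ne'
      have a3 : ((2 : ℝ) ^ wt (t ⊓ s)) ^ r⁻¹ = 2 ^ (r⁻¹ * wt (t ⊓ s)) := by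
        rw [← Real.rpow_natCast, ← Real.rpow_mul (by norm_num), mul_comm]
      rw [Real.mul_rpow (by positivity) (by positivity),
        ← Real.rpow_mul (x := A ^ q) (by positivity),
        ← Real.rpow_mul (y := q - 1) (by positivity), a0,
        Real.mul_rpow (by positivity) (by positivity),
        Real.mul_rpow (by positivity) (by positivity),
        Real.mul_rpow (by positivity) (by positivity), a2, a3]
      conv_rhs => rw [← a1]
      ring

theorem klemma {q : ℝ} (hq : 1 < q) (hq2 : q ≤ 2) : ∃ C : ℝ, 0 < C ∧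
    ∀ (l : ℕ) (S : Finset (Fin d → ℕ)) (f : TT d → ℂ), Continuous f → (∀ s ∈ S, wt s ≤ l) →
    (∀ x, f x = ∑ s ∈ S, Op s (aS s) f x) →
    ∑ s ∈ S, Np q (Op s (aS s) f) ≤ C * (2 : ℝ) ^ ((1 - q⁻¹) * l) * Np 1 f := by
  have hqr := Real.HolderConjugate.conjExponent hq
  set r := q.conjExponent
  have hr0 : 0 < r := hqr.symm.pos
  have hr1 : 1 ≤ r := hqr.symm.lt.le
  have hri : 1 - q⁻¹ = r⁻¹ := hqr.one_sub_inv
  obtain ⟨K, hK, htri⟩ := trilin (d := d) hqr hq2
  obtain ⟨C1, hC1, hW⟩ := weighted_holder (d := d) 1 (ε := r⁻¹ / 4) (r := 2) (by positivity)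
    (by norm_num)
  obtain ⟨C2, hC2, hG⟩ := geo (d := d) (ε := r⁻¹ / 4) (by positivity)
  set C3 := C1 * K * 3 ^ d * (6 ^ d) ^ 2 * C2 with hC3
  have hC30 : 0 < C3 := by positivity
  refine ⟨4 * C3, by positivity, fun l S f hf hS hdec => ?_⟩
  rw [hri]
  choose h hh hpair hnorm using fun s : Fin d → ℕ =>
    exists_norming hqr (continuous_Op s (aS s) f)
  set b : (Fin d → ℕ) → ℝ := fun s => Np q (Op s (aS s) f) with hb
  have hb0 : ∀ s, 0 ≤ b s := fun s => Np_nonneg _ _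
  set G : (Fin d → ℕ) → TT d → ℝ := fun s x => ‖Op s (aS s) (h s) x‖ with hGdef
  have hGc : ∀ s, Continuous (G s) := fun s => (continuous_Op _ _ _).norm
  have hG0 : ∀ s x, 0 ≤ G s x := fun s x => norm_nonneg _
  have hMG : ∀ s, Maj s (fun x => G s x ^ r) ((6 ^ d) ^ r) := by
    intro s
    refine (maj_op (dom_aS s) hr1 (hh s)).mono ?_
    have := Np_nonneg r (h s)
    refine Real.rpow_le_rpow (by positivity) ?_ hr0.le
    simpa using mul_le_mul_of_nonneg_left (hnorm s) (by positivity : (0 : ℝ) ≤ 6 ^ d)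
  have hSc : Continuous fun x => ∑ s ∈ S, G s x := continuous_finsetSum _ fun s _ => hGc s
  -- step 1
  have st1 : ∑ s ∈ S, b s ≤ ∫ x, ‖f x‖ * ∑ s ∈ S, G s x ∂haar d := by
    simp only [Finset.mul_sum]
    rw [integral_finsetSum _ fun s _ => cint (f := fun x => ‖f x‖ * G s x) (hf.norm.mul (hGc s))]
    refine Finset.sum_le_sum fun s _ => ?_
    have e1 : b s = ‖∫ x, Op s (aS s) (h s) x * f x ∂haar d‖ := by
      rw [← Op_pairing s hf (hh s), hpair s, Complex.norm_real, Real.norm_of_nonneg (hb0 s)]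
    rw [e1]
    refine (norm_integral_le_integral_norm _).trans (le_of_eq ?_)
    simp only [norm_mul, mul_comm ‖f _‖, hGdef]
  -- step 2
  have st2 : ∫ x, ‖f x‖ * (∑ s ∈ S, G s x) ^ 2 ∂haar d ≤
      C3 * 2 ^ (r⁻¹ * l) * ∑ s ∈ S, b s := by
    have hc2 : ∀ t s, Continuous fun x => C1 * (2 : ℝ) ^ (r⁻¹ / 4 * dst s t) *
        (‖Op t (aS t) f x‖ * G s x ^ 2) := fun t s =>
      continuous_const.mul ((continuous_Op _ _ _).norm.mul ((hGc s).pow 2))
    have p1 : ∀ x, ‖f x‖ * (∑ s ∈ S, G s x) ^ 2 ≤ ∑ t ∈ S, ∑ s ∈ S,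
        C1 * (2 : ℝ) ^ (r⁻¹ / 4 * dst s t) * (‖Op t (aS t) f x‖ * G s x ^ 2) := by
      intro x
      have : ‖f x‖ ≤ ∑ t ∈ S, ‖Op t (aS t) f x‖ := by
        conv_lhs => rw [hdec x]
        exact norm_sum_le _ _
      refine (mul_le_mul_of_nonneg_right this (by positivity)).trans ?_
      rw [Finset.sum_mul]
      refine Finset.sum_le_sum fun t _ => ?_
      have w := hW _ S id (mult_id S) t (fun s => G s x) fun s => hG0 s x
      simp only [Real.rpow_two, id_eq] at w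
      refine (mul_le_mul_of_nonneg_left w (norm_nonneg _)).trans (le_of_eq ?_)
      simp only [Finset.mul_sum]
      refine Finset.sum_congr rfl fun s _ => by ring
    refine (integral_mono (cint (hf.norm.mul (hSc.pow 2))) (cint (continuous_finsetSum _
      fun t _ => continuous_finsetSum _ fun s _ => hc2 t s)) p1).trans ?_
    rw [integral_finsetSum _ fun t _ => cint (continuous_finsetSum _ fun s _ => hc2 t s),
      Finset.mul_sum]
    refine Finset.sum_le_sum fun t ht => ?_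
    rw [integral_finsetSum _ fun s _ => cint (hc2 t s)]
    have s1 : ∀ s ∈ S, ∫ x, C1 * (2 : ℝ) ^ (r⁻¹ / 4 * dst s t) *
        (‖Op t (aS t) f x‖ * G s x ^ 2) ∂haar d ≤
        (C1 * K * 3 ^ d * (6 ^ d) ^ 2 * 2 ^ (r⁻¹ * l) * b t) *
          (2 : ℝ) ^ (-(r⁻¹ / 4) * dst s t) := by
      intro s hs
      rw [integral_const_mul]
      have := hb0 t
      have tr := htri s t (fun x => ‖Op t (aS t) f x‖) (G s) (3 ^ d * b t) (6 ^ d)
        (continuous_Op _ _ _).norm (hGc s) (fun x => norm_nonneg _) (hG0 s) (by positivity)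
        (by positivity) (maj_block t hq.le f) (hMG s)
      refine (mul_le_mul_of_nonneg_left tr (by positivity)).trans ?_
      have e1 : (2 : ℝ) ^ (r⁻¹ / 4 * dst s t) * 2 ^ (r⁻¹ * wt (t ⊓ s)) ≤
          2 ^ (r⁻¹ * l) * 2 ^ (-(r⁻¹ / 4) * dst s t) := by
        rw [← Real.rpow_add (by norm_num), ← Real.rpow_add (by norm_num)]
        refine Real.rpow_le_rpow_of_exponent_le (by norm_num) ?_
        have b1 : 2 * wt (t ⊓ s) + dst s t ≤ 2 * l := by
          have := wt_inf t s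
          have := hS s hs
          have := hS t ht
          rw [dst_comm]; omega
        have b2 : (2 : ℝ) * wt (t ⊓ s) + dst s t ≤ 2 * l := by exact_mod_cast b1
        have : 0 < r⁻¹ := by positivity
        nlinarith
      calc _ = (C1 * K * 3 ^ d * (6 ^ d) ^ 2 * b t) *
            ((2 : ℝ) ^ (r⁻¹ / 4 * dst s t) * 2 ^ (r⁻¹ * wt (t ⊓ s))) := by ring
        _ ≤ (C1 * K * 3 ^ d * (6 ^ d) ^ 2 * b t) *
            (2 ^ (r⁻¹ * l) * 2 ^ (-(r⁻¹ / 4) * dst s t)) := by gcongr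
        _ = _ := by ring
    refine (Finset.sum_le_sum s1).trans ?_
    rw [← Finset.mul_sum]
    have := hb0 t
    refine (mul_le_mul_of_nonneg_left (hG S t) (by positivity)).trans (le_of_eq ?_)
    rw [hC3]; ring
  -- step 3
  set L : ℝ := 2 * C3 * 2 ^ (r⁻¹ * l) with hL
  have hL0 : 0 < L := by positivity
  have st3 : ∫ x, ‖f x‖ * ∑ s ∈ S, G s x ∂haar d ≤
      L * Np 1 f + L⁻¹ * ∫ x, ‖f x‖ * (∑ s ∈ S, G s x) ^ 2 ∂haar d := by
    have c1 : Continuous fun x => L * ‖f x‖ := continuous_const.mul hf.norm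
    have c2 : Continuous fun x => L⁻¹ * (‖f x‖ * (∑ s ∈ S, G s x) ^ 2) :=
      continuous_const.mul (hf.norm.mul (hSc.pow 2))
    rw [Np_one, ← integral_const_mul, ← integral_const_mul, ← integral_add (cint c1) (cint c2)]
    refine integral_mono (cint (hf.norm.mul hSc)) (cint (c1.add c2)) fun x => ?_
    have h1 : ∑ s ∈ S, G s x ≤ L + L⁻¹ * (∑ s ∈ S, G s x) ^ 2 := by
      have h0 : 0 ≤ ∑ s ∈ S, G s x := Finset.sum_nonneg fun s _ => hG0 s x
      rw [← mul_le_mul_iff_right₀ hL0, mul_add, mul_inv_cancel_left₀ hL0.ne']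
      nlinarith [sq_nonneg (L - ∑ s ∈ S, G s x)]
    have := mul_le_mul_of_nonneg_left h1 (norm_nonneg (f x))
    simp only
    linarith
  have st4 : L⁻¹ * ∫ x, ‖f x‖ * (∑ s ∈ S, G s x) ^ 2 ∂haar d ≤ (∑ s ∈ S, b s) / 2 := by
    refine (mul_le_mul_of_nonneg_left st2 (by positivity)).trans (le_of_eq ?_)
    rw [hL]; field_simp
  have : 4 * C3 * 2 ^ (r⁻¹ * l) * Np 1 f = 2 * (L * Np 1 f) := by rw [hL]; ring
  rw [this]
  linarith

end Pool.Agent.P.MP_33127d_an
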