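import Pool.Agent.P.MP_33127d_an.Fejer

namespace Pool.Agent.P.MP_33127d_an

open MeasureTheory UnitAddTorus Finset
open scoped ComplexConjugate

variable {d : ℕ}

def wt (s : Fin d → ℕ) : ℕ := ∑ j, s j

noncomputable def box (s : Fin d → ℕ) : Finset (ZZ d) := Fintype.piFinset fun j => I1 (s j)

theorem mem_box {s : Fin d → ℕ} {k : ZZ d} : k ∈ box s ↔ ∀ j, |k j| < 2 ^ (s j + 2) := by
  simp [box, mem_I1]

theorem neg_mem_box {s : Fin d → ℕ} {k : ZZ d} : -k ∈ box s ↔ k ∈ box s := by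
  simp [mem_box]

theorem zero_mem_box (s : Fin d → ℕ) : (0 : ZZ d) ∈ box s := by
  simp [mem_box]

theorem card_box (s : Fin d → ℕ) : ((box s).card : ℝ) ≤ 8 ^ d * 2 ^ wt s := by
  have : (box s).card ≤ 8 ^ d * 2 ^ wt s := by
    rw [box, Fintype.card_piFinset]
    refine (Finset.prod_le_prod' fun j _ => card_I1 (s j)).trans (le_of_eq ?_)
    rw [Finset.prod_mul_distrib, Finset.prod_pow_eq_pow_sum]
    simp [wt]
  exact_mod_cast this

theorem box_inter (s t : Fin d → ℕ) : box s ∩ box t ⊆ box (s ⊓ t) := by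
  intro k hk
  simp only [mem_inter, mem_box, Pi.inf_apply] at hk ⊢
  intro j
  rcases min_choice (s j) (t j) with h | h <;> rw [h]
  exacts [hk.1 j, hk.2 j]

theorem tp_prod (I : Fin d → Finset ℤ) (a : Fin d → ℤ → ℂ) (z : TT d) :
    tp (Fintype.piFinset I) (fun k => ∏ j, a j (k j)) z =
      ∏ j, ∑ k ∈ I j, a j k * fourier k (z j) := by
  rw [Finset.prod_univ_sum, tp]
  refine Finset.sum_congr rfl fun k _ => ?_
  rw [e_eq_prod, Finset.prod_mul_distrib]

def Dom (s : Fin d → ℕ) (C : ℝ) (m : ZZ d → ℝ) : Prop :=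
  ∃ φ : ZZ d → ℝ, ∃ Φ : TT d → ℝ, (∀ k, |φ k| ≤ C) ∧
    (∀ z, (Φ z : ℂ) = tp (box s) (fun k => φ k) z) ∧ ∀ z, ‖tp (box s) (fun k => m k) z‖ ≤ Φ z

theorem dom_prod {s : Fin d → ℕ} {C : ℝ} {a : Fin d → ℤ → ℝ} (h : ∀ j, Dom1 (s j) C (a j)) :
    Dom s (C ^ d) fun k => ∏ j, a j (k j) := by
  choose φ Φ h1 h2 h3 using h
  refine ⟨fun k => ∏ j, φ j (k j), fun z => ∏ j, Φ j (z j), fun k => ?_, fun z => ?_, fun z => ?_⟩
  · rw [Finset.abs_prod]
    refine (Finset.prod_le_prod (fun j _ => abs_nonneg _) fun j _ => h1 j (k j)).trans ?_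
    simp
  · push_cast
    rw [box, tp_prod (a := fun j k => (φ j k : ℂ))]
    simp only [h2]
  · push_cast
    rw [box, tp_prod (a := fun j k => (a j k : ℂ)), norm_prod]
    exact Finset.prod_le_prod (fun j _ => norm_nonneg _) fun j _ => h3 j (z j)

noncomputable def Op (s : Fin d → ℕ) (m : ZZ d → ℝ) (h : TT d → ℂ) : TT d → ℂ :=
  tp (box s) fun k => m k * coef h k

@[fun_prop] theorem continuous_Op (s : Fin d → ℕ) (m : ZZ d → ℝ) (h : TT d → ℂ) :
    Continuous (Op s m h) := continuous_tp _ _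

theorem tp_conv (K : Finset (ZZ d)) (c : ZZ d → ℂ) {h : TT d → ℂ} (hh : Integrable h (haar d))
    (x : TT d) : ∫ y, tp K c (x - y) * h y ∂haar d = tp K (fun k => c k * coef h k) x := by
  simp only [tp, Finset.sum_mul, e_sub]
  have : ∀ k y, c k * (e k x * e (-k) y) * h y = (c k * e k x) * (e (-k) y * h y) := by
    intro k y; ring
  simp only [this]
  rw [integral_finsetSum _ fun k _ => (int_mul_e hh _).const_mul _]
  refine Finset.sum_congr rfl fun k _ => ?_
  rw [integral_const_mul, coef]; ring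

def Maj (s : Fin d → ℕ) (U : TT d → ℝ) (A : ℝ) : Prop :=
  ∃ c : ZZ d → ℂ, ∃ P : TT d → ℝ, (∀ k, ‖c k‖ ≤ A) ∧
    (∀ x, (P x : ℂ) = tp (box s) c x) ∧ ∀ x, U x ≤ P x

theorem cont_of_ofReal {P : TT d → ℝ} {K : Finset (ZZ d)} {c : ZZ d → ℂ}
    (h : ∀ x, (P x : ℂ) = tp K c x) : Continuous P := by
  have : P = fun x => (tp K c x).re := funext fun x => by rw [← h x]; simp
  rw [this]; fun_prop

theorem Maj.mono {s : Fin d → ℕ} {U : TT d → ℝ} {A A' : ℝ} (h : Maj s U A) (hA : A ≤ A') :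
    Maj s U A' := by
  obtain ⟨c, P, h1, h2, h3⟩ := h
  exact ⟨c, P, fun k => (h1 k).trans hA, h2, h3⟩

theorem Maj.nonneg {s : Fin d → ℕ} {U : TT d → ℝ} {A : ℝ} (h : Maj s U A) : 0 ≤ A := by
  obtain ⟨c, P, h1, -, -⟩ := h
  exact (norm_nonneg _).trans (h1 0)

theorem Maj.integral_le {s : Fin d → ℕ} {U : TT d → ℝ} {A : ℝ} (h : Maj s U A)
    (hU : Continuous U) : ∫ x, U x ∂haar d ≤ A := by
  obtain ⟨c, P, h1, h2, h3⟩ := h
  refine (integral_mono (cint hU) (cint (cont_of_ofReal h2)) h3).trans ?_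
  have : ((∫ x, P x ∂haar d : ℝ) : ℂ) = c 0 := by
    rw [← integral_complex_ofReal]
    simp only [h2, integral_tp, zero_mem_box, if_true]
  refine (le_abs_self _).trans ?_
  rw [← Real.norm_eq_abs, ← Complex.norm_real, this]
  exact h1 0

theorem Maj.le_sup {s : Fin d → ℕ} {U : TT d → ℝ} {A : ℝ} (h : Maj s U A) (x : TT d) :
    U x ≤ 8 ^ d * 2 ^ wt s * A := by
  have hA := h.nonneg
  obtain ⟨c, P, h1, h2, h3⟩ := h
  refine (h3 x).trans ((le_abs_self _).trans ?_)
  rw [← Real.norm_eq_abs, ← Complex.norm_real, h2]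
  refine (norm_tp_le _ _ _).trans ((Finset.sum_le_card_nsmul _ _ _ fun k _ => h1 k).trans ?_)
  rw [nsmul_eq_mul]
  exact mul_le_mul_of_nonneg_right (card_box s) hA

theorem Maj.bilin {s t : Fin d → ℕ} {U V : TT d → ℝ} {A B : ℝ} (h : Maj s U A) (h' : Maj t V B)
    (hU : Continuous U) (hV : Continuous V) (hU0 : ∀ x, 0 ≤ U x) (hV0 : ∀ x, 0 ≤ V x) :
    ∫ x, U x * V x ∂haar d ≤ 8 ^ d * 2 ^ wt (s ⊓ t) * (A * B) := by
  have hA := h.nonneg
  have hB := h'.nonneg
  obtain ⟨c, P, h1, h2, h3⟩ := h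
  obtain ⟨c', P', h1', h2', h3'⟩ := h'
  refine (integral_mono (cint (hU.mul hV)) (cint ((cont_of_ofReal h2).mul (cont_of_ofReal h2')))
    fun x => mul_le_mul (h3 x) (h3' x) (hV0 x) ((hU0 x).trans (h3 x))).trans ?_
  have : ((∫ x, P x * P' x ∂haar d : ℝ) : ℂ) = ∑ k ∈ box s ∩ box t, c k * c' (-k) := by
    rw [← integral_complex_ofReal]
    push_cast
    simp only [h2, h2']
    rw [integral_tp_mul _ _ (cint (continuous_tp _ _))]
    simp only [coef_tp, neg_mem_box, mul_ite, mul_zero]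
    rw [Finset.sum_ite_mem]
  refine (le_abs_self _).trans ?_
  change |∫ x, P x * P' x ∂haar d| ≤ _
  rw [← Real.norm_eq_abs, ← Complex.norm_real, this]
  refine (norm_sum_le _ _).trans ((Finset.sum_le_card_nsmul _ _ (A * B) fun k _ => ?_).trans ?_)
  · rw [norm_mul]
    exact mul_le_mul (h1 _) (h1' _) (norm_nonneg _) hA
  · rw [nsmul_eq_mul]
    refine mul_le_mul_of_nonneg_right (le_trans ?_ (card_box (s ⊓ t))) (by positivity)
    exact_mod_cast Finset.card_le_card (box_inter s t)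

theorem maj_op {s : Fin d → ℕ} {C r : ℝ} {m : ZZ d → ℝ} (hm : Dom s C m) (hr : 1 ≤ r)
    {h : TT d → ℂ} (hh : Continuous h) :
    Maj s (fun x => ‖Op s m h x‖ ^ r) ((C * Np r h) ^ r) := by
  obtain ⟨φ, Φ, h1, h2, h3⟩ := hm
  have hr0 : 0 < r := by linarith
  have hC : 0 ≤ C := (abs_nonneg _).trans (h1 0)
  have hΦ : Continuous Φ := cont_of_ofReal h2
  have hΦ0 : ∀ z, 0 ≤ Φ z := fun z => (norm_nonneg _).trans (h3 z)
  have hH : Continuous fun y => ‖h y‖ ^ r := hh.norm.rpow_const fun _ => Or.inr hr0.le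
  refine ⟨fun k => (C ^ (r - 1) : ℝ) * (φ k * coef (fun y => ((‖h y‖ ^ r : ℝ) : ℂ)) k),
    fun x => C ^ (r - 1) * ∫ y, Φ (x - y) * ‖h y‖ ^ r ∂haar d, fun k => ?_, fun x => ?_,
    fun x => ?_⟩
  · rw [Real.mul_rpow hC (Np_nonneg _ _), Np_rpow hr0, norm_mul, norm_mul, Complex.norm_real,
      Complex.norm_real, Real.norm_of_nonneg (by positivity), Real.norm_eq_abs, ← mul_assoc]
    have e1 : C ^ r = C ^ (r - 1) * C := by
      rw [← Real.rpow_add_one' hC (by linarith)]; simp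
    rw [e1]
    refine mul_le_mul (mul_le_mul_of_nonneg_left (h1 k) (by positivity))
      ((norm_coef_le _ _).trans (le_of_eq ?_)) (norm_nonneg _) (by positivity)
    refine integral_congr_ae (ae_of_all _ fun y => ?_)
    simp only [Complex.norm_real]
    exact Real.norm_of_nonneg (by positivity)
  · push_cast
    rw [← integral_complex_ofReal]
    simp only [Complex.ofReal_mul, h2]
    rw [tp_conv _ _ (cint (by fun_prop))]
    simp only [tp, Finset.mul_sum, mul_assoc]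
  · have hw : Continuous fun y => Φ (x - y) := by fun_prop
    have i1 : ∫ y, Φ (x - y) ∂haar d ≤ C := by
      have : ((∫ y, Φ (x - y) ∂haar d : ℝ) : ℂ) = φ 0 := by
        rw [← integral_complex_ofReal]
        have := tp_conv (box s) (fun k => φ k) (cint (continuous_e 0)) x
        simp only [e_zero, mul_one] at this
        simp only [h2, this]
        simp [zero_mem_box, tp, coef_e]
      have h4 : ∫ y, Φ (x - y) ∂haar d = φ 0 := by exact_mod_cast this
      rw [h4]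
      exact (le_abs_self _).trans (h1 0)
    have i2 := jensen (θ := r⁻¹) (by positivity) (inv_le_one_of_one_le₀ hr) hw hH
      (fun y => hΦ0 _) (fun y => by positivity) i1 le_rfl
    have i3 : ‖Op s m h x‖ ≤ ∫ y, Φ (x - y) * (‖h y‖ ^ r) ^ r⁻¹ ∂haar d := by
      rw [Op, ← tp_conv _ _ (cint hh)]
      refine (norm_integral_le_integral_norm _).trans (integral_mono (cint (by fun_prop))
        (cint (hw.mul (hH.rpow_const fun _ => Or.inr (by positivity)))) fun y => ?_)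
      simp only [norm_mul]
      rw [Real.rpow_rpow_inv (norm_nonneg _) hr0.ne']
      exact mul_le_mul_of_nonneg_right (h3 _) (norm_nonneg _)
    have i4 : 0 ≤ ∫ y, Φ (x - y) * ‖h y‖ ^ r ∂haar d :=
      integral_nonneg fun y => mul_nonneg (hΦ0 _) (by positivity)
    refine (Real.rpow_le_rpow (norm_nonneg _) (i3.trans i2) hr0.le).trans (le_of_eq ?_)
    rw [Real.mul_rpow (by positivity) (by positivity), Real.rpow_inv_rpow i4 hr0.ne',
      ← Real.rpow_mul hC]
    congr 2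
    field_simp

/-- the smooth block symbol -/
noncomputable def aS (s : Fin d → ℕ) (k : ZZ d) : ℝ := ∏ j, ab (s j) (k j)

theorem dom_aS (s : Fin d → ℕ) : Dom s (6 ^ d) (aS s) := dom_prod fun j => dom1_ab (s j)

theorem aS_neg (s : Fin d → ℕ) (k : ZZ d) : aS s (-k) = aS s k := by simp [aS, ab_neg]

theorem aS_ne_zero {s : Fin d → ℕ} {k : ZZ d} (h : aS s k ≠ 0) (j : Fin d) :
    |k j| < 2 ^ (s j + 1) := by
  by_contra hc
  exact h (Finset.prod_eq_zero (Finset.mem_univ j) (ab_eq_zero_of_large (not_lt.mp hc)))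

theorem maj_self {s : Fin d → ℕ} {r : ℝ} (hr : 1 ≤ r) {K : Finset (ZZ d)} {c : ZZ d → ℂ}
    (hK : ∀ k ∈ K, c k ≠ 0 → ∀ j, |k j| ≤ 2 ^ (s j + 1)) :
    Maj s (fun x => ‖tp K c x‖ ^ r) ((3 ^ d * Np r (tp K c)) ^ r) := by
  classical
  have hD : Dom s (3 ^ d) fun k => ∏ j, vp (s j + 1) (k j) := dom_prod fun j => dom1_vp le_rfl
  have h := maj_op hD hr (continuous_tp K c)
  have e1 : Op s (fun k => ∏ j, vp (s j + 1) (k j)) (tp K c) = tp K c := by
    have s1 : K.filter (fun k => c k ≠ 0) ⊆ box s := by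
      intro k hk
      rw [Finset.mem_filter] at hk
      rw [mem_box]
      exact fun j => (hK k hk.1 hk.2 j).trans_lt (pow_lt_pow_right₀ (by norm_num) (by omega))
    have e2 : tp (K.filter fun k => c k ≠ 0) c = tp K c :=
      tp_subset' (Finset.filter_subset _ _) fun k hk hk2 => by simpa [hk] using hk2
    rw [Op]
    conv_rhs => rw [← e2, tp_subset s1]
    refine tp_congr fun k _ => ?_
    rw [coef_tp]
    by_cases h1 : k ∈ K
    · by_cases h2 : c k = 0
      · simp [h2]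
      · simp [h1, h2, vp_eq_one (hK k h1 h2 _)]
    · simp [h1]
  rwa [e1] at h

theorem maj_block (s : Fin d → ℕ) {r : ℝ} (hr : 1 ≤ r) (h : TT d → ℂ) :
    Maj s (fun x => ‖Op s (aS s) h x‖ ^ r) ((3 ^ d * Np r (Op s (aS s) h)) ^ r) :=
  maj_self hr fun k _ hk j => (aS_ne_zero (fun h0 => hk (by simp [h0])) j).le

theorem Op_pairing (s : Fin d → ℕ) {f h : TT d → ℂ} (hf : Continuous f) (hh : Continuous h) :
    ∫ x, Op s (aS s) f x * h x ∂haar d = ∫ x, Op s (aS s) h x * f x ∂haar d := by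
  rw [Op, Op, integral_tp_mul _ _ (cint hh), integral_tp_mul _ _ (cint hf)]
  refine Finset.sum_nbij' (fun k => -k) (fun k => -k) (fun k hk => neg_mem_box.mpr hk)
    (fun k hk => neg_mem_box.mpr hk) (by simp) (by simp) fun k _ => ?_
  rw [aS_neg, neg_neg]; ring

end Pool.Agent.P.MP_33127d_an
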