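import Pool.Agent.P.MP_33127d_an.KLemma

namespace Pool.Agent.P.MP_33127d_an

open MeasureTheory Finset
open scoped ComplexConjugate

variable {d : ℕ}

theorem mem_rho {s : Fin d → ℕ} {k : ZZ d} :
    k ∈ rho s ↔ ∀ j, 2 ^ s j / 2 ≤ |k j| ∧ |k j| < 2 ^ s j := by
  simp only [rho, Fintype.mem_piFinset, mem_filter, mem_Ioo, abs_lt]
  exact forall_congr' fun j => and_comm

theorem rho1_unique {s t : ℕ} {k : ℤ} (h1 : 2 ^ s / 2 ≤ |k| ∧ |k| < 2 ^ s)
    (h2 : 2 ^ t / 2 ≤ |k| ∧ |k| < 2 ^ t) : s = t := by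
  have key : ∀ s t : ℕ, |k| < 2 ^ s → 2 ^ t / 2 ≤ |k| → t ≤ s := by
    intro s t h1 h2
    by_contra hc
    obtain ⟨j, rfl⟩ : ∃ j, t = j + 1 := ⟨t - 1, by omega⟩
    rw [pow_succ (2 : ℤ) j, Int.mul_ediv_cancel _ (by norm_num)] at h2
    have : (2 : ℤ) ^ s ≤ 2 ^ j := pow_le_pow_right₀ (by norm_num) (by omega)
    omega
  exact le_antisymm (key _ _ h2.2 h1.1) (key _ _ h1.2 h2.1)

theorem rho_unique {s t : Fin d → ℕ} {k : ZZ d} (h1 : k ∈ rho s) (h2 : k ∈ rho t) : s = t :=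
  funext fun j => rho1_unique (mem_rho.mp h1 j) (mem_rho.mp h2 j)

theorem exists_rho (k : ZZ d) : ∃ s, k ∈ rho s := by
  refine ⟨fun j => Nat.size (k j).natAbs, mem_rho.mpr fun j => ⟨?_, ?_⟩⟩
  · rcases Nat.eq_zero_or_pos (Nat.size (k j).natAbs) with h | h
    · simp [h]
    · obtain ⟨i, hi⟩ : ∃ i, Nat.size (k j).natAbs = i + 1 := ⟨_, (Nat.succ_pred_eq_of_pos h).symm⟩
      have := Nat.lt_size.mp (show i < Nat.size (k j).natAbs by omega)
      rw [hi, pow_succ (2 : ℤ) i, Int.mul_ediv_cancel _ (by norm_num), Int.abs_eq_natAbs]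
      exact_mod_cast this
  · rw [Int.abs_eq_natAbs]
    exact_mod_cast Nat.lt_size_self (k j).natAbs

theorem card_rho (s : Fin d → ℕ) : (rho s).card ≤ 2 ^ d * 2 ^ wt s := by
  rw [rho, Fintype.card_piFinset]
  have : ∀ j : ℕ, ((Finset.Ioo (-(2 : ℤ) ^ j) (2 ^ j)).filter fun k => 2 ^ j / 2 ≤ |k|).card ≤
      2 * 2 ^ j := by
    intro j
    refine (Finset.card_filter_le _ _).trans ?_
    have : ((Finset.Ioo (-(2 : ℤ) ^ j) (2 ^ j)).card : ℤ) ≤ 2 * 2 ^ j := by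
      have h : (0 : ℤ) < 2 ^ j := by positivity
      rw [Int.card_Ioo]
      omega
    exact_mod_cast this
  refine (Finset.prod_le_prod' fun j _ => this (s j)).trans (le_of_eq ?_)
  rw [Finset.prod_mul_distrib, Finset.prod_pow_eq_pow_sum]
  simp [wt]

noncomputable def Delta (d l : ℕ) : Finset (ZZ d) :=
  (Finset.Nat.antidiagonalTuple d l).biUnion rho

theorem mem_Delta {l : ℕ} {k : ZZ d} : k ∈ Delta d l ↔ ∃ s, wt s = l ∧ k ∈ rho s := by
  simp [Delta, Finset.Nat.mem_antidiagonalTuple, wt]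

theorem Delta_unique {l l' : ℕ} {k : ZZ d} (h1 : k ∈ Delta d l) (h2 : k ∈ Delta d l') :
    l = l' := by
  obtain ⟨s, rfl, hs⟩ := mem_Delta.mp h1
  obtain ⟨t, rfl, ht⟩ := mem_Delta.mp h2
  rw [rho_unique hs ht]

theorem exists_Delta (k : ZZ d) : ∃ l, k ∈ Delta d l := by
  obtain ⟨s, hs⟩ := exists_rho k
  exact ⟨wt s, mem_Delta.mpr ⟨s, rfl, hs⟩⟩

theorem card_Delta (n l : ℕ) : (Delta (n + 1) l).card ≤ 2 ^ (n + 1) * 2 ^ l * (l + 1) ^ n := by
  refine Finset.card_biUnion_le.trans ?_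
  refine (Finset.sum_le_card_nsmul _ _ (2 ^ (n + 1) * 2 ^ l) fun s hs => ?_).trans ?_
  · rw [Finset.Nat.mem_antidiagonalTuple] at hs
    rw [← hs]
    exact card_rho s
  · rw [smul_eq_mul, mul_comm]
    exact Nat.mul_le_mul_left _ (card_antidiag_le n l)

theorem layer_eq (l : ℕ) (f : TT d → ℂ) : layer l f = tp (Delta d l) (coef f) := by
  funext x
  rw [layer, tp, Delta, Finset.sum_biUnion]
  · rfl
  · intro s _ t _ hst
    rw [Function.onFun, Finset.disjoint_left]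
    exact fun k h1 h2 => hst (rho_unique h1 h2)

@[fun_prop] theorem continuous_layer (l : ℕ) (f : TT d → ℂ) : Continuous (layer l f) := by
  rw [layer_eq]; fun_prop

theorem aS_mem_box {s : Fin d → ℕ} {k : ZZ d} (h : aS s k ≠ 0) : k ∈ box s :=
  mem_box.mpr fun j => (aS_ne_zero h j).trans (pow_lt_pow_right₀ (by norm_num) (by omega))

theorem Op_tp (s : Fin d → ℕ) (K : Finset (ZZ d)) (c : ZZ d → ℂ) :
    Op s (aS s) (tp K c) = tp K fun k => aS s k * c k := by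
  classical
  have h1 : tp (K ∩ box s) (fun k => aS s k * c k) = tp K fun k => aS s k * c k := by
    refine tp_subset' Finset.inter_subset_left fun k hk hk2 => ?_
    have : aS s k = 0 := by
      by_contra hc
      exact hk2 (Finset.mem_inter.mpr ⟨hk, aS_mem_box hc⟩)
    simp [this]
  rw [← h1, tp_subset (Finset.inter_subset_right (s₁ := K)), Op]
  refine tp_congr fun k hk => ?_
  simp [coef_tp, hk]

noncomputable def Sh (d l : ℕ) : Finset (Fin d → ℕ) :=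
  (Fintype.piFinset fun _ => range (l + 1)).filter fun s => l ≤ wt s + d ∧ wt s ≤ l

theorem sum_aS {l : ℕ} {k : ZZ d} (hk : k ∈ Delta d l) : ∑ s ∈ Sh d l, aS s k = 1 := by
  obtain ⟨t, ht, hk⟩ := mem_Delta.mp hk
  rw [mem_rho] at hk
  rw [Sh, Finset.sum_filter_of_ne]
  · simp only [aS]
    rw [← Finset.prod_univ_sum (fun _ => range (l + 1)) fun j i => ab i (k j)]
    refine Finset.prod_eq_one fun j _ => ?_
    rw [sum_ab]
    refine vp_eq_one ((hk j).2.le.trans (pow_le_pow_right₀ (by norm_num) ?_))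
    rw [← ht]
    exact Finset.single_le_sum (f := t) (fun _ _ => Nat.zero_le _) (Finset.mem_univ j)
  · intro s _ hs
    have h1 : ∀ j, s j ≤ t j ∧ t j ≤ s j + 1 := fun j =>
      ab_ne_zero (hk j).1 (hk j).2 fun h0 => hs (Finset.prod_eq_zero (Finset.mem_univ j) h0)
    rw [← ht]
    refine ⟨?_, Finset.sum_le_sum fun j _ => (h1 j).1⟩
    have := Finset.sum_le_sum fun j (_ : j ∈ Finset.univ) => (h1 j).2
    simpa [wt, Finset.sum_add_distrib] using this

theorem layer_decomp (l : ℕ) (f : TT d → ℂ) (x : TT d) :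
    layer l f x = ∑ s ∈ Sh d l, Op s (aS s) (layer l f) x := by
  simp only [layer_eq, Op_tp, tp]
  rw [Finset.sum_comm]
  refine Finset.sum_congr rfl fun k hk => ?_
  rw [← Finset.sum_mul, ← Finset.sum_mul, ← Complex.ofReal_sum, sum_aS hk]
  simp

theorem klayer {q : ℝ} (hq : 1 < q) (hq2 : q ≤ 2) : ∃ C : ℝ, 0 < C ∧
    ∀ (l : ℕ) (f : TT d → ℂ), ∑ s ∈ Sh d l, Np q (Op s (aS s) (layer l f)) ≤
      C * (2 : ℝ) ^ ((1 - q⁻¹) * l) * Np 1 (layer l f) := by
  obtain ⟨C, hC, h⟩ := klemma (d := d) hq hq2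
  exact ⟨C, hC, fun l f => h l _ _ (continuous_layer l f)
    (fun s hs => (Finset.mem_filter.mp hs).2.2) (layer_decomp l f)⟩

theorem Np_two_tp (K : Finset (ZZ d)) (c : ZZ d → ℂ) :
    Np 2 (tp K c) = √(∑ k ∈ K, ‖c k‖ ^ 2) := by
  rw [Np, Real.sqrt_eq_rpow, ← parseval]
  simp

theorem anorm_layer : ∃ C : ℝ, 0 < C ∧ ∀ (l : ℕ) (f : TT d → ℂ),
    ∑ k ∈ Delta d l, ‖coef f k‖ ≤ C * 2 ^ l * Np 1 (layer l f) := by
  classical
  obtain ⟨C, hC, h⟩ := klayer (d := d) (q := 2) (by norm_num) le_rfl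
  refine ⟨√(8 ^ d) * C, by positivity, fun l f => ?_⟩
  have e1 : ∑ k ∈ Delta d l, ‖coef f k‖ ≤
      ∑ s ∈ Sh d l, ∑ k ∈ Delta d l, ‖(aS s k : ℂ) * coef f k‖ := by
    rw [Finset.sum_comm]
    refine Finset.sum_le_sum fun k hk => le_trans (le_of_eq ?_) (norm_sum_le _ _)
    rw [← Finset.sum_mul, ← Complex.ofReal_sum, sum_aS hk]
    simp
  have e2 : ∀ s ∈ Sh d l, ∑ k ∈ Delta d l, ‖(aS s k : ℂ) * coef f k‖ ≤
      √(8 ^ d * 2 ^ l) * Np 2 (Op s (aS s) (layer l f)) := by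
    intro s hs
    rw [layer_eq, Op_tp, Np_two_tp, ← Real.sqrt_mul (by positivity)]
    refine Real.le_sqrt_of_sq_le ?_
    rw [← Finset.sum_filter_of_ne (p := fun k => k ∈ box s) fun k _ hk =>
      aS_mem_box fun h0 => hk (by simp [h0])]
    refine (sq_sum_le_card_mul_sum_sq).trans (mul_le_mul ?_ ?_ (by positivity) (by positivity))
    · have h1 : ((Delta d l).filter fun k => k ∈ box s).card ≤ (box s).card :=
        Finset.card_le_card fun k hk => (Finset.mem_filter.mp hk).2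
      have h2 : (2 : ℝ) ^ wt s ≤ 2 ^ l :=
        pow_le_pow_right₀ (by norm_num) (Finset.mem_filter.mp hs).2.2
      calc _ ≤ ((box s).card : ℝ) := by exact_mod_cast h1
        _ ≤ 8 ^ d * 2 ^ wt s := card_box s
        _ ≤ _ := by gcongr
    · exact Finset.sum_le_sum_of_subset_of_nonneg (Finset.filter_subset _ _)
        fun _ _ _ => by positivity
  refine e1.trans ((Finset.sum_le_sum e2).trans ?_)
  rw [← Finset.mul_sum]
  refine (mul_le_mul_of_nonneg_left (h l f) (by positivity)).trans (le_of_eq ?_)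
  have e3 : (2 : ℝ) ^ ((1 - 2⁻¹ : ℝ) * l) = √(2 ^ l) := by
    rw [Real.sqrt_eq_rpow, ← Real.rpow_natCast, ← Real.rpow_mul (by norm_num)]
    congr 1; ring
  have e4 : √(2 ^ l) * √(2 ^ l) = (2 : ℝ) ^ l := Real.mul_self_sqrt (by positivity)
  rw [e3, Real.sqrt_mul (by positivity)]
  conv_rhs => rw [← e4]
  ring

theorem Np_interp {p M : ℝ} (hp : 1 ≤ p) (hM : 0 ≤ M) {u : TT d → ℂ} (hu : Continuous u)
    (h : ∀ x, ‖u x‖ ≤ M) : Np p u ≤ M ^ (1 - p⁻¹) * Np 1 u ^ p⁻¹ := by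
  have hp0 : 0 < p := by linarith
  have h1 := Np_nonneg 1 u
  refine Np_le_of_integral_le hp0 (by positivity) ?_
  rw [Real.mul_rpow (by positivity) (by positivity), Real.rpow_inv_rpow h1 hp0.ne',
    ← Real.rpow_mul hM, Np_one, ← integral_const_mul]
  refine integral_mono (cint (hu.norm.rpow_const fun _ => Or.inr hp0.le))
    (cint (continuous_const.mul hu.norm)) fun x => ?_
  have e1 : (1 - p⁻¹) * p = p - 1 := by field_simp
  have e2 : ‖u x‖ ^ p = ‖u x‖ ^ (p - 1) * ‖u x‖ := by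
    rw [← Real.rpow_add_one' (norm_nonneg _) (by linarith)]; simp
  simp only [e1, e2]
  exact mul_le_mul_of_nonneg_right (Real.rpow_le_rpow (norm_nonneg _) (h x) (by linarith))
    (norm_nonneg _)

theorem nikolskii {p : ℝ} (hp : 1 ≤ p) : ∃ C : ℝ, 0 < C ∧ ∀ (l : ℕ) (f : TT d → ℂ),
    Np p (layer l f) ≤ C * (2 : ℝ) ^ ((1 - p⁻¹) * l) * Np 1 (layer l f) := by
  obtain ⟨C, hC, h⟩ := anorm_layer (d := d)
  refine ⟨C ^ (1 - p⁻¹), by positivity, fun l f => ?_⟩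
  have h1 := Np_nonneg 1 (layer l f)
  have h2 : ∀ x, ‖layer l f x‖ ≤ C * 2 ^ l * Np 1 (layer l f) := fun x => by
    refine le_trans ?_ (h l f)
    rw [layer_eq]
    exact norm_tp_le _ _ _
  refine (Np_interp hp (by positivity) (continuous_layer l f) h2).trans (le_of_eq ?_)
  rw [Real.mul_rpow (by positivity) h1, Real.mul_rpow (by positivity) (by positivity),
    mul_assoc, ← Real.rpow_add' h1 (by simp), ← Real.rpow_natCast,
    ← Real.rpow_mul (by norm_num), mul_comm (l : ℝ)]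
  simp

end Pool.Agent.P.MP_33127d_an
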