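import Pool.Agent.P.MP_33127d_an.Upper

namespace Pool.Agent.P.MP_33127d_an

open MeasureTheory Finset
open scoped ComplexConjugate

variable {d : ℕ}

noncomputable def J1 (i : ℕ) : Finset ℤ := Finset.Ioo (2 * 2 ^ i) (4 * 2 ^ i)

noncomputable def supp (s : Fin d → ℕ) : Finset (ZZ d) := Fintype.piFinset fun j => J1 (s j)

noncomputable def Fc (s : Fin d → ℕ) (k : ZZ d) : ℝ := ∏ j, fej (2 ^ s j) (k j - 3 * 2 ^ s j)

noncomputable def FF (s : Fin d → ℕ) : TT d → ℂ := tp (supp s) fun k => Fc s k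

@[fun_prop] theorem continuous_FF (s : Fin d → ℕ) : Continuous (FF s) := continuous_tp _ _

theorem supp_rho {s : Fin d → ℕ} {k : ZZ d} (h : k ∈ supp s) : k ∈ rho fun j => s j + 2 := by
  simp only [supp, Fintype.mem_piFinset, J1, mem_Ioo] at h
  rw [mem_rho]
  intro j
  have := h j
  have h0 : (0 : ℤ) < 2 ^ s j := by positivity
  rw [pow_add, abs_of_pos (by omega)]
  omega

theorem supp_unique {s t : Fin d → ℕ} {k : ZZ d} (h : k ∈ supp s) (h' : k ∈ supp t) : s = t := by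
  have := rho_unique (supp_rho h) (supp_rho h')
  funext j
  simpa using congrFun this j

theorem supp_le {s : Fin d → ℕ} {k : ZZ d} (h : k ∈ supp s) (j : Fin d) :
    |k j| ≤ 2 ^ (s j + 1 + 1) := (mem_rho.mp (supp_rho h) j).2.le

theorem Fc_nonneg (s : Fin d → ℕ) (k : ZZ d) : 0 ≤ Fc s k :=
  Finset.prod_nonneg fun _ _ => fej_nonneg _ _

theorem Fc_le_one (s : Fin d → ℕ) (k : ZZ d) : Fc s k ≤ 1 :=
  Finset.prod_le_one (fun _ _ => fej_nonneg _ _) fun _ _ => fej_le_one _ _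

theorem sum_J1 {M : Type*} [AddCommMonoid M] (i : ℕ) (g : ℤ → M) :
    ∑ k ∈ J1 i, g k = ∑ k ∈ Finset.Ioo (-(2 : ℤ) ^ i) (2 ^ i), g (k + 3 * 2 ^ i) := by
  refine Finset.sum_nbij' (fun k => k - 3 * 2 ^ i) (fun k => k + 3 * 2 ^ i) ?_ ?_ ?_ ?_ ?_
  · intro k hk; simp only [J1, mem_Ioo] at hk ⊢; omega
  · intro k hk; simp only [J1, mem_Ioo] at hk ⊢; omega
  · intro k _; simp
  · intro k _; simp
  · intro k _; simp

theorem Ioo_mem (i : ℕ) (k : ℤ) (hk : |k| < (2 ^ i : ℕ)) :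
    k ∈ Finset.Ioo (-(2 : ℤ) ^ i) (2 ^ i) := by
  rw [Finset.mem_Ioo, ← abs_lt]; exact_mod_cast hk

theorem sum_Fc (s : Fin d → ℕ) : ∑ k ∈ supp s, Fc s k = 2 ^ wt s := by
  simp only [supp, Fc]
  rw [← Finset.prod_univ_sum (fun j => J1 (s j)) fun j k => fej (2 ^ s j) (k - 3 * 2 ^ s j),
    wt, ← Finset.prod_pow_eq_pow_sum]
  refine Finset.prod_congr rfl fun j _ => ?_
  rw [sum_J1]
  simp only [add_sub_cancel_right]
  rw [sum_fej (by positivity) (Ioo_mem _)]
  simp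

theorem card_supp (s : Fin d → ℕ) : ((supp s).card : ℝ) ≤ 2 ^ d * 2 ^ wt s := by
  have : (supp s).card ≤ 2 ^ d * 2 ^ wt s :=
    calc (supp s).card = ∏ j, (J1 (s j)).card := Fintype.card_piFinset _
      _ ≤ ∏ j, 2 * 2 ^ s j := Finset.prod_le_prod' fun j _ => by
          have : ((J1 (s j)).card : ℤ) ≤ 2 * 2 ^ s j := by
            have h : (0 : ℤ) < 2 ^ s j := by positivity
            rw [J1, Int.card_Ioo]
            omega
          exact_mod_cast this
      _ = _ := by rw [Finset.prod_mul_distrib, Finset.prod_pow_eq_pow_sum]; simp [wt]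
  exact_mod_cast this

theorem sum_Fc_sq (s : Fin d → ℕ) : 2 ^ wt s / 2 ^ d ≤ ∑ k ∈ supp s, Fc s k ^ 2 := by
  have h := sq_sum_le_card_mul_sum_sq (s := supp s) (f := Fc s)
  rw [sum_Fc] at h
  have h0 : 0 ≤ ∑ k ∈ supp s, Fc s k ^ 2 := by positivity
  have h1 := h.trans (mul_le_mul_of_nonneg_right (card_supp s) h0)
  rw [div_le_iff₀ (by positivity)]
  have h2 : (0 : ℝ) < 2 ^ wt s := by positivity
  nlinarith

theorem norm_FF_le (s : Fin d → ℕ) (x : TT d) : ‖FF s x‖ ≤ 2 ^ wt s := by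
  refine (norm_tp_le _ _ _).trans (le_of_eq ?_)
  rw [← sum_Fc]
  refine Finset.sum_congr rfl fun k _ => ?_
  rw [Complex.norm_real, Real.norm_of_nonneg (Fc_nonneg _ _)]

theorem Np_one_FF (s : Fin d → ℕ) : Np 1 (FF s) = 1 := by
  have e1 : ∀ x, ((‖FF s x‖ : ℝ) : ℂ) =
      tp (Fintype.piFinset fun j => Finset.Ioo (-(2 : ℤ) ^ s j) (2 ^ s j))
        (fun k => ∏ j, (fej (2 ^ s j) (k j) : ℂ)) x := by
    intro x
    rw [tp_prod (a := fun j k => (fej (2 ^ s j) k : ℂ)), FF, supp]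
    simp only [Fc, Complex.ofReal_prod]
    rw [tp_prod (a := fun j k => (fej (2 ^ s j) (k - 3 * 2 ^ s j) : ℂ)), norm_prod,
      Complex.ofReal_prod]
    refine Finset.prod_congr rfl fun j _ => ?_
    rw [sum_J1]
    simp only [add_sub_cancel_right, fourier_add, ← mul_assoc, ← Finset.sum_mul]
    rw [fejer_identity (by positivity) (Ioo_mem _), norm_mul, Complex.norm_real,
      Real.norm_of_nonneg (by positivity)]
    simp [fourier_apply]
  have : ((Np 1 (FF s) : ℝ) : ℂ) = 1 := by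
    rw [Np_one, ← integral_complex_ofReal]
    simp [e1, integral_tp, fej_zero]
  exact_mod_cast this

noncomputable def testf (S : Finset (Fin d → ℕ)) (α : (Fin d → ℕ) → ℝ) (x : TT d) : ℂ :=
  ∑ s ∈ S, α s * FF s x

@[fun_prop] theorem continuous_testf (S : Finset (Fin d → ℕ)) (α : (Fin d → ℕ) → ℝ) :
    Continuous (testf S α) := by unfold testf; fun_prop

theorem coef_const_mul (a : ℂ) (f : TT d → ℂ) (k : ZZ d) :
    coef (fun x => a * f x) k = a * coef f k := by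
  simp only [coef, mul_left_comm _ a, integral_const_mul]

theorem coef_testf (S : Finset (Fin d → ℕ)) (α : (Fin d → ℕ) → ℝ) (k : ZZ d) :
    coef (testf S α) k = ∑ s ∈ S, α s * if k ∈ supp s then (Fc s k : ℂ) else 0 := by
  unfold testf
  rw [coef_sum _ fun s _ => cint (by fun_prop)]
  simp only [coef_const_mul, FF, coef_tp]

theorem testf_mem {S : Finset (Fin d → ℕ)} {α : (Fin d → ℕ) → ℝ} {ω : ℕ → ℝ}
    (hα : ∀ s, 0 ≤ α s) (h : ∀ l, ∑ s ∈ S with wt s + 2 * d = l, α s ≤ ω l) :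
    testf S α ∈ Wom d ω := by
  refine ⟨cint (by fun_prop), fun l => le_trans ?_ (h l)⟩
  have e1 : layer l (testf S α) = fun x => ∑ s ∈ S with wt s + 2 * d = l, α s * FF s x := by
    funext x
    rw [layer_eq, tp, Finset.sum_filter]
    simp only [coef_testf, Finset.sum_mul]
    rw [Finset.sum_comm]
    refine Finset.sum_congr rfl fun s _ => ?_
    have hw : wt (fun j => s j + 2) = wt s + 2 * d := by
      simp [wt, Finset.sum_add_distrib, mul_comm]
    split_ifs with hs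
    · have hsub : supp s ⊆ Delta d l := fun k hk =>
        mem_Delta.mpr ⟨_, hw.trans hs, supp_rho hk⟩
      rw [FF, tp_subset hsub, tp, Finset.mul_sum]
      simp only [mul_assoc]
    · refine Finset.sum_eq_zero fun k hk => ?_
      rw [if_neg, mul_zero, zero_mul]
      intro hc
      exact hs (hw.symm.trans (Delta_unique (mem_Delta.mpr ⟨_, rfl, supp_rho hc⟩) hk))
  rw [e1]
  refine (Np_sum_le le_rfl _ fun s => by fun_prop).trans (Finset.sum_le_sum fun s _ => ?_)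
  rw [Np_const_mul one_pos, Np_one_FF, Complex.norm_real, Real.norm_of_nonneg (hα s), mul_one]

theorem integral_mul_conj_tp (K : Finset (ZZ d)) (c : ZZ d → ℂ) {u : TT d → ℂ}
    (hu : Continuous u) :
    ∫ x, u x * conj (tp K c x) ∂haar d = ∑ k ∈ K, conj (c k) * coef u k := by
  have h := integral_tp_mul K c (h := fun x => conj (u x)) (cint (by fun_prop))
  have h2 := congrArg conj h
  rw [← integral_conj] at h2
  simp only [map_mul, Complex.conj_conj, coef_conj, map_sum] at h2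
  simp only [mul_comm (u _), h2]

noncomputable def testg (S : Finset (Fin d → ℕ)) (γ : (Fin d → ℕ) → ℝ) (K : Finset (ZZ d))
    (x : TT d) : ℂ := ∑ s ∈ S, tp (supp s \ K) (fun k => (γ s * Fc s k : ℝ)) x

theorem lower_core {p r : ℝ} (hpr : p.HolderConjugate r) (S : Finset (Fin d → ℕ))
    {α γ : (Fin d → ℕ) → ℝ} (hα : ∀ s, 0 ≤ α s) (hγ : ∀ s, 0 ≤ γ s) (K : Finset (ZZ d))
    (c : ZZ d → ℂ) :
    ∑ s ∈ S, α s * γ s * (2 ^ wt s / 2 ^ d - (supp s ∩ K).card) ≤
      Np p (fun x => testf S α x - tp K c x) * Np r (testg S γ K) := by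
  have hg : Continuous (testg S γ K) := by unfold testg; fun_prop
  have h := norm_integral_mul_le hpr (f := fun x => testf S α x - tp K c x)
    (g := fun x => conj (testg S γ K x)) (by fun_prop) (by fun_prop)
  have e0 : Np r (fun x => conj (testg S γ K x)) = Np r (testg S γ K) := by simp [Np]
  rw [e0] at h
  refine le_trans ?_ h
  have e1 : ∫ x, (testf S α x - tp K c x) * conj (testg S γ K x) ∂haar d =
      ((∑ s ∈ S, α s * γ s * ∑ k ∈ supp s \ K, Fc s k ^ 2 : ℝ) : ℂ) := by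
    simp only [testg, map_sum, Finset.mul_sum]
    rw [integral_finsetSum _ fun s _ => cint (by fun_prop)]
    push_cast
    refine Finset.sum_congr rfl fun s hs => ?_
    rw [integral_mul_conj_tp _ _ (by fun_prop)]
    refine Finset.sum_congr rfl fun k hk => ?_
    rw [Finset.mem_sdiff] at hk
    rw [coef_sub (cint (by fun_prop)) (cint (by fun_prop)), coef_tp, if_neg hk.2, coef_testf,
      Finset.sum_eq_single_of_mem s hs fun t _ hts => by
        rw [if_neg fun hc => hts (supp_unique hc hk.1), mul_zero], if_pos hk.1]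
    simp only [map_mul, Complex.conj_ofReal]
    ring
  rw [e1, Complex.norm_real]
  refine le_trans (Finset.sum_le_sum fun s _ => ?_) (le_abs_self _)
  refine mul_le_mul_of_nonneg_left ?_ (mul_nonneg (hα s) (hγ s))
  have h1 := sum_Fc_sq s
  rw [← Finset.sum_sdiff (Finset.inter_subset_left (s₂ := K)), Finset.sdiff_inter_self_left] at h1
  have h2 : ∑ k ∈ supp s ∩ K, Fc s k ^ 2 ≤ (supp s ∩ K).card := by
    refine (Finset.sum_le_card_nsmul _ _ 1 fun k _ => ?_).trans (by simp)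
    exact pow_le_one₀ (Fc_nonneg _ _) (Fc_le_one _ _)
  linarith

theorem orth (S : Finset (Fin d → ℕ)) (Ks : (Fin d → ℕ) → Finset (ZZ d))
    (hK : ∀ s, Ks s ⊆ supp s) (c : (Fin d → ℕ) → ZZ d → ℂ) :
    Np 2 (fun x => ∑ s ∈ S, tp (Ks s) (c s) x) = √(∑ s ∈ S, ∑ k ∈ Ks s, ‖c s k‖ ^ 2) := by
  have hdisj : Set.PairwiseDisjoint S Ks := by
    intro s _ t _ hst
    rw [Function.onFun, Finset.disjoint_left]
    exact fun k h1 h2 => hst (supp_unique (hK s h1) (hK t h2))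
  have e1 : ∀ s ∈ S, ∀ k ∈ Ks s, (∑ t ∈ S, if k ∈ Ks t then c t k else 0) = c s k := by
    intro s hs k hk
    rw [Finset.sum_eq_single_of_mem s hs fun t _ hts =>
      if_neg fun hc => hts (supp_unique (hK t hc) (hK s hk)), if_pos hk]
  have e2 : (fun x => ∑ s ∈ S, tp (Ks s) (c s) x) =
      tp (S.biUnion Ks) fun k => ∑ t ∈ S, if k ∈ Ks t then c t k else 0 := by
    funext x
    rw [tp, Finset.sum_biUnion hdisj]
    refine Finset.sum_congr rfl fun s hs => Finset.sum_congr rfl fun k hk => ?_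
    rw [e1 s hs k hk]
  rw [e2, Np_two_tp, Finset.sum_biUnion hdisj]
  congr 1
  refine Finset.sum_congr rfl fun s hs => Finset.sum_congr rfl fun k hk => ?_
  rw [e1 s hs k hk]

theorem sum_card_inter (S : Finset (Fin d → ℕ)) (K : Finset (ZZ d)) :
    ∑ s ∈ S, ((supp s ∩ K).card : ℝ) ≤ K.card := by
  have : ∑ s ∈ S, (supp s ∩ K).card ≤ K.card := by
    rw [← Finset.card_biUnion]
    · exact Finset.card_le_card (Finset.biUnion_subset.mpr fun s _ => Finset.inter_subset_right)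
    · intro s _ t _ hst
      rw [Function.onFun, Finset.disjoint_left]
      exact fun k h1 h2 =>
        hst (supp_unique (Finset.mem_inter.mp h1).1 (Finset.mem_inter.mp h2).1)
  exact_mod_cast this

theorem sum_sq_le {γ : ℝ} (hγ : 0 ≤ γ) (s : Fin d → ℕ) {K : Finset (ZZ d)} (hK : K ⊆ supp s) :
    ∑ k ∈ K, ‖((γ * Fc s k : ℝ) : ℂ)‖ ^ 2 ≤ γ ^ 2 * 2 ^ wt s := by
  rw [← sum_Fc, Finset.mul_sum]
  refine le_trans (Finset.sum_le_sum fun k _ => ?_) (Finset.sum_le_sum_of_subset_of_nonneg hK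
    fun k _ _ => mul_nonneg (sq_nonneg _) (Fc_nonneg _ _))
  have h0 := Fc_nonneg s k
  have h1 := Fc_le_one s k
  rw [Complex.norm_real, Real.norm_of_nonneg (by positivity), mul_pow]
  exact mul_le_mul_of_nonneg_left (by nlinarith) (sq_nonneg _)

theorem testg_large {r : ℝ} (hr : 2 ≤ r) : ∃ C : ℝ, 0 < C ∧ ∀ (S : Finset (Fin d → ℕ))
    (γ : (Fin d → ℕ) → ℝ) (K : Finset (ZZ d)), (∀ s, 0 ≤ γ s) →
    Np r (testg S γ K) ≤ C * (∑ s ∈ S, (γ s * 2 ^ ((1 - r⁻¹) * wt s)) ^ r) ^ r⁻¹ := by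
  rcases hr.eq_or_lt with rfl | hr
  · refine ⟨1, one_pos, fun S γ K hγ => ?_⟩
    unfold testg
    rw [orth S _ fun s => Finset.sdiff_subset, one_mul, Real.sqrt_eq_rpow, one_div]
    refine Real.rpow_le_rpow (by positivity) (Finset.sum_le_sum fun s _ => ?_) (by norm_num)
    refine (sum_sq_le (hγ s) s Finset.sdiff_subset).trans (le_of_eq ?_)
    rw [Real.mul_rpow (hγ s) (by positivity), ← Real.rpow_mul (by norm_num), Real.rpow_two,
      ← Real.rpow_natCast 2 (wt s)]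
    congr 2; ring
  · obtain ⟨C, hC, h⟩ := tlemma_Np (d := d) 1 (q := 2) (by norm_num) hr
    refine ⟨C * (3 ^ d * 2 ^ (d : ℝ)), by positivity, fun S γ K hγ => ?_⟩
    have hM : Mult 1 S fun s j => s j + 1 := by
      intro s
      rw [Finset.card_le_one]
      intro a ha b hb
      simp only [mem_filter] at ha hb
      funext j
      simpa using congrFun (ha.2.trans hb.2.symm) j
    have hN := h _ S _ hM (fun s => tp (supp s \ K) fun k => (γ s * Fc s k : ℝ))
      (fun s => 3 ^ d * (γ s * 2 ^ ((2⁻¹ : ℝ) * wt s))) (fun s => continuous_tp _ _)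
      (fun s => by have := hγ s; positivity) fun s _ => by
        refine (maj_self (by norm_num) fun k hk _ j =>
          supp_le (Finset.mem_sdiff.mp hk).1 j).mono ?_
        have := hγ s
        refine Real.rpow_le_rpow (mul_nonneg (by positivity) (Np_nonneg _ _))
          (mul_le_mul_of_nonneg_left ?_ (by positivity)) (by norm_num)
        rw [Np_two_tp]
        refine Real.sqrt_le_iff.mpr ⟨by positivity, ?_⟩
        refine (sum_sq_le (hγ s) s Finset.sdiff_subset).trans (le_of_eq ?_)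
        rw [mul_pow, ← Real.rpow_natCast (2 ^ _) 2, ← Real.rpow_mul (by norm_num),
          ← Real.rpow_natCast 2 (wt s)]
        congr 2; push_cast; ring
    refine hN.trans ?_
    have hr0 : 0 < r := by linarith
    rw [mul_assoc]
    refine mul_le_mul_of_nonneg_left ?_ hC.le
    rw [← Real.rpow_rpow_inv (x := 3 ^ d * 2 ^ (d : ℝ)) (by positivity) hr0.ne',
      ← Real.mul_rpow (by positivity)
        (Finset.sum_nonneg fun s _ => by have := hγ s; positivity), Finset.mul_sum]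
    refine Real.rpow_le_rpow (Finset.sum_nonneg fun s _ => by have := hγ s; positivity)
      (Finset.sum_le_sum fun s _ => ?_) (by positivity)
    have := hγ s
    rw [← Real.mul_rpow (by positivity) (by positivity)]
    refine Real.rpow_le_rpow (by positivity) ?_ hr0.le
    have hw : (wt (fun j => s j + 1) : ℝ) = wt s + d := by
      simp [wt, Finset.sum_add_distrib]
    have e1 : (2 : ℝ) ^ ((2⁻¹ - r⁻¹) * wt fun j => s j + 1) * 2 ^ ((2⁻¹ : ℝ) * wt s) ≤
        2 ^ (d : ℝ) * 2 ^ ((1 - r⁻¹) * wt s) := by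
      rw [← Real.rpow_add (by norm_num), ← Real.rpow_add (by norm_num), hw]
      refine Real.rpow_le_rpow_of_exponent_le (by norm_num) ?_
      have : 0 ≤ r⁻¹ * d := by positivity
      have : (0 : ℝ) ≤ d := by positivity
      linarith
    calc _ = 3 ^ d * γ s *
          ((2 : ℝ) ^ ((2⁻¹ - r⁻¹) * wt fun j => s j + 1) * 2 ^ ((2⁻¹ : ℝ) * wt s)) := by ring
      _ ≤ 3 ^ d * γ s * (2 ^ (d : ℝ) * 2 ^ ((1 - r⁻¹) * wt s)) := by gcongr
      _ = _ := by ring

theorem testg_small {r : ℝ} (hr1 : 1 ≤ r) (hr : r ≤ 2) (S : Finset (Fin d → ℕ))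
    (K : Finset (ZZ d)) :
    Np r (testg S (fun _ => 1) K) ≤ ∑ s ∈ S, (2 : ℝ) ^ ((1 - r⁻¹) * wt s) + √K.card := by
  have e1 : testg S (fun _ => 1) K = fun x => ∑ s ∈ S, FF s x -
      ∑ s ∈ S, tp (supp s ∩ K) (fun k => (Fc s k : ℂ)) x := by
    funext x
    rw [testg, ← Finset.sum_sub_distrib]
    refine Finset.sum_congr rfl fun s _ => ?_
    simp only [FF, tp, one_mul]
    rw [← Finset.sum_sdiff (Finset.inter_subset_left (s₁ := supp s) (s₂ := K)),
      Finset.sdiff_inter_self_left]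
    simp
  rw [e1]
  refine (Np_sub_le hr1 (by fun_prop) (by fun_prop)).trans (add_le_add ?_ ?_)
  · refine (Np_sum_le hr1 _ fun s => by fun_prop).trans (Finset.sum_le_sum fun s _ => ?_)
    refine (Np_interp hr1 (by positivity) (by fun_prop) (norm_FF_le s)).trans (le_of_eq ?_)
    rw [Np_one_FF, Real.one_rpow, mul_one, ← Real.rpow_natCast, ← Real.rpow_mul (by norm_num),
      mul_comm]
  · refine (Np_mono_exp (by linarith) hr (by fun_prop)).trans ?_
    rw [orth S _ fun s => Finset.inter_subset_left]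
    refine Real.sqrt_le_sqrt (le_trans (Finset.sum_le_sum fun s _ => ?_) (sum_card_inter S K))
    refine (Finset.sum_le_card_nsmul _ _ 1 fun k _ => ?_).trans (by simp)
    rw [Complex.norm_real, Real.norm_of_nonneg (Fc_nonneg _ _)]
    exact pow_le_one₀ (Fc_nonneg _ _) (Fc_le_one _ _)

theorem le_sigmaClass {m : ℕ} {p X : ℝ} (hp : 0 < p) {F : Set (TT d → ℂ)} {f : TT d → ℂ}
    (hf : f ∈ F) (hc : Continuous f)
    (h : ∀ (K : Finset (ZZ d)) (c : ZZ d → ℂ), K.card ≤ m → X ≤ Np p fun x => f x - tp K c x) :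
    ENNReal.ofReal X ≤ sigmaClass m p F := by
  refine le_iSup₂_of_le f hf (le_iInf fun K => le_iInf fun hK => le_iInf fun c => ?_)
  change _ ≤ eLpNorm (fun x => f x - tp K c x) _ _
  rw [eLpNorm_eq_Np hp (by fun_prop)]
  exact ENNReal.ofReal_le_ofReal (h K c hK)

theorem lower_small {p : ℝ} (hp : 1 < p) (hp2 : p ≤ 2) : ∃ c : ℝ, 0 < c ∧
    ∀ (ω : ℕ → ℝ) (m : ℕ) (S : Finset (Fin d → ℕ)) (α γ : (Fin d → ℕ) → ℝ) (κ Y : ℝ),
    (∀ s, 0 ≤ α s) → (∀ s, 0 ≤ γ s) → 0 ≤ κ → (∀ s ∈ S, α s * γ s = κ) →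
    (∀ l, ∑ s ∈ S with wt s + 2 * d = l, α s ≤ ω l) →
    (2 ^ (d + 1) * m : ℝ) ≤ ∑ s ∈ S, 2 ^ wt s → 0 < Y →
    ∑ s ∈ S, (γ s * 2 ^ (p⁻¹ * wt s)) ^ (1 - p⁻¹)⁻¹ ≤ Y →
    ENNReal.ofReal (c * (κ * (∑ s ∈ S, 2 ^ wt s) / Y ^ (1 - p⁻¹))) ≤
      sigmaClass m p (Wom d ω) := by
  have hpr := Real.HolderConjugate.conjExponent hp
  set r := p.conjExponent
  have hri : 1 - p⁻¹ = r⁻¹ := hpr.one_sub_inv
  have hri' : 1 - r⁻¹ = p⁻¹ := hpr.symm.one_sub_inv
  have hr0 : 0 < r := hpr.symm.pos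
  have hr2 : 2 ≤ r := by
    have h1 : 2⁻¹ ≤ p⁻¹ := inv_anti₀ (by linarith) hp2
    have h2 : r⁻¹ ≤ 2⁻¹ := by linarith
    exact (inv_le_inv₀ hr0 (by norm_num)).mp h2
  obtain ⟨C, hC, h⟩ := testg_large (d := d) hr2
  refine ⟨(2 ^ (d + 1) * C)⁻¹, by positivity,
    fun ω m S α γ κ Y hα hγ hκ hαγ hω hm hY hS => ?_⟩
  rw [hri, inv_inv] at hS
  rw [hri]
  refine le_sigmaClass (by linarith) (testf_mem hα hω) (by fun_prop) fun K c hK => ?_
  have h1 := lower_core hpr S hα hγ K c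
  have h2 : Np r (testg S γ K) ≤ C * Y ^ r⁻¹ := by
    refine (h S γ K hγ).trans (mul_le_mul_of_nonneg_left ?_ hC.le)
    rw [hri']
    exact Real.rpow_le_rpow (Finset.sum_nonneg fun s _ => by have := hγ s; positivity) hS
      (by positivity)
  have h3 : κ * (∑ s ∈ S, 2 ^ wt s) / 2 ^ (d + 1) ≤
      ∑ s ∈ S, α s * γ s * (2 ^ wt s / 2 ^ d - (supp s ∩ K).card) := by
    have e0 : ∑ s ∈ S, α s * γ s * (2 ^ wt s / 2 ^ d - (supp s ∩ K).card) =
        ∑ s ∈ S, κ * (2 ^ wt s / 2 ^ d - (supp s ∩ K).card) :=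
      Finset.sum_congr rfl fun s hs => by rw [hαγ s hs]
    rw [e0, ← Finset.mul_sum, mul_div_assoc, Finset.sum_sub_distrib, ← Finset.sum_div]
    refine mul_le_mul_of_nonneg_left ?_ hκ
    have h4 := sum_card_inter S K
    have h5 : (K.card : ℝ) ≤ m := by exact_mod_cast hK
    have h6 : (m : ℝ) ≤ (∑ s ∈ S, 2 ^ wt s) / 2 ^ (d + 1) := by
      rw [le_div_iff₀ (by positivity)]; linarith
    have h7 : (∑ s ∈ S, 2 ^ wt s : ℝ) / 2 ^ d = 2 * ((∑ s ∈ S, 2 ^ wt s) / 2 ^ (d + 1)) := by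
      field_simp; ring
    linarith
  have h8 := h3.trans (h1.trans (mul_le_mul_of_nonneg_left h2 (Np_nonneg _ _)))
  rw [div_le_iff₀ (by positivity)] at h8
  rw [inv_mul_le_iff₀ (by positivity), div_le_iff₀ (by positivity)]
  linarith

theorem lower_large {p : ℝ} (hp : 2 ≤ p) (ω : ℕ → ℝ) (m : ℕ) (S : Finset (Fin d → ℕ))
    (α : (Fin d → ℕ) → ℝ) (Y : ℝ) (hα : ∀ s, 0 ≤ α s)
    (hω : ∀ l, ∑ s ∈ S with wt s + 2 * d = l, α s ≤ ω l)
    (hm : ∀ s ∈ S, (2 ^ (d + 1) * m : ℝ) ≤ 2 ^ wt s) (hY : 0 < Y)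
    (hS : ∑ s ∈ S, (2 : ℝ) ^ (p⁻¹ * wt s) + √m ≤ Y) :
    ENNReal.ofReal ((2 ^ (d + 1))⁻¹ * ((∑ s ∈ S, α s * 2 ^ wt s) / Y)) ≤
      sigmaClass m p (Wom d ω) := by
  have hpr := Real.HolderConjugate.conjExponent (show 1 < p by linarith)
  set r := p.conjExponent
  have hri' : 1 - r⁻¹ = p⁻¹ := hpr.symm.one_sub_inv
  have hr0 : 0 < r := hpr.symm.pos
  have hr2 : r ≤ 2 := by
    have h1 : p⁻¹ ≤ 2⁻¹ := inv_anti₀ (by linarith) hp
    have h2 : 2⁻¹ ≤ r⁻¹ := by linarith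
    exact (inv_le_inv₀ (by norm_num) hr0).mp h2
  refine le_sigmaClass (by linarith) (testf_mem hα hω) (by fun_prop) fun K c hK => ?_
  have h5 : (K.card : ℝ) ≤ m := by exact_mod_cast hK
  have h1 := lower_core hpr S (γ := fun _ => 1) hα (fun _ => zero_le_one) K c
  have h2 : Np r (testg S (fun _ => 1) K) ≤ Y := by
    refine (testg_small hpr.symm.lt.le hr2 S K).trans (le_trans ?_ hS)
    rw [hri']
    gcongr
  have h3 : (∑ s ∈ S, α s * 2 ^ wt s) / 2 ^ (d + 1) ≤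
      ∑ s ∈ S, α s * 1 * (2 ^ wt s / 2 ^ d - (supp s ∩ K).card) := by
    rw [Finset.sum_div]
    refine Finset.sum_le_sum fun s hs => ?_
    rw [mul_one, mul_div_assoc]
    refine mul_le_mul_of_nonneg_left ?_ (hα s)
    have h4 : ((supp s ∩ K).card : ℝ) ≤ K.card := by
      exact_mod_cast Finset.card_le_card Finset.inter_subset_right
    have h6 : (m : ℝ) ≤ 2 ^ wt s / 2 ^ (d + 1) := by
      rw [le_div_iff₀ (by positivity)]; linarith [hm s hs]
    have h7 : (2 ^ wt s : ℝ) / 2 ^ d = 2 * (2 ^ wt s / 2 ^ (d + 1)) := by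
      field_simp; ring
    linarith
  have h8 := h3.trans (h1.trans (mul_le_mul_of_nonneg_left h2 (Np_nonneg _ _)))
  rw [div_le_iff₀ (by positivity)] at h8
  rw [inv_mul_le_iff₀ (by positivity), div_le_iff₀ hY]
  linarith

end Pool.Agent.P.MP_33127d_an
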