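import Pool.Agent.P.MP_33127d_an.Asym3

namespace Pool.Agent.P.MP_33127d_an

open MeasureTheory Finset Filter

theorem main (d : ℕ) (hd : 2 ≤ d) (p a b : ℝ) (hp : 1 < p) (ha : 1 - 1 / p < a) :
    ∃ c C : ℝ, 0 < c ∧ 0 < C ∧ ∀ᶠ m : ℕ in atTop,
      ENNReal.ofReal (c * order d p a b m) ≤ sigmaClass m p (W d a b) ∧
      sigmaClass m p (W d a b) ≤ ENNReal.ofReal (C * order d p a b m) := by
  obtain ⟨n, rfl⟩ : ∃ n, d = n + 1 := ⟨d - 1, by omega⟩
  have hn : 1 ≤ n := by omega
  have hA : Antitone (sg n p a (n * b)) := sigmaClass_antitone p _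
  have e0 : ((n + 1 : ℕ) : ℝ) - 1 = n := by simp
  rw [W_eq]
  rw [one_div] at ha
  simp only [order, one_div, e0]
  split_ifs with h1 h2 h3 h4 h5
  · have := transfer hA (UB1 n (n * b) hp h1 h2) (LB1 hn (n * b) hp h1 ha)
    simp only [Real.rpow_zero, mul_one] at this
    rwa [show n * (a + b - 2 * (1 - p⁻¹)) = n * b + n * (a - 2 * (1 - p⁻¹)) by ring]
  · have := transfer hA (UB2 n (n * b) hp h1 ha h3) (LB2 n (n * b) hp h1)
    simpa only [sg, Real.rpow_zero, mul_one] using this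
  · obtain rfl : a = 2 * (1 - p⁻¹) := le_antisymm (not_lt.mp h2) (not_lt.mp h3)
    have := transfer hA (UB3 n (n * b) hp h1) (LB3 hn (n * b) hp h1)
    simp only [Real.rpow_one] at this
    rwa [show -(2 * (1 - p⁻¹)) + (1 - p⁻¹) = -(1 - p⁻¹) by ring]
  · have := transfer hA (UB4 n (n * b) (not_le.mp h1).le h4) (LB4 hn (n * b) (not_le.mp h1).le h4)
    simp only [Real.rpow_zero, mul_one, one_div] at this
    rwa [show n * (a - 1 + b) = n * b + n * (a - 1) by ring]
  · have := transfer hA (UB5 n (n * b) (not_le.mp h1).le ha h5) (LB5 n (n * b) (not_le.mp h1).le ha)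
    simpa only [sg, Real.rpow_zero, mul_one] using this
  · obtain rfl : a = 1 := le_antisymm (not_lt.mp h4) (not_lt.mp h5)
    have := transfer hA (UB6 n (n * b) (not_le.mp h1).le) (LB6 n (n * b) (not_le.mp h1))
    simpa only [sg, Real.rpow_zero, mul_one, one_div] using this

end Pool.Agent.P.MP_33127d_an
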