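import Pool.Agent.P.MP_33127d_an.Basic

namespace Pool.Agent.P.MP_33127d_an

open MeasureTheory Finset

variable {d : ℕ}

def TP (j : ℕ) (u : TT d → ℂ) : Prop := ∃ K : Finset (ZZ d), ∃ c, K.card ≤ j ∧ u = tp K c

theorem TP.continuous {j : ℕ} {u : TT d → ℂ} (h : TP j u) : Continuous u := by
  obtain ⟨K, c, -, rfl⟩ := h
  fun_prop

theorem TP.mono {i j : ℕ} {u : TT d → ℂ} (h : TP i u) (hij : i ≤ j) : TP j u := by
  obtain ⟨K, c, h1, h2⟩ := h
  exact ⟨K, c, h1.trans hij, h2⟩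

theorem TP_zero : TP 0 (fun _ : TT d => (0 : ℂ)) := ⟨∅, 0, le_rfl, by funext x; simp [tp]⟩

theorem TP.add {i j : ℕ} {u v : TT d → ℂ} (h : TP i u) (h' : TP j v) :
    TP (i + j) fun x => u x + v x := by
  obtain ⟨K, c, h1, rfl⟩ := h
  obtain ⟨K', c', h1', rfl⟩ := h'
  refine ⟨K ∪ K', fun k => (if k ∈ K then c k else 0) + if k ∈ K' then c' k else 0,
    (Finset.card_union_le _ _).trans (add_le_add h1 h1'), ?_⟩
  rw [tp_subset (Finset.subset_union_left (s₂ := K')),
    tp_subset (Finset.subset_union_right (s₁ := K)) c']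
  funext x
  simp only [tp, add_mul, Finset.sum_add_distrib]

theorem TP.const_mul {j : ℕ} {u : TT d → ℂ} (h : TP j u) (a : ℂ) : TP j fun x => a * u x := by
  obtain ⟨K, c, h1, rfl⟩ := h
  refine ⟨K, fun k => a * c k, h1, ?_⟩
  funext x
  simp only [tp, Finset.mul_sum, mul_assoc]

theorem TP_single (a : ℂ) (k : ZZ d) : TP 1 fun x => a * e k x :=
  ⟨{k}, fun _ => a, by simp, by funext x; simp [tp]⟩

theorem TP.sum {ι : Type*} (S : Finset ι) {j : ι → ℕ} {u : ι → TT d → ℂ}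
    (h : ∀ i ∈ S, TP (j i) (u i)) : TP (∑ i ∈ S, j i) fun x => ∑ i ∈ S, u i x := by
  classical
  induction S using Finset.induction_on with
  | empty => simpa using TP_zero
  | insert a S ha ih =>
    simp only [Finset.sum_insert ha]
    exact (h a (Finset.mem_insert_self _ _)).add
      (ih fun i hi => h i (Finset.mem_insert_of_mem hi))

theorem step_real {ι : Type*} (S : Finset ι) {π z : ι → ℝ} {δ : ℝ} (hπ : ∀ i, 0 ≤ π i)
    (h1 : ∑ i ∈ S, π i = 1) (hδ : δ ≤ 1) (hz : ∀ i, |z i| ≤ δ) (h0 : ∑ i ∈ S, π i * z i = 0)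
    (u : ℝ) : ∑ i ∈ S, π i * Real.exp (u + z i) ≤ (1 + δ ^ 2) * Real.exp u := by
  have : ∀ i ∈ S, π i * Real.exp (u + z i) ≤
      Real.exp u * (1 + δ ^ 2) * π i + Real.exp u * (π i * z i) := by
    intro i _
    have h2 := (abs_le.mp (Real.abs_exp_sub_one_sub_id_le ((hz i).trans hδ))).2
    have h3 : z i ^ 2 ≤ δ ^ 2 := by
      rw [← sq_abs]; exact pow_le_pow_left₀ (abs_nonneg _) (hz i) 2
    have h4 : Real.exp (z i) ≤ 1 + δ ^ 2 + z i := by linarith
    have h5 := mul_le_mul_of_nonneg_left h4 (mul_nonneg (hπ i) (Real.exp_pos u).le)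
    rw [Real.exp_add]
    linarith
  refine (Finset.sum_le_sum this).trans (le_of_eq ?_)
  rw [Finset.sum_add_distrib, ← Finset.mul_sum, ← Finset.mul_sum, h1, h0]
  ring

noncomputable def Psi (w : ℂ) : ℝ :=
  Real.exp w.re + Real.exp (-w.re) + Real.exp w.im + Real.exp (-w.im)

@[fun_prop] theorem continuous_Psi : Continuous Psi := by unfold Psi; fun_prop

theorem step_Psi {ι : Type*} (S : Finset ι) {π : ι → ℝ} {z : ι → ℂ} {δ : ℝ} (hπ : ∀ i, 0 ≤ π i)
    (h1 : ∑ i ∈ S, π i = 1) (hδ : δ ≤ 1) (hz : ∀ i, ‖z i‖ ≤ δ) (h0 : ∑ i ∈ S, π i * z i = 0)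
    (w : ℂ) : ∑ i ∈ S, π i * Psi (w + z i) ≤ (1 + δ ^ 2) * Psi w := by
  have r0 : ∑ i ∈ S, π i * (z i).re = 0 := by simpa using congrArg Complex.re h0
  have i0 : ∑ i ∈ S, π i * (z i).im = 0 := by simpa using congrArg Complex.im h0
  have a1 := step_real S hπ h1 hδ (fun i => (Complex.abs_re_le_norm _).trans (hz i)) r0 w.re
  have a2 := step_real S (z := fun i => -(z i).re) hπ h1 hδ
    (fun i => by rw [abs_neg]; exact (Complex.abs_re_le_norm _).trans (hz i))
    (by simpa using r0) (-w.re)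
  have a3 := step_real S hπ h1 hδ (fun i => (Complex.abs_im_le_norm _).trans (hz i)) i0 w.im
  have a4 := step_real S (z := fun i => -(z i).im) hπ h1 hδ
    (fun i => by rw [abs_neg]; exact (Complex.abs_im_le_norm _).trans (hz i))
    (by simpa using i0) (-w.im)
  simp only [Psi, Complex.add_re, Complex.add_im, neg_add, mul_add, Finset.sum_add_distrib]
  linarith

theorem rpow_le_Psi {p : ℝ} (hp : 0 < p) (w : ℂ) : ‖w‖ ^ p ≤ (2 * p) ^ p * Psi w := by
  have h1 : ‖w‖ / (2 * p) ≤ Real.exp (‖w‖ / (2 * p)) := by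
    linarith [Real.add_one_le_exp (‖w‖ / (2 * p))]
  have h2 := Real.rpow_le_rpow (by positivity) h1 hp.le
  rw [Real.div_rpow (norm_nonneg _) (by positivity), ← Real.exp_mul,
    div_le_iff₀ (by positivity)] at h2
  refine h2.trans ?_
  rw [mul_comm]
  refine mul_le_mul_of_nonneg_left ?_ (by positivity)
  have e1 : ‖w‖ / (2 * p) * p = ‖w‖ / 2 := by field_simp
  rw [e1, Psi]
  have h3 := Complex.norm_le_abs_re_add_abs_im w
  have p1 := Real.exp_pos w.re
  have p2 := Real.exp_pos (-w.re)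
  have p3 := Real.exp_pos w.im
  have p4 := Real.exp_pos (-w.im)
  rcases le_total |w.re| |w.im| with h | h
  · rcases abs_cases w.im with ⟨h4, -⟩ | ⟨h4, -⟩
    · have : Real.exp (‖w‖ / 2) ≤ Real.exp w.im := Real.exp_le_exp.mpr (by linarith)
      linarith
    · have : Real.exp (‖w‖ / 2) ≤ Real.exp (-w.im) := Real.exp_le_exp.mpr (by linarith)
      linarith
  · rcases abs_cases w.re with ⟨h4, -⟩ | ⟨h4, -⟩
    · have : Real.exp (‖w‖ / 2) ≤ Real.exp w.re := Real.exp_le_exp.mpr (by linarith)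
      linarith
    · have : Real.exp (‖w‖ / 2) ≤ Real.exp (-w.re) := Real.exp_le_exp.mpr (by linarith)
      linarith

theorem greedy {ι : Type*} (S : Finset ι) {π : ι → ℝ} {y : ι → TT d → ℂ} {g : TT d → ℂ}
    {δ : ℝ} (hπ : ∀ i, 0 ≤ π i) (h1 : ∑ i ∈ S, π i = 1) (hδ : δ ≤ 1) (hy : ∀ i, TP 1 (y i))
    (hg : Continuous g) (hz : ∀ i x, ‖y i x - g x‖ ≤ δ) (h0 : ∀ x, ∑ i ∈ S, π i * y i x = g x)
    (j : ℕ) : ∃ u, TP j u ∧ ∫ x, Psi (u x - j * g x) ∂haar d ≤ 4 * (1 + δ ^ 2) ^ j := by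
  induction j with
  | zero => exact ⟨_, TP_zero, by simp [Psi]; norm_num⟩
  | succ j ih =>
    obtain ⟨u, hu, hI⟩ := ih
    have huc := hu.continuous
    have hyc := fun i => (hy i).continuous
    have hS : S.Nonempty := by
      rcases S.eq_empty_or_nonempty with rfl | h
      · simp at h1
      · exact h
    obtain ⟨i, -, hmin⟩ := S.exists_min_image
      (fun i => ∫ x, Psi (u x - j * g x + (y i x - g x)) ∂haar d) hS
    refine ⟨fun x => u x + y i x, hu.add (hy i), ?_⟩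
    have e1 : ∀ x, u x + y i x - (j + 1 : ℕ) * g x = u x - j * g x + (y i x - g x) := by
      intro x; push_cast; ring
    simp only [e1]
    calc _ = ∑ k ∈ S, π k * ∫ x, Psi (u x - j * g x + (y i x - g x)) ∂haar d := by
          rw [← Finset.sum_mul, h1, one_mul]
      _ ≤ ∑ k ∈ S, π k * ∫ x, Psi (u x - j * g x + (y k x - g x)) ∂haar d :=
          Finset.sum_le_sum fun k hk => mul_le_mul_of_nonneg_left (hmin k hk) (hπ k)
      _ = ∫ x, ∑ k ∈ S, π k * Psi (u x - j * g x + (y k x - g x)) ∂haar d := by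
          rw [integral_finsetSum _ fun k _ => cint (by fun_prop)]
          simp only [integral_const_mul]
      _ ≤ ∫ x, (1 + δ ^ 2) * Psi (u x - j * g x) ∂haar d := by
          refine integral_mono (cint (by fun_prop)) (cint (by fun_prop)) fun x => ?_
          refine step_Psi S hπ h1 hδ (fun k => hz k x) ?_ _
          simp only [mul_sub, Finset.sum_sub_distrib, h0, ← Finset.sum_mul]
          rw [← Complex.ofReal_sum, h1]; simp
      _ ≤ _ := by
          rw [integral_const_mul, pow_succ _ j]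
          have := mul_le_mul_of_nonneg_left hI (by positivity : 0 ≤ 1 + δ ^ 2)
          linarith

theorem maurey {p : ℝ} (hp : 0 < p) : ∃ C : ℝ, 0 < C ∧
    ∀ (K : Finset (ZZ d)) (c : ZZ d → ℂ) (m : ℕ), 0 < m →
    ∃ t, TP m t ∧ Np p (fun x => tp K c x - t x) ≤ C * (∑ k ∈ K, ‖c k‖) / √m := by
  refine ⟨2 * ((2 * p) ^ p * (4 * Real.exp 1)) ^ p⁻¹, by positivity, fun K c m hm => ?_⟩
  set A := ∑ k ∈ K, ‖c k‖ with hA
  have hA0 : 0 ≤ A := Finset.sum_nonneg fun _ _ => norm_nonneg _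
  rcases hA0.eq_or_lt with h0 | h0
  · refine ⟨_, TP_zero.mono (Nat.zero_le _), ?_⟩
    have : ∀ x, tp K c x = 0 := fun x =>
      norm_le_zero_iff.mp ((norm_tp_le K c x).trans (le_of_eq h0.symm))
    simp [this, Np, ← h0, Real.zero_rpow hp.ne', Real.zero_rpow (inv_pos.mpr hp).ne']
  have hm' : (1 : ℝ) ≤ m := by exact_mod_cast hm
  have hs1 : 1 ≤ √(m : ℝ) := Real.one_le_sqrt.mpr hm'
  have hs0 : 0 < √(m : ℝ) := by linarith
  set lam : ℝ := (2 * A * √m)⁻¹ with hlam
  have hlam0 : 0 < lam := by positivity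
  obtain ⟨u, hu, hI⟩ := greedy (d := d) K (π := fun k => ‖c k‖ / A)
    (y := fun k x => (lam * (A * (c k / ‖c k‖))) * e k x) (g := fun x => lam * tp K c x)
    (δ := (√m)⁻¹) (fun k => by positivity) (by rw [← Finset.sum_div, div_self h0.ne'])
    (inv_le_one_of_one_le₀ hs1) (fun k => TP_single _ _) (by fun_prop) (by
      intro k x
      refine (norm_sub_le _ _).trans ?_
      have h1 : ‖c k / (‖c k‖ : ℂ)‖ ≤ 1 := by
        rw [norm_div, Complex.norm_real, norm_norm]
        exact div_self_le_one _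
      simp only [norm_mul, norm_e, Complex.norm_real, Real.norm_of_nonneg hlam0.le,
        Real.norm_of_nonneg hA0, mul_one]
      have h2 := norm_tp_le K c x
      have h3 : (√m)⁻¹ = lam * (A * 1) + lam * A := by rw [hlam]; field_simp; norm_num
      rw [h3]
      gcongr) (by
      intro x
      rw [tp, Finset.mul_sum]
      refine Finset.sum_congr rfl fun k _ => ?_
      rcases eq_or_ne (c k) 0 with h | h
      · simp [h]
      · have h1 : (‖c k‖ : ℂ) ≠ 0 := by simpa using h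
        have h2 : (A : ℂ) ≠ 0 := by exact_mod_cast h0.ne'
        push_cast
        field_simp) m
  refine ⟨_, hu.const_mul ((m * lam : ℝ)⁻¹ : ℝ), ?_⟩
  have huc := hu.continuous
  have e1 : ∀ x, tp K c x - ((m * lam : ℝ)⁻¹ : ℝ) * u x =
      (-(m * lam : ℝ)⁻¹ : ℝ) * (u x - m * (lam * tp K c x)) := by
    intro x
    have h1 : (m : ℂ) ≠ 0 := by exact_mod_cast hm.ne'
    have h2 : (lam : ℂ) ≠ 0 := by exact_mod_cast hlam0.ne'
    push_cast
    field_simp
    ring
  simp only [e1]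
  rw [Np_const_mul hp, Complex.norm_real, norm_neg, Real.norm_of_nonneg (by positivity)]
  have b1 : (1 + (√m)⁻¹ ^ 2) ^ m ≤ Real.exp 1 := by
    have h1 : (√(m : ℝ))⁻¹ ^ 2 = (m : ℝ)⁻¹ := by rw [inv_pow, Real.sq_sqrt (by positivity)]
    rw [h1]
    have h2 : 1 + (m : ℝ)⁻¹ ≤ Real.exp (m : ℝ)⁻¹ := by linarith [Real.add_one_le_exp (m : ℝ)⁻¹]
    refine (pow_le_pow_left₀ (by positivity) h2 m).trans (le_of_eq ?_)
    rw [← Real.exp_nat_mul, mul_inv_cancel₀ (by positivity)]
  have b2 : Np p (fun x => u x - m * (lam * tp K c x)) ≤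
      ((2 * p) ^ p * (4 * Real.exp 1)) ^ p⁻¹ := by
    refine Real.rpow_le_rpow (by positivity) ?_ (by positivity)
    refine (integral_mono (cint (Continuous.rpow_const (by fun_prop) fun _ => Or.inr hp.le))
      (cint (f := fun x => (2 * p) ^ p * Psi (u x - m * (lam * tp K c x))) (by fun_prop))
      fun x => rpow_le_Psi hp _).trans ?_
    rw [integral_const_mul]
    exact mul_le_mul_of_nonneg_left (hI.trans (by linarith)) (by positivity)
  refine (mul_le_mul_of_nonneg_left b2 (by positivity)).trans (le_of_eq ?_)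
  have h3 : (m : ℝ) = √m * √m := (Real.mul_self_sqrt (by positivity)).symm
  have h4 : ((m : ℝ) * lam)⁻¹ = 2 * A / √m := by
    rw [hlam]
    conv_lhs => rw [h3]
    rw [← h3]
    field_simp
    rw [Real.sq_sqrt (by positivity)]
  rw [h4]; ring

end Pool.Agent.P.MP_33127d_an
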