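import Pool.Agent.P.MP_33127d_an.Geo

namespace Pool.Agent.P.MP_33127d_an

open MeasureTheory Finset

variable {d : ℕ}

theorem mix_le {x y q r : ℝ} (hx : 0 ≤ x) (hy : 0 ≤ y) (hq : 0 < q) (hqr : q < r) :
    x ^ q * y ^ (r - q) ≤ x ^ r + y ^ r := by
  have h1 : 0 ≤ r - q := by linarith
  have h2 : 0 < r := by linarith
  rcases le_total x y with h | h
  · have : x ^ q * y ^ (r - q) ≤ y ^ q * y ^ (r - q) := by gcongr
    rw [← Real.rpow_add' hy (by linarith)] at this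
    simp only [add_sub_cancel] at this
    have : 0 ≤ x ^ r := by positivity
    linarith
  · have : x ^ q * y ^ (r - q) ≤ x ^ q * x ^ (r - q) := by gcongr
    rw [← Real.rpow_add' hx (by linarith)] at this
    simp only [add_sub_cancel] at this
    have : 0 ≤ y ^ r := by positivity
    linarith

theorem pair_est {q r : ℝ} (hq : 0 < q) (hqr : q < r) : ∃ c K : ℝ, 0 < c ∧ 0 < K ∧
    ∀ (s t : Fin d → ℕ) (U V : TT d → ℝ) (A B : ℝ), Continuous U → Continuous V →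
    (∀ x, 0 ≤ U x) → (∀ x, 0 ≤ V x) → 0 ≤ A → 0 ≤ B →
    Maj t (fun x => U x ^ q) (A ^ q) → Maj s (fun x => V x ^ q) (B ^ q) →
    ∫ x, U x ^ q * V x ^ (r - q) ∂haar d ≤ K * (2 : ℝ) ^ (-c * dst t s) *
      ((2 ^ ((q⁻¹ - r⁻¹) * wt t) * A) ^ r + (2 ^ ((q⁻¹ - r⁻¹) * wt s) * B) ^ r) := by
  have hr : 0 < r := by linarith
  set η := (r - q) / q with hη
  set κ := (r - q) / r with hκ
  have hη0 : 0 < η := div_pos (by linarith) hq
  have hκ0 : 0 < κ := div_pos (by linarith) hr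
  have hκ1 : κ < 1 := by rw [hκ, div_lt_one hr]; linarith
  have hκη : κ < η := div_lt_div_of_pos_left (by linarith) hq hqr
  set θ := min 1 η with hθ
  have hθ0 : 0 < θ := lt_min one_pos hη0
  have hθ1 : θ ≤ 1 := min_le_left _ _
  have hθη : θ ≤ η := min_le_right _ _
  have hκθ : κ < θ := lt_min hκ1 hκη
  refine ⟨min (θ - κ) κ, (8 ^ d) ^ η, lt_min (by linarith) hκ0, by positivity, ?_⟩
  intro s t U V A B hU hV hU0 hV0 hA hB hMU hMV
  have hUq : Continuous fun x => U x ^ q := hU.rpow_const fun _ => Or.inr hq.le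
  have hVq : Continuous fun x => V x ^ q := hV.rpow_const fun _ => Or.inr hq.le
  have hUq0 : ∀ x, 0 ≤ U x ^ q := fun x => Real.rpow_nonneg (hU0 x) _
  have hVq0 : ∀ x, 0 ≤ V x ^ q := fun x => Real.rpow_nonneg (hV0 x) _
  have j := jensen hθ0 hθ1 hUq hVq hUq0 hVq0 (hMU.integral_le hUq)
    (hMU.bilin hMV hUq hVq hUq0 hVq0)
  have p1 : ∀ x, U x ^ q * V x ^ (r - q) ≤
      (8 ^ d * 2 ^ wt s * B ^ q) ^ (η - θ) * (U x ^ q * (V x ^ q) ^ θ) := by
    intro x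
    have e1 : V x ^ (r - q) = (V x ^ q) ^ (η - θ) * (V x ^ q) ^ θ := by
      rw [← Real.rpow_add' (hVq0 x) (by linarith), ← Real.rpow_mul (hV0 x)]
      congr 1
      rw [hη]; field_simp; ring
    rw [e1]
    have := Real.rpow_le_rpow (hVq0 x) (hMV.le_sup x) (sub_nonneg.mpr hθη)
    have h2 : 0 ≤ U x ^ q * (V x ^ q) ^ θ := mul_nonneg (hUq0 x) (Real.rpow_nonneg (hVq0 x) _)
    calc _ = (V x ^ q) ^ (η - θ) * (U x ^ q * (V x ^ q) ^ θ) := by ring
      _ ≤ _ := mul_le_mul_of_nonneg_right this h2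
  have i1 : ∫ x, U x ^ q * V x ^ (r - q) ∂haar d ≤ (8 ^ d * 2 ^ wt s * B ^ q) ^ (η - θ) *
      ((A ^ q) ^ (1 - θ) * (8 ^ d * 2 ^ wt (t ⊓ s) * (A ^ q * B ^ q)) ^ θ) := by
    refine (integral_mono (cint (hUq.mul (hV.rpow_const fun _ => Or.inr (by linarith))))
      (cint (continuous_const.mul (hUq.mul (hVq.rpow_const fun _ => Or.inr hθ0.le)))) p1).trans ?_
    simp only [Pi.mul_apply]
    rw [integral_const_mul]
    exact mul_le_mul_of_nonneg_left j (by positivity)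
  refine i1.trans ?_
  have e2 : (8 ^ d * 2 ^ wt s * B ^ q) ^ (η - θ) *
      ((A ^ q) ^ (1 - θ) * (8 ^ d * 2 ^ wt (t ⊓ s) * (A ^ q * B ^ q)) ^ θ) =
      (8 ^ d) ^ η * (2 : ℝ) ^ ((η - θ) * wt s + θ * wt (t ⊓ s)) * (A ^ q * B ^ (r - q)) := by
    have a1 : (A ^ q) ^ (1 - θ) * (A ^ q) ^ θ = A ^ q := by
      rw [← Real.rpow_add' (by positivity) (by linarith)]; simp
    have a2 : (B ^ q) ^ (η - θ) * (B ^ q) ^ θ = B ^ (r - q) := by
      rw [← Real.rpow_add' (by positivity) (by linarith), ← Real.rpow_mul hB]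
      congr 1
      rw [hη]; field_simp; ring
    have a3 : ((8 : ℝ) ^ d) ^ (η - θ) * (8 ^ d) ^ θ = (8 ^ d) ^ η := by
      rw [← Real.rpow_add (by positivity)]; simp
    have a4 : ((2 : ℝ) ^ wt s) ^ (η - θ) * (2 ^ wt (t ⊓ s)) ^ θ =
        (2 : ℝ) ^ ((η - θ) * wt s + θ * wt (t ⊓ s)) := by
      rw [Real.rpow_add (by norm_num), ← Real.rpow_natCast, ← Real.rpow_natCast,
        ← Real.rpow_mul (by norm_num), ← Real.rpow_mul (by norm_num), mul_comm (η - θ),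
        mul_comm θ]
    rw [← a2, ← a3, ← a4]
    conv_rhs => rw [← a1]
    rw [Real.mul_rpow (by positivity) (by positivity), Real.mul_rpow (by positivity) (by positivity),
      Real.mul_rpow (by positivity) (by positivity), Real.mul_rpow (by positivity) (by positivity),
      Real.mul_rpow (by positivity) (by positivity)]
    ring
  rw [e2]
  have m := mix_le (x := 2 ^ ((q⁻¹ - r⁻¹) * wt t) * A) (y := 2 ^ ((q⁻¹ - r⁻¹) * wt s) * B)
    (by positivity) (by positivity) hq hqr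
  refine le_trans ?_ (mul_le_mul_of_nonneg_left m (by positivity))
  rw [Real.mul_rpow (by positivity) hA, Real.mul_rpow (by positivity) hB,
    ← Real.rpow_mul (by norm_num), ← Real.rpow_mul (by norm_num)]
  have e3 : (2 : ℝ) ^ ((η - θ) * wt s + θ * wt (t ⊓ s)) ≤ 2 ^ (-min (θ - κ) κ * dst t s) *
      (2 ^ ((q⁻¹ - r⁻¹) * wt t * q) * 2 ^ ((q⁻¹ - r⁻¹) * wt s * (r - q))) := by
    rw [← Real.rpow_add (by norm_num), ← Real.rpow_add (by norm_num)]
    refine Real.rpow_le_rpow_of_exponent_le (by norm_num) ?_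
    have b1 : (q⁻¹ - r⁻¹) * wt t * q = κ * wt t := by rw [hκ]; field_simp
    have b2 : (q⁻¹ - r⁻¹) * wt s * (r - q) = (η - κ) * wt s := by rw [hκ, hη]; field_simp
    have b3 : (dst t s : ℝ) = (wt t - wt (t ⊓ s)) + (wt s - wt (t ⊓ s)) := by
      have := congrArg (Nat.cast : ℕ → ℝ) (wt_inf t s)
      push_cast at this
      linarith
    have b4 : (0 : ℝ) ≤ wt t - wt (t ⊓ s) := by
      have : (wt (t ⊓ s) : ℝ) ≤ wt t := by exact_mod_cast wt_inf_le_left t s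
      linarith
    have b5 : (0 : ℝ) ≤ wt s - wt (t ⊓ s) := by
      have : (wt (t ⊓ s) : ℝ) ≤ wt s := by exact_mod_cast wt_inf_le_right t s
      linarith
    have b6 := mul_le_mul_of_nonneg_right (min_le_left (θ - κ) κ) b5
    have b7 := mul_le_mul_of_nonneg_right (min_le_right (θ - κ) κ) b4
    rw [b1, b2, b3]
    nlinarith
  calc _ ≤ (8 ^ d) ^ η * (2 ^ (-min (θ - κ) κ * dst t s) *
      (2 ^ ((q⁻¹ - r⁻¹) * wt t * q) * 2 ^ ((q⁻¹ - r⁻¹) * wt s * (r - q)))) *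
        (A ^ q * B ^ (r - q)) := by gcongr
    _ = _ := by ring

theorem tlemma (M : ℕ) {q r : ℝ} (hq : 1 ≤ q) (hqr : q < r) : ∃ C : ℝ, 0 < C ∧
    ∀ (ι : Type) (S : Finset ι) (σ : ι → Fin d → ℕ), Mult M S σ →
    ∀ (G : ι → TT d → ℝ) (A : ι → ℝ), (∀ i, Continuous (G i)) → (∀ i x, 0 ≤ G i x) →
    (∀ i, 0 ≤ A i) → (∀ i ∈ S, Maj (σ i) (fun x => G i x ^ q) (A i ^ q)) →
    ∫ x, (∑ i ∈ S, G i x) ^ r ∂haar d ≤
      C * ∑ i ∈ S, (2 ^ ((q⁻¹ - r⁻¹) * wt (σ i)) * A i) ^ r := by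
  have hq0 : 0 < q := by linarith
  have hr0 : 0 < r := by linarith
  obtain ⟨c, K, hc, hK, hpair⟩ := pair_est (d := d) hq0 hqr
  obtain ⟨C1, hC1, hW⟩ := weighted_holder (d := d) M (ε := c / 2) (r := r) (by positivity)
    (by linarith)
  obtain ⟨C2, hC2, hG⟩ := geoM (d := d) M (ε := c / 2) (by positivity)
  refine ⟨C1 * K * (2 * C2), by positivity, fun ι S σ hM G A hGc hG0 hA hMaj => ?_⟩
  have hcont : ∀ i j, Continuous fun x => G i x ^ q * G j x ^ (r - q) := fun i j =>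
    ((hGc i).rpow_const fun _ => Or.inr hq0.le).mul
      ((hGc j).rpow_const fun _ => Or.inr (by linarith))
  have hcont2 : ∀ i j, Continuous fun x => (2 : ℝ) ^ (c / 2 * dst (σ i) (σ j)) *
      (G i x ^ q * G j x ^ (r - q)) := fun i j => continuous_const.mul (hcont i j)
  have p1 : ∀ x, (∑ i ∈ S, G i x) ^ r ≤ C1 * ∑ j ∈ S, ∑ i ∈ S,
      (2 : ℝ) ^ (c / 2 * dst (σ i) (σ j)) * (G i x ^ q * G j x ^ (r - q)) := by
    intro x
    have hnn : ∀ i j, 0 ≤ (2 : ℝ) ^ (c / 2 * dst (σ i) (σ j)) * (G i x ^ q * G j x ^ (r - q)) := by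
      intro i j
      have := hG0 i x; have := hG0 j x; positivity
    rcases S.eq_empty_or_nonempty with rfl | hS
    · simp [Real.zero_rpow hr0.ne']
    obtain ⟨j, hj, hmax⟩ := S.exists_max_image (fun i => G i x) hS
    refine (hW ι S σ hM (σ j) (fun i => G i x) fun i => hG0 i x).trans ?_
    refine mul_le_mul_of_nonneg_left (le_trans ?_ (Finset.single_le_sum
      (f := fun j => ∑ i ∈ S, (2 : ℝ) ^ (c / 2 * dst (σ i) (σ j)) * (G i x ^ q * G j x ^ (r - q)))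
      (fun j _ => Finset.sum_nonneg fun i _ => hnn i j) hj)) hC1.le
    refine Finset.sum_le_sum fun i hi => mul_le_mul_of_nonneg_left ?_ (by positivity)
    have e1 : G i x ^ r = G i x ^ q * G i x ^ (r - q) := by
      rw [← Real.rpow_add' (hG0 i x) (by linarith)]; simp
    rw [e1]
    exact mul_le_mul_of_nonneg_left (Real.rpow_le_rpow (hG0 i x) (hmax i hi) (by linarith))
      (Real.rpow_nonneg (hG0 i x) _)
  have hc1 : Continuous fun x => (∑ i ∈ S, G i x) ^ r :=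
    (continuous_finsetSum _ fun i _ => hGc i).rpow_const fun _ => Or.inr hr0.le
  refine (integral_mono (cint hc1) (cint (continuous_const.mul (continuous_finsetSum _ fun j _ =>
    continuous_finsetSum _ fun i _ => hcont2 i j))) p1).trans ?_
  simp only [Pi.mul_apply]
  rw [integral_const_mul, integral_finsetSum _ fun j _ => cint (continuous_finsetSum _ fun i _ =>
    hcont2 i j)]
  set N : ι → ℝ := fun i => (2 ^ ((q⁻¹ - r⁻¹) * wt (σ i)) * A i) ^ r with hN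
  have hN0 : ∀ i, 0 ≤ N i := fun i => by have := hA i; positivity
  have s1 : ∀ j ∈ S, ∫ x, ∑ i ∈ S, (2 : ℝ) ^ (c / 2 * dst (σ i) (σ j)) *
      (G i x ^ q * G j x ^ (r - q)) ∂haar d ≤
      ∑ i ∈ S, K * ((2 : ℝ) ^ (-(c / 2) * dst (σ i) (σ j)) * (N i + N j)) := by
    intro j hj
    rw [integral_finsetSum _ fun i _ => cint (hcont2 i j)]
    refine Finset.sum_le_sum fun i hi => ?_
    rw [integral_const_mul]
    refine (mul_le_mul_of_nonneg_left (hpair (σ j) (σ i) (G i) (G j) (A i) (A j) (hGc i) (hGc j)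
      (hG0 i) (hG0 j) (hA i) (hA j) (hMaj i hi) (hMaj j hj)) (by positivity)).trans (le_of_eq ?_)
    have : (2 : ℝ) ^ (-(c / 2) * dst (σ i) (σ j)) =
        2 ^ (c / 2 * dst (σ i) (σ j)) * 2 ^ (-c * dst (σ i) (σ j)) := by
      rw [← Real.rpow_add (by norm_num)]; congr 1; ring
    rw [this]; ring
  have s2 : ∑ j ∈ S, ∑ i ∈ S, (2 : ℝ) ^ (-(c / 2) * dst (σ i) (σ j)) * (N i + N j) ≤
      2 * C2 * ∑ i ∈ S, N i := by
    simp only [mul_add, Finset.sum_add_distrib]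
    have t1 : ∑ j ∈ S, ∑ i ∈ S, (2 : ℝ) ^ (-(c / 2) * dst (σ i) (σ j)) * N j ≤
        C2 * ∑ i ∈ S, N i := by
      rw [Finset.mul_sum]
      refine Finset.sum_le_sum fun j _ => ?_
      rw [← Finset.sum_mul]
      exact mul_le_mul_of_nonneg_right (hG ι S σ hM (σ j)) (hN0 j)
    have t2 : ∑ j ∈ S, ∑ i ∈ S, (2 : ℝ) ^ (-(c / 2) * dst (σ i) (σ j)) * N i ≤
        C2 * ∑ i ∈ S, N i := by
      rw [Finset.sum_comm]
      simpa only [dst_comm] using t1
    linarith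
  calc _ ≤ C1 * ∑ j ∈ S, ∑ i ∈ S,
        K * ((2 : ℝ) ^ (-(c / 2) * dst (σ i) (σ j)) * (N i + N j)) :=
        mul_le_mul_of_nonneg_left (Finset.sum_le_sum s1) hC1.le
    _ = C1 * K * ∑ j ∈ S, ∑ i ∈ S, (2 : ℝ) ^ (-(c / 2) * dst (σ i) (σ j)) * (N i + N j) := by
        simp only [← Finset.mul_sum, mul_assoc]
    _ ≤ C1 * K * (2 * C2 * ∑ i ∈ S, N i) := mul_le_mul_of_nonneg_left s2 (by positivity)
    _ = _ := by ring

/-- norm form of the lemma -/
theorem tlemma_Np (M : ℕ) {q r : ℝ} (hq : 1 ≤ q) (hqr : q < r) : ∃ C : ℝ, 0 < C ∧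
    ∀ (ι : Type) (S : Finset ι) (σ : ι → Fin d → ℕ), Mult M S σ →
    ∀ (u : ι → TT d → ℂ) (A : ι → ℝ), (∀ i, Continuous (u i)) →
    (∀ i, 0 ≤ A i) → (∀ i ∈ S, Maj (σ i) (fun x => ‖u i x‖ ^ q) (A i ^ q)) →
    Np r (fun x => ∑ i ∈ S, u i x) ≤
      C * (∑ i ∈ S, (2 ^ ((q⁻¹ - r⁻¹) * wt (σ i)) * A i) ^ r) ^ r⁻¹ := by
  have hr0 : 0 < r := by linarith
  obtain ⟨C, hC, h⟩ := tlemma (d := d) M hq hqr
  refine ⟨C ^ r⁻¹, by positivity, fun ι S σ hM u A hu hA hMaj => ?_⟩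
  have hs : 0 ≤ ∑ i ∈ S, (2 ^ ((q⁻¹ - r⁻¹) * wt (σ i)) * A i) ^ r :=
    Finset.sum_nonneg fun i _ => by have := hA i; positivity
  rw [← Real.mul_rpow hC.le hs, Np]
  refine Real.rpow_le_rpow (by positivity) (le_trans ?_ (h ι S σ hM (fun i x => ‖u i x‖) A
    (fun i => (hu i).norm) (fun i x => norm_nonneg _) hA hMaj)) (by positivity)
  refine integral_mono (cint ((continuous_finsetSum _ fun i _ => hu i).norm.rpow_const
    fun _ => Or.inr hr0.le)) (cint ((continuous_finsetSum _ fun i _ => (hu i).norm).rpow_const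
    fun _ => Or.inr hr0.le)) fun x => ?_
  exact Real.rpow_le_rpow (norm_nonneg _) (norm_sum_le _ _) hr0.le

end Pool.Agent.P.MP_33127d_an
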