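import Pool.Agent.P.MP_33127d_an.Conv
import Pool.Agent.P.MP_33127d_an.Maurey

namespace Pool.Agent.P.MP_33127d_an

open MeasureTheory Finset

variable {d : ℕ}

def Wom (d : ℕ) (ω : ℕ → ℝ) : Set (TT d → ℂ) :=
  {f | Integrable f (haar d) ∧ ∀ l, Np 1 (layer l f) ≤ ω l}

theorem sigma_le {m : ℕ} {p : ℝ} {f t : TT d → ℂ} (ht : TP m t) :
    sigma m p f ≤ eLpNorm (fun x => f x - t x) (ENNReal.ofReal p) (haar d) := by
  obtain ⟨K, c, hK, rfl⟩ := ht
  exact iInf_le_of_le K (iInf_le_of_le hK (iInf_le_of_le c le_rfl))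

theorem TP_psum (n N : ℕ) (f : TT (n + 1) → ℂ) :
    TP (2 ^ (n + 1) * 2 ^ N * N ^ n) (psum N f) := by
  have h := TP.sum (range N) (j := fun l => 2 ^ (n + 1) * 2 ^ l * N ^ n)
    (u := fun l => layer l f) fun l hl =>
      ⟨_, _, (card_Delta n l).trans (Nat.mul_le_mul_left _
        (Nat.pow_le_pow_left (Finset.mem_range.mp hl) _)), layer_eq l f⟩
  refine TP.mono h ?_
  rw [← Finset.sum_mul, ← Finset.mul_sum]
  gcongr
  rw [Nat.geomSum_eq le_rfl]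
  simp

theorem sigma_tail {p : ℝ} (hp : 1 ≤ p) : ∃ C : ℝ, 0 < C ∧ ∀ (ω : ℕ → ℝ) (f : TT d → ℂ),
    f ∈ Wom d ω → Summable (fun l : ℕ => (2 : ℝ) ^ ((1 - p⁻¹) * l) * ω l) →
    ∀ (m L : ℕ) (t : TT d → ℂ), TP m t → sigma m p f ≤ ENNReal.ofReal
      (Np p (fun x => psum L f x - t x) +
        C * ∑' l : ℕ, (2 : ℝ) ^ ((1 - p⁻¹) * (l + L : ℕ)) * ω (l + L)) := by
  obtain ⟨C, hC, h⟩ := nikolskii (d := d) hp
  refine ⟨C, hC, fun ω f hf hs m L t ht => (sigma_le ht).trans ?_⟩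
  rw [← tsum_mul_left]
  refine tail_est hp hf.1 (τ := fun l => C * ((2 : ℝ) ^ ((1 - p⁻¹) * l) * ω l)) (hs.mul_left C)
    (fun l => (h l f).trans ?_) L ht.continuous
  rw [mul_assoc]
  gcongr
  exact hf.2 l

theorem psum_sub {n L : ℕ} (h : n ≤ L) (f : TT d → ℂ) (x : TT d) :
    psum L f x - psum n f x = ∑ l ∈ Ico n L, layer l f x :=
  (Finset.sum_Ico_eq_sub _ h).symm

theorem upper_large {n : ℕ} {p : ℝ} (hp : 1 ≤ p) : ∃ C : ℝ, 0 < C ∧
    ∀ (ω : ℕ → ℝ) (f : TT (n + 1) → ℂ), (∀ l, 0 < ω l) → f ∈ Wom (n + 1) ω →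
    Summable (fun l : ℕ => (2 : ℝ) ^ ((1 - p⁻¹) * l) * ω l) →
    ∀ (m m' N L : ℕ), N ≤ L → 0 < m' → 2 ^ (n + 1) * 2 ^ N * N ^ n + m' ≤ m →
    sigma m p f ≤ ENNReal.ofReal (C * ((∑ l ∈ Ico N L, 2 ^ l * ω l) / √m' +
        ∑' l : ℕ, (2 : ℝ) ^ ((1 - p⁻¹) * (l + L : ℕ)) * ω (l + L))) := by
  obtain ⟨C1, hC1, h1⟩ := sigma_tail (d := n + 1) hp
  obtain ⟨C2, hC2, h2⟩ := maurey (d := n + 1) (p := p) (by linarith)
  obtain ⟨C3, hC3, h3⟩ := anorm_layer (d := n + 1)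
  refine ⟨C1 + C2 * C3, by positivity, fun ω f hω hf hs m m' N L hNL hm' hm => ?_⟩
  have hdisj : Set.PairwiseDisjoint (Ico N L : Finset ℕ) (Delta (n + 1)) := by
    intro s _ t _ hst
    rw [Function.onFun, Finset.disjoint_left]
    exact fun k h1 h2 => hst (Delta_unique h1 h2)
  obtain ⟨t, ht, hN⟩ := h2 ((Ico N L).biUnion (Delta (n + 1))) (coef f) m' hm'
  refine (h1 ω f hf hs m L _ (((TP_psum n N f).add ht).mono hm)).trans
    (ENNReal.ofReal_le_ofReal ?_)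
  have e1 : ∀ x, psum L f x - (psum N f x + t x) =
      tp ((Ico N L).biUnion (Delta (n + 1))) (coef f) x - t x := by
    intro x
    rw [← sub_sub, psum_sub hNL, tp, Finset.sum_biUnion hdisj]
    simp only [layer_eq, tp]
  simp only [e1]
  have e2 : ∑ k ∈ (Ico N L).biUnion (Delta (n + 1)), ‖coef f k‖ ≤
      C3 * ∑ l ∈ Ico N L, 2 ^ l * ω l := by
    rw [Finset.sum_biUnion hdisj, Finset.mul_sum]
    refine Finset.sum_le_sum fun l _ => (h3 l f).trans ?_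
    rw [mul_assoc]
    gcongr
    exact hf.2 l
  have n1 : 0 ≤ ∑' l : ℕ, (2 : ℝ) ^ ((1 - p⁻¹) * (l + L : ℕ)) * ω (l + L) :=
    tsum_nonneg fun l => by have := hω (l + L); positivity
  have n2 : 0 ≤ (∑ l ∈ Ico N L, 2 ^ l * ω l) / √m' :=
    div_nonneg (Finset.sum_nonneg fun l _ => by have := hω l; positivity) (by positivity)
  have e3 : Np p (fun x => tp ((Ico N L).biUnion (Delta (n + 1))) (coef f) x - t x) ≤
      C2 * C3 * ((∑ l ∈ Ico N L, 2 ^ l * ω l) / √m') := by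
    refine hN.trans ?_
    rw [mul_div_assoc, mul_assoc, ← mul_div_assoc C3]
    gcongr
  nlinarith [mul_nonneg hC1.le n2, mul_nonneg (mul_pos hC2 hC3).le n1]

theorem upper_small {n : ℕ} {p : ℝ} (hp : 1 < p) (hp2 : p ≤ 2) : ∃ C : ℝ, 0 < C ∧
    ∀ (ω : ℕ → ℝ) (f : TT (n + 1) → ℂ), (∀ l, 0 < ω l) → f ∈ Wom (n + 1) ω →
    Summable (fun l : ℕ => (2 : ℝ) ^ ((1 - p⁻¹) * l) * ω l) →
    ∀ (m N L : ℕ) (v : ℕ → ℝ), N ≤ L → (∀ l, 0 < v l) →
    (2 ^ (n + 1) * 2 ^ N * N ^ n + 8 ^ (n + 1) * ∑ l ∈ Ico N L, 2 ^ l * v l : ℝ) ≤ m →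
    sigma m p f ≤ ENNReal.ofReal (C *
      ((∑ l ∈ Ico N L, ((2 : ℝ) ^ ((1 - p⁻¹) * l) * ω l * v l ^ (-(1 - p⁻¹))) ^ p) ^ p⁻¹ +
        ∑' l : ℕ, (2 : ℝ) ^ ((1 - p⁻¹) * (l + L : ℕ)) * ω (l + L))) := by
  classical
  have hp0 : 0 < p := by linarith
  set q := (1 + p) / 2 with hq
  have hq1 : 1 < q := by linarith
  have hqp : q < p := by linarith
  obtain ⟨C1, hC1, h1⟩ := sigma_tail (d := n + 1) hp.le
  obtain ⟨C2, hC2, h2⟩ := klayer (d := n + 1) hq1 (by linarith)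
  obtain ⟨C3, hC3, h3⟩ := tlemma_Np (d := n + 1) (n + 2) hq1.le hqp
  refine ⟨C1 + C3 * (3 ^ (n + 1) * C2), by positivity,
    fun ω f hω hf hs m N L v hNL hv hm => ?_⟩
  set B : ℕ → ℝ := fun l => C2 * (2 : ℝ) ^ ((1 - q⁻¹) * l) * ω l with hB
  have hB0 : ∀ l, 0 < B l := fun l => by have := hω l; positivity
  set u : ℕ → (Fin (n + 1) → ℕ) → TT (n + 1) → ℂ := fun l s => Op s (aS s) (layer l f) with hu
  set b : ℕ → (Fin (n + 1) → ℕ) → ℝ := fun l s => Np q (u l s) with hb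
  have hb0 : ∀ l s, 0 ≤ b l s := fun l s => Np_nonneg _ _
  have hbB : ∀ l, ∑ s ∈ Sh (n + 1) l, b l s ≤ B l := fun l =>
    (h2 l f).trans (mul_le_mul_of_nonneg_left (hf.2 l) (by positivity))
  set Big : ℕ → Finset (Fin (n + 1) → ℕ) :=
    fun l => (Sh (n + 1) l).filter fun s => B l < v l * b l s with hBig
  set Sm : ℕ → Finset (Fin (n + 1) → ℕ) :=
    fun l => (Sh (n + 1) l).filter fun s => ¬ B l < v l * b l s with hSm
  have hcard : ∀ l, ((Big l).card : ℝ) ≤ v l := by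
    intro l
    have a1 : ∑ s ∈ Big l, B l ≤ ∑ s ∈ Big l, v l * b l s :=
      Finset.sum_le_sum fun s hs => (Finset.mem_filter.mp hs).2.le
    rw [Finset.sum_const, nsmul_eq_mul, ← Finset.mul_sum] at a1
    have a2 : ∑ s ∈ Big l, b l s ≤ B l :=
      (Finset.sum_le_sum_of_subset_of_nonneg (Finset.filter_subset _ _)
        fun s _ _ => hb0 l s).trans (hbB l)
    exact le_of_mul_le_mul_right (a1.trans (mul_le_mul_of_nonneg_left a2 (hv l).le)) (hB0 l)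
  have hT : TP (∑ l ∈ Ico N L, ∑ s ∈ Big l, (box s).card)
      fun x => ∑ l ∈ Ico N L, ∑ s ∈ Big l, u l s x :=
    TP.sum _ fun l _ => TP.sum _ fun s _ => ⟨_, _, le_rfl, rfl⟩
  have hm2 : 2 ^ (n + 1) * 2 ^ N * N ^ n + ∑ l ∈ Ico N L, ∑ s ∈ Big l, (box s).card ≤ m := by
    have : ((2 ^ (n + 1) * 2 ^ N * N ^ n + ∑ l ∈ Ico N L, ∑ s ∈ Big l, (box s).card : ℕ) : ℝ)
        ≤ m := by
      push_cast
      refine le_trans (add_le_add le_rfl ?_) hm
      rw [Finset.mul_sum]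
      refine Finset.sum_le_sum fun l _ => ?_
      refine (Finset.sum_le_card_nsmul _ _ (8 ^ (n + 1) * 2 ^ l) fun s hs => ?_).trans ?_
      · refine (card_box s).trans (mul_le_mul_of_nonneg_left ?_ (by positivity))
        exact pow_le_pow_right₀ (by norm_num) (Finset.mem_filter.mp (Finset.mem_filter.mp hs).1).2.2
      · rw [nsmul_eq_mul, mul_comm, mul_assoc]
        gcongr
        exact hcard l
    exact_mod_cast this
  refine (h1 ω f hf hs m L _ (((TP_psum n N f).add hT).mono hm2)).trans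
    (ENNReal.ofReal_le_ofReal ?_)
  have e1 : ∀ x, psum L f x - (psum N f x + ∑ l ∈ Ico N L, ∑ s ∈ Big l, u l s x) =
      ∑ i ∈ (Ico N L).sigma Sm, u i.1 i.2 x := by
    intro x
    rw [← sub_sub, psum_sub hNL, Finset.sum_sigma, ← Finset.sum_sub_distrib]
    refine Finset.sum_congr rfl fun l _ => ?_
    rw [layer_decomp, ← Finset.sum_filter_add_sum_filter_not (Sh (n + 1) l)
      fun s => B l < v l * b l s]
    simp [hBig, hSm, hu]
  simp only [e1]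
  have hM : Mult (n + 2) ((Ico N L).sigma Sm) fun i => i.2 := by
    intro s
    have : n + 2 = (Icc (wt s) (wt s + (n + 1))).card := by simp; omega
    rw [this]
    refine Finset.card_le_card_of_injOn (fun i => i.1) ?_ ?_
    · intro i hi
      simp only [coe_filter, mem_sigma, Set.mem_ofPred_eq, hSm, Sh, mem_filter] at hi
      simp only [coe_Icc, Set.mem_Icc]
      rw [← hi.2]
      exact ⟨hi.1.2.1.2.2, hi.1.2.1.2.1⟩
    · rintro ⟨i1, i2⟩ hi ⟨j1, j2⟩ hj hij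
      simp only [coe_filter, Set.mem_ofPred_eq] at hi hj hij
      rw [hij, hi.2, hj.2]
  have hN := h3 _ _ _ hM (fun i => u i.1 i.2) (fun i => 3 ^ (n + 1) * b i.1 i.2)
    (fun i => continuous_Op _ _ _) (fun i => by have := hb0 i.1 i.2; positivity)
    fun i _ => maj_block i.2 hq1.le _
  set X := ∑ l ∈ Ico N L, ((2 : ℝ) ^ ((1 - p⁻¹) * l) * ω l * v l ^ (-(1 - p⁻¹))) ^ p with hX
  have hX0 : 0 ≤ X := Finset.sum_nonneg fun l _ => by have := hω l; have := hv l; positivity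
  have e2 : ∑ i ∈ (Ico N L).sigma Sm,
      (2 ^ ((q⁻¹ - p⁻¹) * wt i.2) * (3 ^ (n + 1) * b i.1 i.2)) ^ p ≤ (3 ^ (n + 1) * C2) ^ p * X := by
    rw [Finset.sum_sigma, hX, Finset.mul_sum]
    refine Finset.sum_le_sum fun l _ => ?_
    have hvl := hv l
    have hωl := hω l
    have hBl := hB0 l
    have s1 : ∀ s ∈ Sm l, (2 ^ ((q⁻¹ - p⁻¹) * wt s) * (3 ^ (n + 1) * b l s)) ^ p ≤
        (2 ^ ((q⁻¹ - p⁻¹) * l) * 3 ^ (n + 1)) ^ p * (B l / v l) ^ (p - 1) * b l s := by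
      intro s hs
      have hbs := hb0 l s
      simp only [hSm, Sh, mem_filter, not_lt] at hs
      have t1 : b l s ≤ B l / v l := by rw [le_div_iff₀ hvl, mul_comm]; exact hs.2
      have t2 : b l s ^ p = b l s ^ (p - 1) * b l s := by
        rw [← Real.rpow_add_one' hbs (by linarith)]; simp
      have t3 : (2 : ℝ) ^ ((q⁻¹ - p⁻¹) * wt s) ≤ 2 ^ ((q⁻¹ - p⁻¹) * l) := by
        refine Real.rpow_le_rpow_of_exponent_le (by norm_num) (mul_le_mul_of_nonneg_left ?_ ?_)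
        · exact_mod_cast hs.1.2.2
        · have := inv_anti₀ (by linarith) hqp.le
          linarith
      have : 0 ≤ p - 1 := by linarith
      rw [← mul_assoc, Real.mul_rpow (by positivity) hbs, t2, ← mul_assoc]
      gcongr
    refine (Finset.sum_le_sum s1).trans ?_
    rw [← Finset.mul_sum]
    have s2 : ∑ s ∈ Sm l, b l s ≤ B l :=
      (Finset.sum_le_sum_of_subset_of_nonneg (Finset.filter_subset _ _)
        fun s _ _ => hb0 l s).trans (hbB l)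
    refine (mul_le_mul_of_nonneg_left s2 (by positivity)).trans (le_of_eq ?_)
    have t4 : (B l / v l) ^ (p - 1) * B l = (B l * v l ^ (-(1 - p⁻¹))) ^ p := by
      rw [Real.mul_rpow hBl.le (by positivity), ← Real.rpow_mul hvl.le,
        Real.div_rpow hBl.le hvl.le]
      have : -(1 - p⁻¹) * p = -(p - 1) := by field_simp
      rw [this, Real.rpow_neg hvl.le, Real.rpow_sub_one hBl.ne']
      field_simp
    rw [mul_assoc, t4, ← Real.mul_rpow (by positivity) (by positivity),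
      ← Real.mul_rpow (by positivity) (by positivity)]
    congr 1
    have : (2 : ℝ) ^ ((1 - p⁻¹) * l) = 2 ^ ((q⁻¹ - p⁻¹) * l) * 2 ^ ((1 - q⁻¹) * l) := by
      rw [← Real.rpow_add (by norm_num)]; congr 1; ring
    rw [this, hB]; ring
  have e3 : Np p (fun x => ∑ i ∈ (Ico N L).sigma Sm, u i.1 i.2 x) ≤
      C3 * (3 ^ (n + 1) * C2) * X ^ p⁻¹ := by
    refine hN.trans ?_
    rw [mul_assoc]
    refine mul_le_mul_of_nonneg_left ?_ hC3.le
    refine (Real.rpow_le_rpow (Finset.sum_nonneg fun i _ => by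
      have := hb0 i.1 i.2; positivity) e2 (by positivity)).trans (le_of_eq ?_)
    rw [Real.mul_rpow (by positivity) hX0, Real.rpow_rpow_inv (by positivity) hp0.ne']
  have n1 : 0 ≤ ∑' l : ℕ, (2 : ℝ) ^ ((1 - p⁻¹) * (l + L : ℕ)) * ω (l + L) :=
    tsum_nonneg fun l => by have := hω (l + L); positivity
  have n2 : 0 ≤ X ^ p⁻¹ := by positivity
  have n3 : 0 < C3 * (3 ^ (n + 1) * C2) := by positivity
  nlinarith [mul_nonneg hC1.le n2, mul_nonneg n3.le n1]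

end Pool.Agent.P.MP_33127d_an
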